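import Pool.Agent.Lib.KLA.Defs

/-!
Tables of coefficients of trigonometric polynomials in two angles, packed in one number, with the
operations written in continuation style so that the kernel evaluates them fast.
-/

namespace Pool.Agent.Lib.KTab

open Pool.Agent.Lib.KLA

/-- A packed table: sign and size of the number, half widths `n`, `m` of the box, excess `x` of the
box of the error, scale `2 ^ s`, bound `M` for the sum of the absolute values of the coefficients,
bound `e` for the same sum for the error. -/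
structure Tab : Type where
  neg : Bool
  mag : Nat
  n : Nat
  m : Nat
  x : Nat
  s : Nat
  M : Nat
  e : Nat

noncomputable section

/-- Take a table apart. -/
def Tab.use {α : Type} (A : Tab) (f : Bool → Nat → Nat → Nat → Nat → Nat → Nat → Nat → α) : α :=
  Tab.casesOn (motive := fun _ => α) A f

/-- Pass on a table with its small fields evaluated. -/
def mkT (g : Bool) (a n m x s M e : Nat) (k : Tab → Bool) : Bool :=
  strict n fun n => strict m fun m => strict x fun x => strict s fun s => strict M fun M =>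
    strict e fun e => cnd g (k ⟨true, a, n, m, x, s, M, e⟩) (k ⟨false, a, n, m, x, s, M, e⟩)

/-- Negation of a boolean. -/
def nt (a : Bool) : Bool := cnd a false true

/-- Exclusive or. -/
def bx (a b : Bool) : Bool := cnd a (nt b) b

/-- Maximum. -/
def mx (a b : Nat) : Nat := Nat.add a (Nat.sub b a)

/-- Difference of two numbers, with sign. -/
def ssub (a b : Nat) (k : Bool → Nat → Bool) : Bool :=
  cnd (Nat.ble b a) (k false (Nat.sub a b)) (k true (Nat.sub b a))

/-- Sum of two numbers with sign. -/
def sadd (g : Bool) (a : Nat) (h : Bool) (b : Nat) (k : Bool → Nat → Bool) : Bool :=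
  cnd g (cnd h (k true (Nat.add a b)) (ssub b a k)) (cnd h (ssub a b k) (k false (Nat.add a b)))

/-- `K` plus a number with sign. -/
def off (g : Bool) (a K : Nat) (k : Nat → Bool) : Bool :=
  cnd g (k (Nat.sub K a)) (k (Nat.add a K))

/-- Shift. -/
def shl (a t : Nat) (k : Nat → Bool) : Bool :=
  strict t fun t => cnd (Nat.beq t 0) (k a) (k (Nat.shiftLeft a t))

/-- The vector with `p` entries `2 ^ e`. -/
def ofs (W p e : Nat) : Nat := Nat.shiftLeft (ones W p) e

/-- The constant `± a / 2 ^ s`. -/
def cst (g : Bool) (a s : Nat) : Tab := ⟨g, a, 0, 0, 0, s, a, 0⟩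

/-- The constant `± p / q`, rounded at scale `2 ^ s`. -/
def rat (g : Bool) (p q s : Nat) (k : Tab → Bool) : Bool :=
  strict (Nat.div (Nat.shiftLeft p s) q) fun a => bnd (Nat.ble 1 q) (k ⟨g, a, 0, 0, 0, s, a, 1⟩)

/-- The cosine of the first angle. -/
def cx (W : Nat) : Tab := ⟨false, Nat.add (Nat.shiftLeft 1 W) 1, 1, 0, 0, 1, 2, 0⟩

/-- The cosine of the second angle. -/
def cy (W S : Nat) : Tab := ⟨false, Nat.add (Nat.shiftLeft 1 (Nat.mul W S)) 1, 0, 1, 0, 1, 2, 0⟩

/-- `i` times the sine of the first angle. -/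
def sx (W : Nat) : Tab := ⟨false, low W, 1, 0, 0, 1, 2, 0⟩

/-- `i` times the sine of the second angle. -/
def sy (W S : Nat) : Tab := ⟨false, low (Nat.mul W S), 0, 1, 0, 1, 2, 0⟩

/-- The error enlarged by `p / q`. -/
def wide (p q : Nat) (A : Tab) (k : Tab → Bool) : Bool :=
  A.use fun g a n m x s M e =>
    strict (Nat.add e (Nat.add (Nat.div (Nat.shiftLeft p s) q) 1)) fun e =>
      bnd (Nat.ble 1 q) (k ⟨g, a, n, m, x, s, M, e⟩)

/-- Opposite. -/
def neg (A : Tab) (k : Tab → Bool) : Bool :=
  A.use fun g a n m x s M e => cnd g (k ⟨false, a, n, m, x, s, M, e⟩) (k ⟨true, a, n, m, x, s, M, e⟩)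

/-- Division by `2 ^ t`. -/
def half (t : Nat) (A : Tab) (k : Tab → Bool) : Bool :=
  A.use fun g a n m x s M e => strict (Nat.add s t) fun s => k ⟨g, a, n, m, x, s, M, e⟩

/-- Product. -/
def mul (A B : Tab) (k : Tab → Bool) : Bool :=
  A.use fun g a n m x s M e => B.use fun g' a' n' m' x' s' M' e' =>
    mkT (bx g g') (Nat.mul a a') (Nat.add n n') (Nat.add m m') (Nat.add x x') (Nat.add s s')
      (Nat.mul M M') (Nat.add (Nat.mul M e') (Nat.mul e (Nat.add M' e'))) k

/-- The same function in a larger box and at a finer scale. -/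
def lift (W S n' m' s' : Nat) (A : Tab) (k : Tab → Bool) : Bool :=
  A.use fun g a n m x s M e =>
    strict (Nat.div (Nat.sub n' n) 2) fun dn => strict (Nat.div (Nat.sub m' m) 2) fun dm =>
    strict (Nat.sub s' s) fun ds =>
    bnd (bnd (Nat.beq (Nat.add n (Nat.mul 2 dn)) n') (bnd (Nat.beq (Nat.add m (Nat.mul 2 dm)) m')
        (Nat.ble s s')))
      (shl a (Nat.add (Nat.mul W (Nat.add dn (Nat.mul S dm))) ds) fun a =>
        mkT g a n' m' (Nat.sub x dn) s' (Nat.shiftLeft M ds) (Nat.shiftLeft e ds) k)

/-- Sum of two tables with the same box and scale. -/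
def add0 (A B : Tab) (k : Tab → Bool) : Bool :=
  A.use fun g a n m x s M e => B.use fun g' a' n' m' x' s' M' e' =>
    bnd (bnd (Nat.beq n n') (bnd (Nat.beq m m') (Nat.beq s s')))
      (sadd g a g' a' fun g a => mkT g a n m (mx x x') s (Nat.add M M') (Nat.add e e') k)

/-- Sum. -/
def add (W S : Nat) (A B : Tab) (k : Tab → Bool) : Bool :=
  A.use fun _ _ n m _ s M e => B.use fun _ _ n' m' _ s' M' e' =>
    cnd (Nat.beq (Nat.add M e) 0) (k B) (cnd (Nat.beq (Nat.add M' e') 0) (k A)
      (cnd (bnd (Nat.beq n n') (bnd (Nat.beq m m') (Nat.beq s s'))) (add0 A B k)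
        (strict (mx n n') fun n => strict (mx m m') fun m => strict (mx s s') fun s =>
          lift W S n m s A fun A => lift W S n m s B fun B => add0 A B k)))

/-- Difference. -/
def sub (W S : Nat) (A B : Tab) (k : Tab → Bool) : Bool := neg B fun B => add W S A B k

/-- The digits of a table with offset `2 ^ e`; `p` is their number. -/
def dig (W S e : Nat) (g : Bool) (a n m M : Nat) (k : Nat → Nat → Bool) : Bool :=
  strict (Nat.add (Nat.add n 1) (Nat.mul S m)) fun p =>
    bnd (bnd (Nat.ble (Nat.add n 1) S) (bnd (Nat.ble (Nat.add e 2) W)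
        (Nat.ble (Nat.add M p) (Nat.shiftLeft 1 e))))
      (off g a (ofs W p e) fun y => k p y)

/-- A bound for the sum of the absolute values. -/
def l1 (W e p y : Nat) : Nat := Nat.add (dsum W (vabs W e p y)) p

/-- Measure the sum of the absolute values of the coefficients. -/
def meas (W S : Nat) (A : Tab) (k : Tab → Bool) : Bool :=
  A.use fun g a n m x s M e => strict (Nat.sub W 2) fun w => dig W S w g a n m M fun p y =>
    strict (l1 W w p y) fun M => k ⟨g, a, n, m, x, s, M, e⟩

/-- The size of the `d` first and `d` last of `d + q + d` digits. -/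
def drop (W w d q y : Nat) : Nat :=
  cnd (Nat.beq d 0) 0 (Nat.add (l1 W w d (Nat.land y (msk W W d)))
    (l1 W w d (rnd W 0 (Nat.add d q) d y)))

/-- Round to the scale `2 ^ s'` and, for a table with one row, cut to the half width `n'`. -/
def trim (W S n' s' : Nat) (A : Tab) (k : Tab → Bool) : Bool :=
  A.use fun g a n m x s M e => strict (Nat.sub W 2) fun w => dig W S w g a n m M fun p y =>
    strict (Nat.div (Nat.sub n n') 2) fun d => strict (Nat.sub s s') fun t =>
    strict (Nat.sub p (Nat.mul 2 d)) fun q => strict (Nat.sub w t) fun w' =>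
    bnd (bnd (Nat.ble t w) (Nat.beq (Nat.mul d m) 0))
      (ssub (rnd W t d q y) (ofs W q w') fun g a =>
        mkT g a (Nat.sub n (Nat.mul 2 d)) m (Nat.add x d) (Nat.sub s t)
          (Nat.add (Nat.shiftRight M t) q)
          (Nat.add (Nat.shiftRight (Nat.add e (drop W w d q y)) t)
            (cnd (Nat.beq t 0) 0 (Nat.add q 1))) k)

/-- The sum over `b < K` of `2 ^ b` times the digits of `y` whose number has bit `b` equal to zero,
for `2 ^ L` digits. -/
def tsum (W L y K : Nat) : Nat :=
  Nat.rec (motive := fun _ => Nat) 0 (fun b ih => Nat.add ih (Nat.shiftLeft (Nat.land y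
    (msk (Nat.shiftLeft W (Nat.add b 1)) (Nat.shiftLeft W b)
      (Nat.shiftLeft 1 (Nat.sub L (Nat.add b 1))))) b)) K

/-- `-i d / dω` for a table with one row of at most `2 ^ L` digits. -/
def th (W S L : Nat) (A : Tab) (k : Tab → Bool) : Bool :=
  A.use fun g a n m x s M e => strict (Nat.sub W 2) fun w => dig W S w g a n m M fun p y =>
    strict (Nat.sub (Nat.shiftLeft 2 L) (Nat.add n 2)) fun c =>
    bnd (bnd (Nat.beq m 0) (Nat.ble p (Nat.shiftLeft 1 L)))
      (ssub (Nat.add (Nat.mul c y) (Nat.shiftLeft (tsum W L (ofs W p w) L) 1))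
          (Nat.add (Nat.shiftLeft (tsum W L y L) 1) (Nat.mul c (ofs W p w))) fun g a =>
        mkT g a n 0 x s (Nat.mul n M) (Nat.mul (Nat.add n (Nat.mul 2 x)) e) k)

/-- `(1 - x ^ 2) d / dx` for a table with one row of at most `2 ^ L` digits. -/
def dx (W S L : Nat) (A : Tab) (k : Tab → Bool) : Bool :=
  th W S L A fun T => mul (sx W) T fun T => neg T k

/-- The `2 ^ L` digits of width `W` moved to places of width `V`. -/
def rs (W V L : Nat) : Nat → Nat :=
  Nat.rec (motive := fun _ => Nat → Nat) (fun y => y) (fun b ih y => cnd (Nat.beq y 0) 0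
    (Nat.add (ih (Nat.land y (low (Nat.shiftLeft W b))))
      (Nat.shiftLeft (ih (Nat.shiftRight y (Nat.shiftLeft W b))) (Nat.shiftLeft V b)))) L

/-- The same in the opposite order. -/
def rv (W V L : Nat) : Nat → Nat :=
  Nat.rec (motive := fun _ => Nat → Nat) (fun y => y) (fun b ih y => cnd (Nat.beq y 0) 0
    (Nat.add (ih (Nat.shiftRight y (Nat.shiftLeft W b)))
      (Nat.shiftLeft (ih (Nat.land y (low (Nat.shiftLeft W b)))) (Nat.shiftLeft V b)))) L

/-- Change of the width of the digits from `W` to `V`, for a table with one row. -/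
def res (W V S L : Nat) (A : Tab) (k : Tab → Bool) : Bool :=
  A.use fun g a n m x s M e => strict (Nat.sub (Nat.sub W (Nat.sub W V)) 2) fun w =>
    dig W S w g a n m M fun p y =>
    bnd (bnd (Nat.beq m 0) (Nat.ble p (Nat.shiftLeft 1 L)))
      (ssub (rs W V L y) (ofs V p w) fun g a => k ⟨g, a, n, 0, x, s, M, e⟩)

/-- The row of `∑ p j / 2 ^ s * T j (2 x ^ 2 - 1)`, from `c + 1 ≤ 2 ^ L` stored digits
`p j + 2 ^ b` of `b + 1` bits. -/
def cheb (W b L c s z : Nat) (k : Tab → Bool) : Bool :=
  strict (Nat.add b 1) fun b1 => strict (Nat.add c 1) fun c1 => strict (Nat.mul W c) fun h =>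
    bnd (bnd (Nat.ble c1 (Nat.shiftLeft 1 L)) (Nat.ble 1 W))
      ((fun y : Nat => ssub
        (Nat.add (Nat.shiftRight (rv b1 W L y) (Nat.mul W (Nat.sub (Nat.shiftLeft 1 L) c1)))
          (Nat.shiftLeft (rs b1 W L y) h))
        (Nat.add (ofs W c1 b) (Nat.shiftLeft (ofs W c1 b) h)) fun g a =>
        mkT g a (Nat.mul 2 c) 0 0 (Nat.add s 1) (Nat.shiftLeft c1 b1) 0 k)
      (Nat.land z (low (Nat.mul b1 c1))))

/-- Exact division of rows without error. -/
def dv (W S : Nat) (A D : Tab) (k : Tab → Bool) : Bool :=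
  A.use fun g a n m _ s M e => D.use fun g' d n' m' _ s' M' e' =>
    strict (Nat.sub n n') fun q => strict (Nat.add q 1) fun p =>
    strict (Nat.sub (Nat.sub W 3) (Nat.log2 p)) fun u =>
    bnd (bnd (bnd (Nat.beq (Nat.add (Nat.add m m') (Nat.add e e')) 0)
          (bnd (Nat.ble n' n) (Nat.ble s' s)))
        (bnd (bnd (Nat.ble (Nat.add n 1) S) (Nat.ble (Nat.add u 2) W))
          (bnd (Nat.ble (Nat.shiftLeft p u) (Nat.shiftLeft 1 (Nat.sub W 2)))
            (Nat.beq (Nat.mul (Nat.div a d) d) a))))
      (off (bx g g') (Nat.div a d) (ofs W p u) fun y =>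
        bnd (bnd (Nat.ble (Nat.div a d) (ofs W p u))
            (Nat.beq (Nat.land y (msk W (Nat.add u 1) p)) y))
          (strict (l1 W u p y) fun M1 =>
            bnd (Nat.ble (Nat.add (Nat.add M (Nat.mul M1 M')) 1) (Nat.shiftLeft 1 W))
              (mkT (bx g g') (Nat.div a d) q 0 0 (Nat.sub s s') M1 0 k)))

/-- `d / dx` for a row without error. -/
def dX (W S L : Nat) (A : Tab) (k : Tab → Bool) : Bool := th W S L A fun T => dv W S T (sx W) k

/-- A stored row: `n + 1` digits of `b + 1` bits with offset `2 ^ b`, from bit `t` of the places. -/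
def vtab (W b n x s e t z : Nat) : Tab :=
  (fun y K : Nat => ⟨nt (Nat.ble K y), cnd (Nat.ble K y) (Nat.sub y K) (Nat.sub K y), n, 0, x, s,
    Nat.shiftLeft (Nat.add n 1) b, e⟩)
  (Nat.land (Nat.shiftRight z t) (msk W (Nat.add b 1) (Nat.add n 1))) (ofs W (Nat.add n 1) b)

/-- `A` differs from `D` by at most `e'` at the scale of `D`. -/
def near (W S : Nat) (A D : Tab) (x' e' : Nat) : Bool :=
  D.use fun _ _ n m x s _ e => sub W S A D fun T => meas W S T fun T =>
    T.use fun _ _ n1 m1 x1 s1 M1 e1 =>
      bnd (bnd (Nat.ble s s1) (bnd (Nat.beq m1 m) (Nat.ble x x')))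
        (bnd (bnd (Nat.ble (Nat.add n1 (Nat.mul 2 x1)) (Nat.add n (Nat.mul 2 x')))
            (Nat.beq (Nat.mod (Nat.add n n1) 2) 0))
          (Nat.ble (Nat.add (Nat.add e 1) (Nat.shiftRight (Nat.add M1 e1) (Nat.sub s1 s))) e'))

/-- The whole function is in the box `n'`, `m'` and its size is at most `p / q`. -/
def fin (n' m' p q : Nat) (A : Tab) : Bool :=
  A.use fun _ _ n m x s M e =>
    bnd (bnd (Nat.ble (Nat.add n (Nat.mul 2 x)) n') (Nat.ble m m'))
      (bnd (bnd (Nat.beq (Nat.mod (Nat.add n n') 2) 0) (Nat.beq (Nat.mod (Nat.add m m') 2) 0))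
        (bnd (Nat.ble 1 q) (Nat.ble (Nat.mul (Nat.add M e) q) (Nat.shiftLeft p s))))

/-- Digit `i`. -/
def dgt (W y i : Nat) : Nat := Nat.land (Nat.shiftRight y (Nat.mul W i)) (low W)

/-- The coefficient of `cos (j ω)` of a row of half width at most `N`, as a constant. -/
def cosc (W S N : Nat) (A : Tab) (j : Nat) (k : Tab → Bool) : Bool :=
  A.use fun g a n m x s M e =>
    bnd (bnd (bnd (Nat.beq m 0) (Nat.beq x 0)) (bnd (Nat.beq (Nat.mod (Nat.add n j) 2) 0)
        (bnd (Nat.ble n N) (Nat.ble (Nat.add n 1) S))))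
      (cnd (Nat.ble j n)
        (strict (Nat.sub W 2) fun w => dig W S w g a n m M fun _ y =>
          cnd (Nat.beq j 0)
            (ssub (dgt W y (Nat.div n 2)) (Nat.shiftLeft 1 w) fun g a =>
              strict a fun a => k ⟨g, a, 0, 0, 0, s, a, e⟩)
            (ssub (Nat.add (dgt W y (Nat.div (Nat.add n j) 2)) (dgt W y (Nat.div (Nat.sub n j) 2)))
              (Nat.shiftLeft 2 w) fun g a => strict a fun a => k ⟨g, a, 0, 0, 0, s, a, e⟩))
        (k (cst false 0 0)))

/-- The rows as a list. -/
def rlist (R : Rows) : List Nat :=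
  Rows.rec (motive := fun _ => List Nat) []
    (fun r0 r1 r2 r3 r4 r5 r6 r7 r8 r9 r10 r11 r12 r13 r14 r15 _ ih => r0 :: r1 :: r2 :: r3 :: r4 ::
      r5 :: r6 :: r7 :: r8 :: r9 :: r10 :: r11 :: r12 :: r13 :: r14 :: r15 :: ih) R

/-- Map over a list, with the index. -/
def mapK {α β : Type} (f : Nat → α → (β → Bool) → Bool) (l : List α) :
    Nat → (List β → Bool) → Bool :=
  List.rec (motive := fun _ => Nat → (List β → Bool) → Bool) (fun _ k => k [])
    (fun a _ ih i k => strict i fun i => f i a fun b => ih (Nat.add i 1) fun r => k (b :: r)) l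

/-- The list of the first `n` iterates. -/
def iterK {α : Type} (f : Nat → α → (α → Bool) → Bool) (n : Nat) :
    Nat → α → (List α → Bool) → Bool :=
  Nat.rec (motive := fun _ => Nat → α → (List α → Bool) → Bool) (fun _ _ k => k [])
    (fun _ ih i a k => strict i fun i => f i a fun b => ih (Nat.add i 1) b fun r => k (a :: r)) n

/-- Fold over a list, with the index. -/
def foldK {α σ : Type} (f : Nat → α → σ → (σ → Bool) → Bool) (l : List α) :
    Nat → σ → (σ → Bool) → Bool :=
  List.rec (motive := fun _ => Nat → σ → (σ → Bool) → Bool) (fun _ s k => k s)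
    (fun a _ ih i s k => strict i fun i => f i a s fun s => ih (Nat.add i 1) s k) l

/-- A test on all elements of a list, with the index. -/
def allL {α : Type} (f : Nat → α → Bool) (l : List α) : Nat → Bool :=
  List.rec (motive := fun _ => Nat → Bool) (fun _ => true)
    (fun a _ ih i => strict i fun i => bnd (f i a) (ih (Nat.add i 1))) l

/-- Map. -/
def lmap {α β : Type} (f : α → β) (l : List α) : List β :=
  List.rec (motive := fun _ => List β) [] (fun a _ ih => f a :: ih) l

/-- Pairs. -/
def lzip {α β : Type} (l : List α) : List β → List (α × β) :=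
  List.rec (motive := fun _ => List β → List (α × β)) (fun _ => [])
    (fun a _ ih r => List.casesOn (motive := fun _ => List (α × β)) r [] fun b r => (a, b) :: ih r) l

/-- Reversal onto a list. -/
def lrev {α : Type} (l : List α) : List α → List α :=
  List.rec (motive := fun _ => List α → List α) (fun r => r) (fun a _ ih r => ih (a :: r)) l

/-- Length. -/
def llen {α : Type} (l : List α) : Nat :=
  List.rec (motive := fun _ => Nat) 0 (fun _ _ ih => Nat.add ih 1) l

/-- Take a pair apart. -/
def usep {α β γ : Type} (p : α × β) (f : α → β → γ) : γ := Prod.casesOn (motive := fun _ => γ) p f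

/-- The coefficient of `cos (j θ)` in `∑ R l (x) * A l (cos θ)`. The rows `A l` have width `V`. -/
def syn (W V S N : Nat) (L : List (Tab × Tab)) (j : Nat) (k : Tab → Bool) : Bool :=
  foldK (fun _ p T k => usep p fun R A => cosc V S N A j fun c => mul c R fun P => add W S T P k)
    L 0 (cst false 0 0) k

/-- Sum of two lists of rows. -/
def addL (W S : Nat) (l : List Tab) : List Tab → (List Tab → Bool) → Bool :=
  List.rec (motive := fun _ => List Tab → (List Tab → Bool) → Bool) (fun r k => k r)
    (fun A l ih r k => List.casesOn (motive := fun _ => Bool) r (k (A :: l))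
      fun B r => add W S A B fun T => ih r fun u => k (T :: u)) l

/-- The constant `2 j - d`. -/
def idx (d j : Nat) (k : Tab → Bool) : Bool :=
  ssub (Nat.mul 2 j) d fun g a => strict a fun a => k (cst g a 0)

/-- `-i d / dθ` for a list of rows that starts at the frequency `-d`. -/
def thL (d : Nat) (l : List Tab) (k : List Tab → Bool) : Bool :=
  mapK (fun j A k => idx d j fun c => mul c A k) l 0 k

/-- Product with `-i sin θ`; the result starts one frequency earlier. -/
def syL (W S : Nat) (l : List Tab) (k : List Tab → Bool) : Bool :=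
  mapK (fun _ => half 1) l 0 fun u =>
    mapK (fun _ => neg) u 0 fun v => addL W S u (cst false 0 0 :: v) k

/-- `(1 - c ^ 2) d / dc` for a list of rows that starts at the frequency `-d`; the result starts
one frequency earlier. -/
def dyL (W S d : Nat) (l : List Tab) (k : List Tab → Bool) : Bool :=
  thL d l fun u => syL W S u k

/-- Product with `c`; the result starts one frequency earlier. -/
def cyL (W S : Nat) (l : List Tab) (k : List Tab → Bool) : Bool :=
  mapK (fun _ => half 1) l 0 fun u => addL W S u (cst false 0 0 :: u) k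

/-- Join neighbours. -/
def pairs (h : Nat) (l : List (Bool × Nat)) :
    Bool → Bool → Nat → (List (Bool × Nat) → Bool) → Bool :=
  List.rec (motive := fun _ => Bool → Bool → Nat → (List (Bool × Nat) → Bool) → Bool)
    (fun c g a k => cnd c (k [(g, a)]) (k []))
    (fun p _ ih c g a k => usep p fun g' a' => cnd c
      (sadd g a g' (Nat.shiftLeft a' h) fun g a => ih false false 0 fun r => k ((g, a) :: r))
      (ih true g' a' k)) l

/-- The sum of `l j * 2 ^ (h * j)` for a list of at most `2 ^ L` numbers with sign. -/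
def join (L : Nat) : Nat → List (Bool × Nat) → (Bool → Nat → Bool) → Bool :=
  Nat.rec (motive := fun _ => Nat → List (Bool × Nat) → (Bool → Nat → Bool) → Bool)
    (fun _ l k => List.casesOn (motive := fun _ => Bool) l false
      fun p r => bnd (Nat.beq (llen r) 0) (usep p k))
    (fun _ ih h l k => strict h fun h => pairs h l false false 0 fun r => ih (Nat.mul 2 h) r k) L

/-- `lift` for a row, which may be zero. -/
def liftR (W S n s : Nat) (A : Tab) (k : Tab → Bool) : Bool :=
  A.use fun _ _ _ _ _ _ M e => cnd (Nat.beq (Nat.add M e) 0) (k ⟨false, 0, n, 0, 0, s, 0, 0⟩)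
    (lift W S n 0 s A k)

/-- The table, with rows `S'` places apart, of a list of at most `2 ^ L` rows that starts at
the frequency `-d`, of cosines or (`sg`) of `i` times sines; the rows are brought to the half width `n` and the scale `2 ^ s`. -/
def flat (sg : Bool) (W S S' L n s d : Nat) (l : List Tab) (k : Tab → Bool) : Bool :=
  mapK (fun _ => liftR W S n s) l 0 fun u => strict (llen u) fun J =>
    strict (Nat.mul W S') fun h => bnd (Nat.ble (Nat.add d 1) J)
    ((fun v : List (Bool × Nat) => join L h v fun g a => join L h (lrev v []) fun g' a' =>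
      shl a (Nat.mul h (Nat.sub J (Nat.add d 1))) fun a => sadd g a (bx sg g') a' fun g a =>
        foldK (fun _ (A : Tab) (p : Nat × Nat × Nat) k => A.use fun _ _ _ _ x _ M e =>
            usep p fun x' q => usep q fun M' e' => strict (mx x x') fun x =>
            strict (Nat.add M M') fun M => strict (Nat.add e e') fun e => k (x, M, e))
          u 0 (0, 0, 0) fun p => usep p fun x q => usep q fun M e =>
          mkT g a n (Nat.sub (Nat.mul 2 (Nat.sub J 1)) d) x (Nat.add s 1) (Nat.mul 2 M)
            (Nat.mul 2 e) k)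
      (lmap (fun A : Tab => A.use fun g a _ _ _ _ _ _ => (g, a)) u))

end

end Pool.Agent.Lib.KTab
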