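import Pool.Agent.Lib.KTab.Defs

/-!
Faster versions of the change of width, of the loading of data and of the synthesis.
-/

namespace Pool.Agent.Lib.KTab

open Pool.Agent.Lib.KLA

noncomputable section

/-- In each of `2 ^ q` blocks of `D * 2 ^ (b + 1)` bits the low `H * 2 ^ b` bits. -/
def lows (D H b q y : Nat) : Nat :=
  Nat.land y (msk (Nat.shiftLeft D (Nat.add b 1)) (Nat.shiftLeft H b) (Nat.shiftLeft 1 q))

/-- The `2 ^ L` digits moved from places of width `W` to places of width `V ≤ W` (`K = L`). -/
def cp (W V L y K : Nat) : Nat :=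
  Nat.rec (motive := fun _ => Nat) y (fun b ih => (fun lo : Nat =>
    Nat.add lo (Nat.shiftRight (Nat.sub ih lo) (Nat.shiftLeft (Nat.sub W V) b)))
      (lows W W b (Nat.sub L (Nat.add b 1)) ih)) K

/-- The `2 ^ L` digits moved from places of width `W` to places of width `V ≥ W` (`K = L`). -/
def xp (W V L K : Nat) : Nat → Nat :=
  Nat.rec (motive := fun _ => Nat → Nat) (fun y => Nat.add y 0) (fun b ih y => (fun lo : Nat =>
    ih (Nat.add lo (Nat.shiftLeft (Nat.sub y lo) (Nat.shiftLeft (Nat.sub V W) b))))
      (lows V W b (Nat.sub L (Nat.add b 1)) y)) K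

/-- The `2 ^ L` digits of width `W` in the opposite order (`K = L`). -/
def rw2 (W L y K : Nat) : Nat :=
  Nat.rec (motive := fun _ => Nat) y (fun b ih => (fun lo : Nat =>
    Nat.add (Nat.shiftRight (Nat.sub ih lo) (Nat.shiftLeft W b))
      (Nat.shiftLeft lo (Nat.shiftLeft W b)))
      (lows W W b (Nat.sub L (Nat.add b 1)) ih)) K

/-- Change of the width of the digits from `W` to `V`, for a table with one row. -/
def res2 (W V S L : Nat) (A : Tab) (k : Tab → Bool) : Bool :=
  A.use fun g a n m x s M e => strict (Nat.sub (Nat.sub W (Nat.sub W V)) 2) fun w =>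
    dig W S w g a n m M fun p y =>
    bnd (bnd (Nat.beq m 0) (bnd (Nat.ble p (Nat.shiftLeft 1 L)) (Nat.ble 1 V)))
      (cnd (Nat.ble V W) (ssub (cp W V L y L) (ofs V p w) fun g a => k ⟨g, a, n, 0, x, s, M, e⟩)
        (ssub (xp W V L L y) (ofs V p w) fun g a => k ⟨g, a, n, 0, x, s, M, e⟩))

/-- A faster `cheb`, for `b + 1 ≤ W`. -/
def cheb2 (W b L c s z : Nat) (k : Tab → Bool) : Bool :=
  strict (Nat.add b 1) fun b1 => strict (Nat.add c 1) fun c1 => strict (Nat.mul W c) fun h =>
    bnd (bnd (Nat.ble c1 (Nat.shiftLeft 1 L)) (Nat.ble b1 W))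
      ((fun y : Nat => ssub
        (Nat.add (xp b1 W L L (Nat.shiftRight (rw2 b1 L y L)
            (Nat.mul b1 (Nat.sub (Nat.shiftLeft 1 L) c1))))
          (Nat.shiftLeft (xp b1 W L L y) h))
        (Nat.add (ofs W c1 b) (Nat.shiftLeft (ofs W c1 b) h)) fun g a =>
        mkT g a (Nat.mul 2 c) 0 0 (Nat.add s 1) (Nat.shiftLeft c1 b1) 0 k)
      (Nat.land z (low (Nat.mul b1 c1))))

/-- The row `T` is near the stored row `(b, c, z)`: the error is in the box of half width
`2 max c N` and at most `e / 2 ^ (s + 1)`. -/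
def chkR (W S L s N e : Nat) (p : Nat × Nat × Nat) (T : Tab) : Bool :=
  usep p fun b q => usep q fun c z => cheb2 W b L c s z fun D => sub W S T D fun U =>
    meas W S U (fin (Nat.add (Nat.mul 2 c) (Nat.mul 2 (Nat.sub N c))) 0 e
      (Nat.shiftLeft 1 (Nat.add s 1)))

/-- The stored row `(b, c, z)` with the error of `chkR`. -/
def ldR (W L s N e : Nat) (p : Nat × Nat × Nat) (k : Tab → Bool) : Bool :=
  usep p fun b q => usep q fun c z => cheb2 W b L c s z fun D => D.use fun g a n m _ s M _ =>
    strict (Nat.sub N c) fun x => k ⟨g, a, n, m, x, s, M, e⟩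

/-- All but the first. -/
def ltl {α : Type} (l : List α) : List α := List.casesOn (motive := fun _ => List α) l [] fun _ t => t

/-- All but the first `j`. -/
def ldrop {α : Type} (l : List α) (j : Nat) : List α :=
  Nat.rec (motive := fun _ => List α) l (fun _ ih => ltl ih) j

/-- The first `j`. -/
def ltake {α : Type} (j : Nat) : List α → List α :=
  Nat.rec (motive := fun _ => List α → List α) (fun _ => []) (fun _ ih l =>
    List.casesOn (motive := fun _ => List α) l [] fun a t => a :: ih t) j

/-- All rows have the half width `n` and the scale `2 ^ s`; the largest excess and the sums of the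
bounds are passed on. -/
def sums (n s : Nat) (l : List Tab) : Nat → Nat → Nat → (Nat → Nat → Nat → Bool) → Bool :=
  List.rec (motive := fun _ => Nat → Nat → Nat → (Nat → Nat → Nat → Bool) → Bool)
    (fun x M e k => k x M e)
    (fun A _ ih x' M' e' k => A.use fun _ _ n' m x s' M e =>
      strict (mx x x') fun x => strict (Nat.add M M') fun M => strict (Nat.add e e') fun e =>
      bnd (bnd (Nat.beq n' n) (bnd (Nat.beq m 0) (Nat.beq s' s))) (ih x M e k)) l

/-- Rounding, cutting and measuring of all rows. -/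
def tmL (W S n s : Nat) (l : List Tab) (k : List Tab → Bool) : Bool :=
  mapK (fun _ T k => trim W S n s T fun T => meas W S T k) l 0 k

/-- `G₀ + G₁ (1 - x ^ 2) d / dx` on all rows. -/
def opL (W S L : Nat) (G0 G1 : Tab) (l : List Tab) (k : List Tab → Bool) : Bool :=
  mapK (fun _ => dx W S L) l 0 fun u => mapK (fun _ => mul G1) u 0 fun u =>
    mapK (fun _ => mul G0) l 0 fun v => addL W S v u k

end

end Pool.Agent.Lib.KTab
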