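import Pool.Agent.Lib.KTab.Ring

/-!
The operations on the digits of a packed table.
-/

namespace Pool.Agent.Lib.KTab

open Finset Complex Pool.Agent.Lib.KLA

/-- The polynomial with coefficient `c k` at `z ^ (k % S) * w ^ (k / S)`, `k < p`. -/
noncomputable def dg (S p : ℕ) (c : ℕ → ℝ) (z w : ℂ) : ℂ :=
  ∑ k ∈ range p, c k * z ^ (k % S) * w ^ (k / S)

variable {R : Subring ℝ} {n m S : ℕ} {G : ℂ → ℂ → ℂ}

theorem Fam.collect {M : ℝ} (h : Fam R n m M G) (hS : n < S) : ∃ c : ℕ → ℝ, (∀ k, c k ∈ R) ∧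
    ∑ k ∈ range (n + 1 + S * m), |c k| ≤ M ∧ (∀ k, n < k % S → c k = 0) ∧
      ∀ z w, G z w = dg S (n + 1 + S * m) c z w := by
  classical
  obtain ⟨ι, s, c, a, b, h1, h2, h3⟩ := h
  have hm : ∀ k ∈ s, a k + S * b k ∈ range (n + 1 + S * m) := fun k hk => by
    have := Nat.mul_le_mul_left S (h1 k hk).2.2
    have := (h1 k hk).2.1
    rw [mem_range]
    omega
  have e1 : ∀ k ∈ s, (a k + S * b k) % S = a k := fun k hk => by
    rw [Nat.add_mul_mod_self_left, Nat.mod_eq_of_lt ((h1 k hk).2.1.trans_lt hS)]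
  have e2 : ∀ k ∈ s, (a k + S * b k) / S = b k := fun k hk => by
    rw [Nat.add_mul_div_left _ _ (by omega), Nat.div_eq_of_lt ((h1 k hk).2.1.trans_lt hS), zero_add]
  refine ⟨fun j => ∑ k ∈ s with a k + S * b k = j, c k,
    fun j => sum_mem fun k hk => (h1 k (mem_filter.1 hk).1).1, ?_, fun j hj => ?_, fun z w => ?_⟩
  · refine le_trans (sum_le_sum fun j _ => abs_sum_le_sum_abs _ _) ?_
    rwa [sum_fiberwise_of_maps_to hm fun k => |c k|]
  · refine sum_eq_zero fun k hk => ?_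
    obtain ⟨k1, k2⟩ := mem_filter.1 hk
    have := (h1 k k1).2.1
    rw [← k2, e1 k k1] at hj
    omega
  · rw [h3, dg, ← sum_fiberwise_of_maps_to hm]
    refine sum_congr rfl fun j _ => ?_
    push_cast
    rw [sum_mul, sum_mul]
    refine sum_congr rfl fun k hk => ?_
    obtain ⟨k1, k2⟩ := mem_filter.1 hk
    rw [← k2, e1 k k1, e2 k k1]

theorem Fam.digits {M : ℕ} (h : Fam ⊥ n m M G) (hS : n < S) : ∃ v : ℕ → ℤ,
    ∑ k ∈ range (n + 1 + S * m), |v k| ≤ M ∧ (∀ k, n < k % S → v k = 0) ∧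
      ∀ z w, G z w = dg S (n + 1 + S * m) (fun k => v k) z w := by
  obtain ⟨c, h1, h2, h3, h4⟩ := h.collect hS
  choose v hv using fun k => Subring.mem_bot.1 (h1 k)
  obtain rfl : c = fun k => (v k : ℝ) := funext fun k => (hv k).symm
  beta_reduce at h2 h3
  exact ⟨v, by exact_mod_cast h2, fun k hk => by exact_mod_cast h3 k hk, h4⟩

theorem Fam.of_digits {M : ℝ} {c : ℕ → ℝ} (hS : n < S) (h1 : ∀ k, c k ∈ R)
    (h2 : ∑ k ∈ range (n + 1 + S * m), |c k| ≤ M)
    (h3 : ∀ k < n + 1 + S * m, n < k % S → c k = 0) :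
    Fam R n m M (dg S (n + 1 + S * m) c) := by
  refine ⟨ℕ, (range (n + 1 + S * m)).filter fun k => k % S ≤ n, c, fun k => k % S, fun k => k / S,
    fun k hk => ⟨h1 k, (mem_filter.1 hk).2, ?_⟩, le_trans (sum_le_sum_of_subset_of_nonneg
      (filter_subset _ _) fun _ _ _ => abs_nonneg _) h2, fun z w => ?_⟩
  · have := mem_range.1 (mem_filter.1 hk).1
    exact Nat.lt_succ_iff.1 (Nat.div_lt_of_lt_mul (by rw [Nat.mul_succ]; omega))
  · rw [dg, sum_filter]
    refine sum_congr rfl fun k hk => ?_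
    split_ifs with h
    · rfl
    · simp [h3 k (mem_range.1 hk) (not_le.1 h)]

theorem dg_pk (W S p : ℕ) (v : ℕ → ℤ) :
    dg S p (fun k => v k) (2 ^ W) (2 ^ (W * S)) = (pk W p v : ℤ) := by
  rw [dg, pk]
  push_cast
  refine sum_congr rfl fun k _ => ?_
  rw [mul_assoc, ← pow_mul, ← pow_mul, ← pow_add, mul_assoc, ← mul_add, Nat.mod_add_div]

theorem ofs_eq {W : ℕ} (hW : 0 < W) (p e : ℕ) : (ofs W p e : ℤ) = pk W p fun _ => 2 ^ e := by
  rw [ofs, shl_eq, pk_const hW]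
  push_cast
  ring

theorem unoff {W p e y c : ℕ} {g : Bool} {v : ℕ → ℤ} (hW : 0 < W) (h : Vec W p (2 ^ e) y v)
    (hc : sv g c = (y : ℤ) - ofs W p e) : sv g c = pk W p v := by
  rw [hc, h.1, ofs_eq hW, pk_sub]
  exact pk_congr fun j _ => by push_cast; ring

theorem l1_ok {W w p y : ℕ} {v : ℕ → ℤ} (h : Vec W p (2 ^ w) y v) (hv : ∀ j < p, v j < 2 ^ w)
    (hw : w + 2 ≤ W) (hs : ∑ j ∈ range p, |v j| ≤ 2 ^ (W - 2)) :
    ∑ j ∈ range p, |v j| ≤ l1 W w p y := by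
  obtain ⟨u, h1, h2⟩ := vabs_sound h hv (by omega)
  have h3 := sum_le_sum fun j (hj : j ∈ range p) => (h2 j (mem_range.1 hj)).2.2.1
  have h4 : (2 : ℤ) ^ W = 2 ^ (W - 2) * 4 := by
    rw [show (4 : ℤ) = 2 ^ 2 by norm_num, ← pow_add, Nat.sub_add_cancel (by omega)]
  have h5 : (1 : ℤ) ≤ 2 ^ (W - 2) := one_le_pow₀ (by norm_num)
  rw [l1, Nat.add_eq, Nat.cast_add, dsum_eq h1 (fun j hj => (h2 j hj).1) (by linarith)]
  have := sum_le_sum fun j (hj : j ∈ range p) => (h2 j (mem_range.1 hj)).2.2.2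
  simpa [sum_add_distrib] using this

theorem dig_core {W w a M : ℕ} {g : Bool} {k : ℕ → ℕ → Bool} {v : ℕ → ℤ}
    (h : dig W S w g a n m M k = true) (h1 : ∑ j ∈ range (n + 1 + S * m), |v j| ≤ M)
    (h2 : sv g a = pk W (n + 1 + S * m) v) : ∃ y, k (n + 1 + S * m) y = true ∧ w + 2 ≤ W ∧
      M + (n + 1 + S * m) ≤ 2 ^ w ∧ Vec W (n + 1 + S * m) (2 ^ w) y v ∧
        ∀ j < n + 1 + S * m, v j < 2 ^ w := by
  simp only [dig, strict_eq, bnd_iff, Nat.add_eq, Nat.mul_eq, Nat.ble_eq, shl_eq, one_mul] at h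
  obtain ⟨⟨-, hw, hM⟩, h⟩ := h
  have hp : 0 < n + 1 + S * m := by omega
  generalize n + 1 + S * m = p at *
  have hM' : (M : ℤ) + p ≤ 2 ^ w := by exact_mod_cast hM
  have hv : ∀ j < p, |v j| < 2 ^ w := fun j hj => by
    have := single_le_sum (f := fun j => |v j|) (fun _ _ => abs_nonneg _) (mem_range.2 hj)
    have hp' : (0 : ℤ) < p := by exact_mod_cast hp
    linarith
  have e : sv g a + ofs W p w = pk W p fun j => v j + (2 ^ w : ℕ) := by
    rw [h2, ofs_eq (by omega), pk_add]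
    exact pk_congr fun j _ => by push_cast; rfl
  have hb : ∀ j < p, |v j| ≤ (2 ^ w : ℕ) := fun j hj => by exact_mod_cast (hv j hj).le
  cases g
  · exact ⟨_, h, hw, hM, ⟨by simpa [sv] using e, hb⟩, fun j hj => (abs_lt.1 (hv j hj)).2⟩
  · refine ⟨_, h, hw, hM, ⟨?_, hb⟩, fun j hj => (abs_lt.1 (hv j hj)).2⟩
    have h0 : 0 ≤ pk W p fun j => v j + (2 ^ w : ℕ) :=
      pk_nonneg fun j hj => by linarith [(abs_le.1 (hb j hj)).1]
    rw [← e] at h0 ⊢
    simp only [sv, if_true] at h0 ⊢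
    rw [Nat.sub_eq, Nat.cast_sub (by exact_mod_cast (by linarith : (a : ℤ) ≤ ofs W p w))]
    ring

theorem dig_lt {W w a M : ℕ} {g : Bool} {k : ℕ → ℕ → Bool} (h : dig W S w g a n m M k = true) :
    n < S := by
  simp only [dig, strict_eq, bnd_iff, Nat.add_eq, Nat.ble_eq] at h
  exact h.1.1

/-- The digits of a table are the coefficients of its polynomial. -/
theorem dig_ok {W w a M : ℕ} {g : Bool} {k : ℕ → ℕ → Bool} (h : dig W S w g a n m M k = true)
    (h1 : Fam ⊥ n m M G) (h2 : (sv g a : ℂ) = G (2 ^ W) (2 ^ (W * S))) : ∃ y v,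
      k (n + 1 + S * m) y = true ∧ n < S ∧ w + 2 ≤ W ∧ M + (n + 1 + S * m) ≤ 2 ^ w ∧
      Vec W (n + 1 + S * m) (2 ^ w) y v ∧ (∀ j < n + 1 + S * m, v j < 2 ^ w) ∧
      ∑ j ∈ range (n + 1 + S * m), |v j| ≤ M ∧ (∀ j, n < j % S → v j = 0) ∧
      ∀ z w, G z w = dg S (n + 1 + S * m) (fun j => v j) z w := by
  obtain ⟨v, v1, v2, v3⟩ := h1.digits (dig_lt h)
  rw [v3, dg_pk] at h2
  obtain ⟨y, y1, y2, y3, y4, y5⟩ := dig_core h v1 (by exact_mod_cast h2)
  exact ⟨y, v, y1, dig_lt h, y2, y3, y4, y5, v1, v2, v3⟩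

variable {b : Bool} {W : ℕ} {A : Tab} {Φ Ψ : ℝ → ℝ → ℂ}

theorem le_pow_of {M p w : ℕ} {t : ℤ} (h : M + p ≤ 2 ^ w) (ht : t ≤ M) : t ≤ 2 ^ w := by
  have : (M : ℤ) + p ≤ 2 ^ w := by exact_mod_cast h
  linarith [Int.natCast_nonneg p]

theorem meas_ok (hA : Rep b W S A Φ) : Ok (meas W S A) fun T => Rep b W S T Φ := fun k h => by
  obtain ⟨g, a, n, m, x, s, M, e⟩ := A
  obtain ⟨G, h1, h2, h3⟩ := hA
  simp only [meas, use_mk, strict_eq, Nat.sub_eq] at h
  obtain ⟨y, v, hk, hS, hw, hM, hy, hv, v1, v2, v3⟩ := dig_ok h h1 h2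
  refine ⟨_, ?_, hk⟩
  refine ⟨G, Fam.congr (Fam.of_digits hS (fun k => int_mem _) ?_ fun k _ hk => ?_) v3, h2, h3⟩
  · dsimp only at *
    exact_mod_cast l1_ok hy hv hw (le_pow_of hM v1)
  · exact_mod_cast v2 k hk

theorem sum3 {α : Type} [AddCommMonoid α] (f : ℕ → α) (d q : ℕ) : ∑ k ∈ range (d + q + d), f k =
    ∑ k ∈ range d, f k + ∑ k ∈ range q, f (d + k) + ∑ k ∈ range d, f (d + q + k) := by
  rw [sum_range_add, sum_range_add]

theorem drop_ok {w d q y : ℕ} {v : ℕ → ℤ} (h : Vec W (d + q + d) (2 ^ w) y v)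
    (hv : ∀ j < d + q + d, v j < 2 ^ w) (hw : w + 2 ≤ W)
    (hs : ∑ j ∈ range (d + q + d), |v j| ≤ 2 ^ (W - 2)) :
    ∑ k ∈ range d, |v k| + ∑ k ∈ range d, |v (d + q + k)| ≤ drop W w d q y := by
  rw [drop, cnd_eq]
  split_ifs with h0
  · simp [Nat.eq_of_beq_eq_true h0]
  have hK : 2 * 2 ^ w < 2 ^ W := by
    rw [← pow_succ']
    exact Nat.pow_lt_pow_right (by norm_num) (by omega)
  rw [sum3] at hs
  have n1 : 0 ≤ ∑ k ∈ range d, |v k| := sum_nonneg fun _ _ => abs_nonneg _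
  have n2 : 0 ≤ ∑ k ∈ range q, |v (d + k)| := sum_nonneg fun _ _ => abs_nonneg _
  have n3 : 0 ≤ ∑ k ∈ range d, |v (d + q + k)| := sum_nonneg fun _ _ => abs_nonneg _
  have c1 := h.cut (d := 0) (q := d) (by omega) hK (by omega)
  simp only [zero_add] at c1
  have c2 := h.cut (d := d + q) (q := d) (by omega) hK le_rfl
  rw [Nat.add_eq, Nat.cast_add]
  exact add_le_add (l1_ok c1 (fun j hj => hv j (by omega)) hw (by linarith))
    (l1_ok c2 (fun j hj => hv _ (by omega)) hw (by linarith))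

theorem shr_real (a t : ℕ) : (a : ℝ) / 2 ^ t ≤ Nat.shiftRight a t + if t = 0 then 0 else 1 := by
  rw [shr_eq]
  split_ifs with h
  · simp [h]
  · have : (a : ℝ) ≤ ((a / 2 ^ t + 1) * 2 ^ t : ℕ) := by
      exact_mod_cast (Nat.lt_mul_div_succ _ (by positivity)).le.trans_eq (mul_comm _ _)
    rw [div_le_iff₀ (by positivity)]
    rwa [Nat.cast_mul, Nat.cast_add, Nat.cast_pow, Nat.cast_one, Nat.cast_ofNat] at this

theorem sum_ediv_le (u : ℕ → ℤ) (q t M : ℕ) (h : ∑ j ∈ range q, |u j| ≤ M) :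
    ∑ j ∈ range q, |u j / 2 ^ t| ≤ ((Nat.shiftRight M t + q : ℕ) : ℤ) := by
  have hp : (0 : ℤ) < 2 ^ t := by positivity
  have t1 := sum_le_sum (s := range q) (f := fun j => |u j / 2 ^ t| * 2 ^ t)
    (g := fun j => |u j| + 2 ^ t) fun j _ => by
      have a1 := Int.mul_ediv_add_emod (u j) (2 ^ t)
      have a2 := Int.emod_nonneg (u j) hp.ne'
      have a3 := Int.emod_lt_of_pos (u j) hp
      have a4 : |u j / 2 ^ t| * 2 ^ t = |2 ^ t * (u j / 2 ^ t)| := by
        rw [abs_mul, abs_of_pos hp, mul_comm]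
      have a5 := le_abs_self (u j)
      have a6 := neg_abs_le (u j)
      rw [a4, abs_le]
      constructor <;> linarith
  simp only [sum_add_distrib, sum_const, card_range, nsmul_eq_mul] at t1
  rw [← sum_mul] at t1
  have t2 : ∑ j ∈ range q, |u j / 2 ^ t| - q ≤ (M : ℤ) / 2 ^ t :=
    Int.le_ediv_of_mul_le hp (by linarith)
  rw [shr_eq]
  push_cast
  linarith

theorem ediv_err' (z : ℤ) (t : ℕ) :
    |(z : ℝ) / 2 ^ t - ((z / 2 ^ t : ℤ) : ℝ)| ≤ if t = 0 then 0 else 1 := by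
  split_ifs with h
  · simp [h]
  · exact (abs_sub_comm _ _).trans_le (ediv_err z t)

/-- What is lost in cutting and rounding. -/
noncomputable def lost (v : ℕ → ℤ) (d q t j : ℕ) : ℝ :=
  v j / 2 ^ t - if d ≤ j ∧ j < d + q then ((v j / 2 ^ t : ℤ) : ℝ) else 0

theorem lost_sum (v : ℕ → ℤ) (d q t : ℕ) {dr : ℕ}
    (h : ∑ k ∈ range d, |v k| + ∑ k ∈ range d, |v (d + q + k)| ≤ dr) :
    ∑ j ∈ range (d + q + d), |lost v d q t j| ≤ dr / 2 ^ t + q * if t = 0 then 0 else 1 := by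
  have hp2 : (0 : ℝ) < 2 ^ t := by positivity
  have e1 : ∑ j ∈ range d, |lost v d q t j| = (∑ k ∈ range d, |(v k : ℝ)|) / 2 ^ t := by
    rw [sum_div]
    refine sum_congr rfl fun j hj => ?_
    have := mem_range.1 hj
    rw [lost, if_neg (by omega), sub_zero, abs_div, abs_of_pos hp2]
  have e2 : ∑ j ∈ range d, |lost v d q t (d + q + j)| =
      (∑ k ∈ range d, |(v (d + q + k) : ℝ)|) / 2 ^ t := by
    rw [sum_div]
    refine sum_congr rfl fun j hj => ?_
    rw [lost, if_neg (by omega), sub_zero, abs_div, abs_of_pos hp2]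
  have e3 := sum_le_card_nsmul (range q) (fun j => |lost v d q t (d + j)|)
    (if t = 0 then 0 else 1) fun j hj => by
      have := mem_range.1 hj
      rw [lost, if_pos (by omega)]
      exact ediv_err' _ _
  have t2 : ∑ k ∈ range d, |(v k : ℝ)| + ∑ k ∈ range d, |(v (d + q + k) : ℝ)| ≤ dr := by
    exact_mod_cast h
  have t3 := div_le_div_of_nonneg_right t2 hp2.le
  rw [card_range, nsmul_eq_mul] at e3
  rw [add_div] at t3
  rw [sum3, e1, e2]
  linarith

theorem lost_dg (v : ℕ → ℤ) {d q : ℕ} (t : ℕ)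
    (i1 : ∀ j < q, (d + j) % S = d + j % S ∧ (d + j) / S = j / S) (z w : ℂ) :
    dg S (d + q + d) (lost v d q t) z w = dg S (d + q + d) (fun j => v j) z w / 2 ^ t -
      z ^ d * dg S q (fun j => (v (d + j) / 2 ^ t : ℤ)) z w := by
  simp only [dg, lost, ofReal_sub, sub_mul, sum_sub_distrib, sum_div, mul_sum]
  congr 1
  · exact sum_congr rfl fun j _ => by push_cast; ring
  · rw [sum3, sum_eq_zero (s := range d), sum_eq_zero (s := range d), zero_add, add_zero]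
    · refine sum_congr rfl fun j hj => ?_
      have hj := mem_range.1 hj
      rw [if_pos (by omega), (i1 j hj).1, (i1 j hj).2, pow_add]
      ring
    · intro j _
      rw [if_neg (by omega)]
      simp
    · intro j hj
      have hj := mem_range.1 hj
      rw [if_neg (by omega)]
      simp

theorem trim_core {n0 d q x s0 t M e dr c : ℕ} {g : Bool} {v : ℕ → ℤ} (hS : n0 + 2 * d < S)
    (hd : d * m = 0) (hq : q = n0 + 1 + S * m) (v1 : ∑ j ∈ range (d + q + d), |v j| ≤ M)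
    (v2 : ∀ j, n0 + 2 * d < j % S → v j = 0)
    (h3 : Er b (n0 + 2 * d + 2 * x) m e fun ω θ => 2 ^ (s0 + t) * Φ ω θ -
      tr (n0 + 2 * d) m (dg S (d + q + d) fun j => v j) ω θ)
    (hdrop : ∑ k ∈ range d, |v k| + ∑ k ∈ range d, |v (d + q + k)| ≤ dr)
    (hc : sv g c = pk W q fun j => v (d + j) / 2 ^ t) :
    Rep b W S ⟨g, c, n0, m, x + d, s0, Nat.shiftRight M t + q,
      Nat.shiftRight (e + dr) t + if t = 0 then 0 else q + 1⟩ Φ := by
  have i1 : ∀ j < q, (d + j) % S = d + j % S ∧ (d + j) / S = j / S := fun j hj => by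
    rcases Nat.mul_eq_zero.1 hd with rfl | rfl
    · simp
    · rw [Nat.mod_eq_of_lt (by omega), Nat.mod_eq_of_lt (by omega), Nat.div_eq_of_lt (by omega),
        Nat.div_eq_of_lt (by omega)]
      exact ⟨rfl, rfl⟩
  have hp : n0 + 2 * d + 1 + S * m = d + q + d := by omega
  refine ⟨dg S q fun j => (v (d + j) / 2 ^ t : ℤ), ?_, ?_, ?_⟩ <;> dsimp only
  · rw [hq]
    refine Fam.of_digits (by omega) (fun k => int_mem _) ?_ fun j hj hj' => ?_
    · rw [← hq]
      rw [sum3] at v1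
      have n1 : 0 ≤ ∑ k ∈ range d, |v k| := sum_nonneg fun _ _ => abs_nonneg _
      have n3 : 0 ≤ ∑ k ∈ range d, |v (d + q + k)| := sum_nonneg fun _ _ => abs_nonneg _
      exact_mod_cast sum_ediv_le (fun j => v (d + j)) q t M (by linarith)
    · rcases Nat.mul_eq_zero.1 hd with rfl | rfl
      · rw [v2 (0 + j) (by rw [zero_add]; omega)]
        simp
      · rw [Nat.mod_eq_of_lt (by omega)] at hj'
        omega
  · rw [hc, dg_pk]
  · have f1 : Fam ⊤ (n0 + 2 * d) m (dr / 2 ^ t + q * if t = 0 then 0 else 1)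
        (dg S (d + q + d) (lost v d q t)) := by
      have := lost_sum v d q t hdrop
      rw [← hp] at this ⊢
      exact Fam.of_digits hS (fun k => trivial) this fun j hj hj' => by simp [lost, v2 j hj']
    have t1 := (h3.smul (1 / 2 ^ t)).box (n' := n0 + 2 * (x + d)) (by omega) (by omega) le_rfl
      (by omega)
    have t2 := (f1.sm.er b).box (n' := n0 + 2 * (x + d)) (by omega) (by omega) le_rfl (by omega)
    refine ((t1.add t2).congr fun ω θ => ?_).le ?_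
    · have e3 := tr_shift n0 m d 0 (dg S q fun j => (v (d + j) / 2 ^ t : ℤ)) ω θ
      rw [← e3]
      simp only [tr, lost_dg v t i1, mul_zero, add_zero, pow_zero, mul_one]
      rw [pow_add]
      push_cast
      field_simp
      ring
    · have t3 := shr_real (e + dr) t
      rw [abs_of_pos (by positivity), one_div, inv_mul_eq_div]
      rw [Nat.cast_add, add_div] at t3
      rw [Nat.cast_add]
      split_ifs at t3 ⊢ <;> push_cast <;> linarith

theorem trim_ok (n' s' : ℕ) (hA : Rep b W S A Φ) :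
    Ok (trim W S n' s' A) fun T => Rep b W S T Φ := fun k h => by
  obtain ⟨g, a, n, m, x, s, M, e⟩ := A
  obtain ⟨G, h1, h2, h3⟩ := hA
  simp only [trim, use_mk, strict_eq, Nat.sub_eq] at h
  obtain ⟨y, v, hk, hS, hw, hM, hy, hv, v1, v2, v3⟩ := dig_ok h h1 h2
  clear h
  simp only [bnd_iff, Nat.ble_eq, Nat.beq_eq, Nat.mul_eq, Nat.add_eq, div_eq', mkT_eq, cnd_eq] at hk
  dsimp only at *
  obtain ⟨⟨ht, hd⟩, hk⟩ := hk
  obtain rfl : G = _ := funext fun z => funext fun w => v3 z w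
  have hn : 2 * ((n - n') / 2) ≤ n := by omega
  have hs : s - s' ≤ s := by omega
  generalize (n - n') / 2 = d at *
  generalize s - s' = t at *
  obtain ⟨n0, rfl⟩ : ∃ n0, n = n0 + 2 * d := ⟨n - 2 * d, by omega⟩
  obtain ⟨s0, rfl⟩ : ∃ s0, s = s0 + t := ⟨s - t, by omega⟩
  obtain ⟨q, hq⟩ : ∃ q, q = n0 + 1 + S * m := ⟨_, rfl⟩
  have hp : n0 + 2 * d + 1 + S * m = d + q + d := by omega
  rw [hp] at hk hM hy hv v1 h3
  rw [show d + q + d - 2 * d = q by omega, Nat.add_sub_cancel, Nat.add_sub_cancel] at hk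
  obtain ⟨w', hw'⟩ : ∃ w', W - 2 = t + w' := ⟨W - 2 - t, by omega⟩
  have hdrop := drop_ok hy hv hw (le_pow_of hM v1)
  generalize drop W (W - 2) d q y = dr at *
  rw [hw'] at hy hk
  rw [Nat.add_sub_cancel_left] at hk
  rw [pow_add] at hy
  have hr := hy.rnd (d := d) (q := q) (by omega) (by
    rw [← pow_add, ← pow_succ']
    exact Nat.pow_lt_pow_right (by norm_num) (by omega)) (by omega)
  obtain ⟨g', c, hc, hk⟩ := ssub_ok hk
  exact ⟨_, trim_core hS hd hq v1 v2 h3 hdrop (unoff (by omega) hr hc), hk⟩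

theorem near_ok {g : Bool} {a n m x s M e x' e' : ℕ}
    (h : near W S A ⟨g, a, n, m, x, s, M, e⟩ x' e' = true) (hA : Rep b W S A Φ)
    (hD : Rep b W S ⟨g, a, n, m, x, s, M, e⟩ Ψ) : Rep b W S ⟨g, a, n, m, x', s, M, e'⟩ Φ := by
  rw [near, use_mk] at h
  obtain ⟨T, hT, h⟩ := sub_ok hA hD _ h
  obtain ⟨⟨g1, a1, n1, m1, x1, s1, M1, e1⟩, hT, h⟩ := meas_ok hT _ h
  obtain ⟨G, h1, h2, h3⟩ := hD
  simp only [use_mk, bnd_iff, Nat.ble_eq, Nat.beq_eq, Nat.add_eq, Nat.mul_eq, Nat.sub_eq,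
    mod_eq'] at h
  obtain ⟨⟨hs, rfl, hx⟩, ⟨hn, hn'⟩, he⟩ := h
  obtain ⟨t, rfl⟩ := Nat.exists_eq_add_of_le hs
  rw [Nat.add_sub_cancel_left] at he
  have t0 := hT.sm
  refine ⟨G, h1, h2, ?_⟩
  dsimp only at *
  have t1 := (t0.smul (1 / 2 ^ t)).box (n' := n + 2 * x') hn (by omega) le_rfl (by omega)
  have t2 := h3.box (n' := n + 2 * x') (by omega) (by omega) le_rfl (by omega)
  refine ((t1.add t2).congr fun ω θ => ?_).le ?_
  · rw [pow_add]
    push_cast
    field_simp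
    ring
  · have t3 := shr_real (M1 + e1) t
    generalize Nat.shiftRight (M1 + e1) t = u at *
    have t4 : (e : ℝ) + 1 + u ≤ e' := by exact_mod_cast he
    rw [abs_of_pos (by positivity), one_div, inv_mul_eq_div]
    push_cast at t3
    split_ifs at t3 <;> linarith

end Pool.Agent.Lib.KTab
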