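import Mathlib.Analysis.SpecialFunctions.ExpDeriv
import Mathlib.Analysis.SpecialFunctions.Trigonometric.Deriv
import Mathlib.Analysis.SpecialFunctions.Trigonometric.Chebyshev.Basic
import Mathlib.Algebra.Ring.Subring.Basic
import Mathlib.Tactic

/-!
Polynomials in two variables given as finite families of monomials, with a bound for the sum of
the absolute values of the coefficients, and the trigonometric polynomials they define.
-/

namespace Pool.Agent.Lib.KTab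

open Finset Complex

/-- `G` is a sum of monomials of degrees at most `n`, `m`, with coefficients in `R` whose absolute
values have sum at most `M`. -/
def Fam (R : Subring ℝ) (n m : ℕ) (M : ℝ) (G : ℂ → ℂ → ℂ) : Prop :=
  ∃ (ι : Type) (s : Finset ι) (c : ι → ℝ) (a b : ι → ℕ),
    (∀ k ∈ s, c k ∈ R ∧ a k ≤ n ∧ b k ≤ m) ∧ ∑ k ∈ s, |c k| ≤ M ∧
      ∀ z w, G z w = ∑ k ∈ s, c k * z ^ a k * w ^ b k

variable {R : Subring ℝ} {n m n' m' : ℕ} {M M' : ℝ} {G G' : ℂ → ℂ → ℂ}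

theorem Fam.nonneg (h : Fam R n m M G) : 0 ≤ M := by
  obtain ⟨ι, s, c, a, b, -, h2, -⟩ := h
  exact (sum_nonneg fun _ _ => abs_nonneg _).trans h2

theorem Fam.mono (h : Fam R n m M G) (hn : n ≤ n') (hm : m ≤ m') (hM : M ≤ M') :
    Fam R n' m' M' G := by
  obtain ⟨ι, s, c, a, b, h1, h2, h3⟩ := h
  exact ⟨ι, s, c, a, b, fun k hk => ⟨(h1 k hk).1, (h1 k hk).2.1.trans hn, (h1 k hk).2.2.trans hm⟩,
    h2.trans hM, h3⟩

theorem Fam.top (h : Fam R n m M G) : Fam ⊤ n m M G := by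
  obtain ⟨ι, s, c, a, b, h1, h2, h3⟩ := h
  exact ⟨ι, s, c, a, b, fun k hk => ⟨trivial, (h1 k hk).2⟩, h2, h3⟩

theorem Fam.congr (h : Fam R n m M G) (e : ∀ z w, G' z w = G z w) : Fam R n m M G' := by
  rwa [show G' = G from funext fun z => funext fun w => e z w]

theorem Fam.mon {c : ℝ} (hc : c ∈ R) (a b : ℕ) : Fam R a b |c| fun z w => c * z ^ a * w ^ b :=
  ⟨Unit, univ, fun _ => c, fun _ => a, fun _ => b, fun _ _ => ⟨hc, le_rfl, le_rfl⟩, by simp,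
    fun _ _ => by simp⟩

theorem Fam.zero (R : Subring ℝ) (n m : ℕ) : Fam R n m 0 fun _ _ => 0 :=
  ⟨Unit, ∅, fun _ => 0, fun _ => 0, fun _ => 0, by simp, by simp, by simp⟩

theorem Fam.eq_zero (h : Fam R n m 0 G) (z w : ℂ) : G z w = 0 := by
  obtain ⟨ι, s, c, a, b, -, h2, h3⟩ := h
  have := (sum_eq_zero_iff_of_nonneg fun k _ => abs_nonneg (c k)).1
    (le_antisymm h2 (sum_nonneg fun _ _ => abs_nonneg _))
  rw [h3]
  exact sum_eq_zero fun k hk => by simp [abs_eq_zero.1 (this k hk)]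

theorem Fam.add (h : Fam R n m M G) (h' : Fam R n m M' G') :
    Fam R n m (M + M') fun z w => G z w + G' z w := by
  obtain ⟨ι, s, c, a, b, h1, h2, h3⟩ := h
  obtain ⟨ι', s', c', a', b', g1, g2, g3⟩ := h'
  refine ⟨ι ⊕ ι', s.disjSum s', Sum.elim c c', Sum.elim a a', Sum.elim b b', ?_, ?_, fun z w => ?_⟩
  · rintro (k | k) hk
    · exact h1 k (by simpa using hk)
    · exact g1 k (by simpa using hk)
  · rw [sum_disjSum]
    exact add_le_add h2 g2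
  · beta_reduce
    rw [sum_disjSum, h3, g3]
    rfl

theorem Fam.mul (h : Fam R n m M G) (h' : Fam R n' m' M' G') :
    Fam R (n + n') (m + m') (M * M') fun z w => G z w * G' z w := by
  have h0 := h.nonneg
  obtain ⟨ι, s, c, a, b, h1, h2, h3⟩ := h
  obtain ⟨ι', s', c', a', b', g1, g2, g3⟩ := h'
  refine ⟨ι × ι', s ×ˢ s', fun k => c k.1 * c' k.2, fun k => a k.1 + a' k.2,
    fun k => b k.1 + b' k.2, fun k hk => ?_, ?_, fun z w => ?_⟩
  · obtain ⟨k1, k2⟩ := mem_product.1 hk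
    exact ⟨R.mul_mem (h1 _ k1).1 (g1 _ k2).1, add_le_add (h1 _ k1).2.1 (g1 _ k2).2.1,
      add_le_add (h1 _ k1).2.2 (g1 _ k2).2.2⟩
  · simp only [abs_mul]
    rw [sum_product' s s' fun x y => |c x| * |c' y|, ← sum_mul_sum]
    exact mul_le_mul h2 g2 (sum_nonneg fun _ _ => abs_nonneg _) h0
  · beta_reduce
    rw [h3, g3, sum_mul_sum, sum_product]
    refine sum_congr rfl fun i _ => sum_congr rfl fun j _ => ?_
    push_cast
    ring

theorem Fam.smul (h : Fam R n m M G) {c : ℝ} (hc : c ∈ R) :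
    Fam R n m (|c| * M) fun z w => c * G z w := by
  simpa using (Fam.mon hc 0 0).mul h

theorem Fam.neg (h : Fam R n m M G) : Fam R n m M fun z w => -G z w := by
  simpa using h.smul (R.neg_mem R.one_mem)

theorem Fam.shift (h : Fam R n m M G) (d d' : ℕ) :
    Fam R (n + 2 * d) (m + 2 * d') M fun z w => z ^ d * w ^ d' * G z w := by
  have := (Fam.mon R.one_mem d d').mul h
  simp only [abs_one, one_mul, ofReal_one] at this
  exact this.mono (by omega) (by omega) le_rfl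

theorem Fam.sum {ι : Type} (s : Finset ι) {M : ι → ℝ} {G : ι → ℂ → ℂ → ℂ}
    (h : ∀ i ∈ s, Fam R n m (M i) (G i)) :
    Fam R n m (∑ i ∈ s, M i) fun z w => ∑ i ∈ s, G i z w := by
  classical
  induction s using Finset.induction_on with
  | empty => simpa using Fam.zero R n m
  | insert i s hi ih =>
    simp only [sum_insert hi]
    exact (h i (mem_insert_self _ _)).add (ih fun j hj => h j (mem_insert_of_mem hj))

/-- `exp (i t)`. -/
noncomputable def ex (t : ℝ) : ℂ := cexp (t * I)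

theorem ex_add (s t : ℝ) : ex (s + t) = ex s * ex t := by
  simp [ex, add_mul, exp_add]

theorem ex_zero : ex 0 = 1 := by simp [ex]

theorem ex_pow (t : ℝ) (k : ℕ) : ex t ^ k = ex (k * t) := by
  simp [ex, ← exp_nat_mul, mul_assoc]

theorem norm_ex (t : ℝ) : ‖ex t‖ = 1 := norm_exp_ofReal_mul_I t

theorem ex_re (t : ℝ) : (ex t).re = Real.cos t := exp_ofReal_mul_I_re t

theorem two_cos_ex (t : ℝ) : 2 * (Real.cos t : ℂ) = ex t + ex (-t) := by
  rw [ofReal_cos, two_cos]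
  simp [ex]

theorem two_sin_ex (t : ℝ) : 2 * (Real.sin t : ℂ) * I = ex t - ex (-t) := by
  rw [ofReal_sin, two_sin]
  simp only [ex, ofReal_neg]
  linear_combination (cexp (-t * I) - cexp (t * I)) * I_mul_I

theorem hasDerivAt_ex (a b t : ℝ) :
    HasDerivAt (fun t => ex (a * t + b)) (a * I * ex (a * t + b)) t := by
  have h1 : HasDerivAt (fun t : ℝ => a * t + b) a t := by
    simpa using ((hasDerivAt_id t).const_mul a).add_const b
  have h2 := (h1.ofReal_comp.mul_const I).cexp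
  exact h2.congr_deriv (by simp only [ex]; ring)

/-- The trigonometric polynomial of `G`, centred in the box. -/
noncomputable def tr (n m : ℕ) (G : ℂ → ℂ → ℂ) (ω θ : ℝ) : ℂ :=
  G (ex (2 * ω)) (ex (2 * θ)) * ex (-(n * ω + m * θ))

theorem tr_mon (n m : ℕ) (c : ℂ) (a b : ℕ) (ω θ : ℝ) :
    c * ex (2 * ω) ^ a * ex (2 * θ) ^ b * ex (-(n * ω + m * θ)) =
      c * ex ((2 * a - n) * ω + (2 * b - m) * θ) := by
  rw [ex_pow, ex_pow, mul_assoc, mul_assoc, ← ex_add, ← ex_add]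
  congr 2
  ring

theorem tr_mul (n m n' m' : ℕ) (G G' : ℂ → ℂ → ℂ) (ω θ : ℝ) :
    tr (n + n') (m + m') (fun z w => G z w * G' z w) ω θ = tr n m G ω θ * tr n' m' G' ω θ := by
  simp only [tr]
  rw [show -(((n + n' : ℕ) : ℝ) * ω + ((m + m' : ℕ) : ℝ) * θ) =
    -(n * ω + m * θ) + -(n' * ω + m' * θ) by push_cast; ring, ex_add]
  ring

theorem tr_shift (n m d d' : ℕ) (G : ℂ → ℂ → ℂ) (ω θ : ℝ) :
    tr (n + 2 * d) (m + 2 * d') (fun z w => z ^ d * w ^ d' * G z w) ω θ = tr n m G ω θ := by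
  simp only [tr]
  rw [show -((n : ℝ) * ω + m * θ) = d * (2 * ω) + d' * (2 * θ) +
    -(((n + 2 * d : ℕ) : ℝ) * ω + ((m + 2 * d' : ℕ) : ℝ) * θ) by push_cast; ring, ex_add, ex_add,
    ex_pow, ex_pow]
  ring

/-- `Φ` is a trigonometric polynomial with frequencies `-n, -n + 2, ..., n` and
`-m, -m + 2, ..., m` and real coefficients whose absolute values have sum at most `η`. -/
def Sm (n m : ℕ) (η : ℝ) (Φ : ℝ → ℝ → ℂ) : Prop :=
  ∃ E, Fam ⊤ n m η E ∧ ∀ ω θ, Φ ω θ = tr n m E ω θ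

variable {η η' : ℝ} {Φ Ψ : ℝ → ℝ → ℂ}

theorem Fam.sm (h : Fam R n m M G) : Sm n m M (tr n m G) := ⟨G, h.top, fun _ _ => rfl⟩

theorem Sm.congr (h : Sm n m η Φ) (e : ∀ ω θ, Ψ ω θ = Φ ω θ) : Sm n m η Ψ := by
  rwa [show Ψ = Φ from funext fun z => funext fun w => e z w]

theorem Sm.nonneg (h : Sm n m η Φ) : 0 ≤ η := by
  obtain ⟨E, h, -⟩ := h
  exact h.nonneg

theorem Sm.zero (n m : ℕ) : Sm n m 0 fun _ _ => 0 :=
  ⟨_, Fam.zero ⊤ n m, fun _ _ => by simp [tr]⟩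

theorem Sm.le (h : Sm n m η Φ) (hη : η ≤ η') : Sm n m η' Φ := by
  obtain ⟨E, h1, h2⟩ := h
  exact ⟨E, h1.mono le_rfl le_rfl hη, h2⟩

theorem Sm.box (h : Sm n m η Φ) (hn : n ≤ n') (hn' : (n + n') % 2 = 0) (hm : m ≤ m')
    (hm' : (m + m') % 2 = 0) : Sm n' m' η Φ := by
  obtain ⟨E, h1, h2⟩ := h
  obtain ⟨d, rfl⟩ : ∃ d, n' = n + 2 * d := ⟨(n' - n) / 2, by omega⟩
  obtain ⟨d', rfl⟩ : ∃ d, m' = m + 2 * d := ⟨(m' - m) / 2, by omega⟩
  exact ⟨_, h1.shift d d', fun ω θ => by rw [tr_shift, h2]⟩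

theorem Sm.add (h : Sm n m η Φ) (h' : Sm n m η' Ψ) :
    Sm n m (η + η') fun ω θ => Φ ω θ + Ψ ω θ := by
  obtain ⟨E, h1, h2⟩ := h
  obtain ⟨E', g1, g2⟩ := h'
  exact ⟨_, h1.add g1, fun ω θ => by simp only [h2, g2, tr, add_mul]⟩

theorem Sm.mul (h : Sm n m η Φ) (h' : Sm n' m' η' Ψ) :
    Sm (n + n') (m + m') (η * η') fun ω θ => Φ ω θ * Ψ ω θ := by
  obtain ⟨E, h1, h2⟩ := h
  obtain ⟨E', g1, g2⟩ := h'
  exact ⟨_, h1.mul g1, fun ω θ => by rw [tr_mul, ← h2, ← g2]⟩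

theorem Sm.smul (h : Sm n m η Φ) (c : ℝ) : Sm n m (|c| * η) fun ω θ => c * Φ ω θ := by
  obtain ⟨E, h1, h2⟩ := h
  exact ⟨_, h1.smul (c := c) trivial, fun ω θ => by simp only [h2, tr, mul_assoc]⟩

theorem Sm.neg (h : Sm n m η Φ) : Sm n m η fun ω θ => -Φ ω θ := by
  simpa using h.smul (-1)

theorem Sm.eq_zero (h : Sm n m 0 Φ) (ω θ : ℝ) : Φ ω θ = 0 := by
  obtain ⟨E, h1, h2⟩ := h
  rw [h2, tr, h1.eq_zero, zero_mul]

theorem Sm.sum {ι : Type} (s : Finset ι) {η : ι → ℝ} {Φ : ι → ℝ → ℝ → ℂ}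
    (h : ∀ i ∈ s, Sm n m (η i) (Φ i)) :
    Sm n m (∑ i ∈ s, η i) fun ω θ => ∑ i ∈ s, Φ i ω θ := by
  classical
  induction s using Finset.induction_on with
  | empty => simpa using Sm.zero n m
  | insert i s hi ih =>
    simp only [sum_insert hi]
    exact (h i (mem_insert_self _ _)).add (ih fun j hj => h j (mem_insert_of_mem hj))

/-- The explicit form. -/
theorem Sm.form (h : Sm n m η Φ) : ∃ (ι : Type) (s : Finset ι) (c : ι → ℝ) (a b : ι → ℕ),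
    (∀ k ∈ s, a k ≤ n ∧ b k ≤ m) ∧ ∑ k ∈ s, |c k| ≤ η ∧
      ∀ ω θ, Φ ω θ = ∑ k ∈ s, c k * ex ((2 * a k - n) * ω + (2 * b k - m) * θ) := by
  obtain ⟨E, ⟨ι, s, c, a, b, h1, h2, h3⟩, h4⟩ := h
  refine ⟨ι, s, c, a, b, fun k hk => (h1 k hk).2, h2, fun ω θ => ?_⟩
  rw [h4, tr, h3, sum_mul]
  exact sum_congr rfl fun k _ => tr_mon _ _ _ _ _ _ _

theorem Sm.of_form {ι : Type} (s : Finset ι) (c : ι → ℝ) (a b : ι → ℕ)
    (h1 : ∀ k ∈ s, a k ≤ n ∧ b k ≤ m) (h2 : ∑ k ∈ s, |c k| ≤ η)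
    (h3 : ∀ ω θ, Φ ω θ = ∑ k ∈ s, c k * ex ((2 * a k - n) * ω + (2 * b k - m) * θ)) :
    Sm n m η Φ := by
  refine ⟨fun z w => ∑ k ∈ s, c k * z ^ a k * w ^ b k,
    ⟨ι, s, c, a, b, fun k hk => ⟨trivial, h1 k hk⟩, h2, fun _ _ => rfl⟩, fun ω θ => ?_⟩
  rw [h3, tr, sum_mul]
  exact sum_congr rfl fun k _ => (tr_mon _ _ _ _ _ _ _).symm

theorem Sm.norm_le (h : Sm n m η Φ) (ω θ : ℝ) : ‖Φ ω θ‖ ≤ η := by
  obtain ⟨ι, s, c, a, b, -, h2, h3⟩ := h.form
  rw [h3]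
  refine (norm_sum_le _ _).trans (le_trans (le_of_eq (sum_congr rfl fun k _ => ?_)) h2)
  rw [norm_mul, norm_ex, mul_one, norm_real, Real.norm_eq_abs]

theorem Sm.swap (h : Sm n m η Φ) : Sm m n η fun ω θ => Φ θ ω := by
  obtain ⟨ι, s, c, a, b, h1, h2, h3⟩ := h.form
  exact Sm.of_form s c b a (fun k hk => (h1 k hk).symm) h2 fun ω θ => by
    rw [h3]
    exact sum_congr rfl fun k _ => by rw [add_comm]

theorem abs_freq {a n : ℕ} (h : a ≤ n) : |(2 * a - n : ℝ)| ≤ n := by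
  have h1 : (a : ℝ) ≤ n := by exact_mod_cast h
  have h2 : (0 : ℝ) ≤ a := Nat.cast_nonneg a
  rw [abs_le]
  constructor <;> linarith

/-- The derivative in the first angle. -/
theorem Sm.d1 (h : Sm n m η Φ) : ∃ Ψ, Sm n m (n * η) Ψ ∧
    ∀ ω θ, HasDerivAt (fun ω => Φ ω θ) (I * Ψ ω θ) ω := by
  obtain ⟨ι, s, c, a, b, h1, h2, h3⟩ := h.form
  refine ⟨_, Sm.of_form s (fun k => (2 * a k - n) * c k) a b h1 ?_ fun _ _ => rfl, fun ω θ => ?_⟩
  · refine le_trans (sum_le_sum fun k hk => ?_)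
      ((mul_sum s _ _).symm.trans_le (mul_le_mul_of_nonneg_left h2 (Nat.cast_nonneg n)))
    rw [abs_mul]
    exact mul_le_mul_of_nonneg_right (abs_freq (h1 k hk).1) (abs_nonneg _)
  · simp only [h3]
    refine (HasDerivAt.fun_sum fun k _ =>
      (hasDerivAt_ex (2 * a k - n) ((2 * b k - m) * θ) ω).const_mul (c k : ℂ)).congr_deriv ?_
    rw [mul_sum]
    exact sum_congr rfl fun k _ => by push_cast; ring

/-- The derivative in the second angle. -/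
theorem Sm.d2 (h : Sm n m η Φ) : ∃ Ψ, Sm n m (m * η) Ψ ∧
    ∀ ω θ, HasDerivAt (fun θ => Φ ω θ) (I * Ψ ω θ) θ := by
  obtain ⟨Ψ, h1, h2⟩ := h.swap.d1
  exact ⟨_, h1.swap, fun ω θ => h2 θ ω⟩

theorem sm_sin : Sm 1 0 2 fun ω _ => -(2 * (Real.sin ω : ℂ) * I) := by
  refine Sm.of_form (univ : Finset Bool) (fun k => if k then -1 else 1) (fun k => if k then 1 else 0)
    (fun _ => 0) (by simp) (by norm_num) fun ω θ => ?_
  rw [two_sin_ex]
  norm_num
  ring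

/-- `(1 - x ^ 2) d / dx` in terms of the first angle. -/
noncomputable def E1 (Φ : ℝ → ℝ → ℂ) (ω θ : ℝ) : ℂ := -Real.sin ω * deriv (fun ω => Φ ω θ) ω

/-- `(1 - c ^ 2) d / dc` in terms of the second angle. -/
noncomputable def E2 (Φ : ℝ → ℝ → ℂ) (ω θ : ℝ) : ℂ := -Real.sin θ * deriv (fun θ => Φ ω θ) θ

/-- A function of the two cosines as a function of the angles. -/
noncomputable def ang (F : ℝ → ℝ → ℝ) (ω θ : ℝ) : ℂ := (F (Real.cos ω) (Real.cos θ) : ℝ)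

variable {F F' : ℝ → ℝ → ℝ}

theorem ang_d1 {ω θ : ℝ} (h : HasDerivAt (fun x => F x (Real.cos θ))
    (F' (Real.cos ω) (Real.cos θ)) (Real.cos ω)) :
    HasDerivAt (fun ω => ang F ω θ) (-Real.sin ω * ang F' ω θ) ω :=
  (h.comp ω (Real.hasDerivAt_cos ω)).ofReal_comp.congr_deriv (by simp only [ang]; push_cast; ring)

theorem ang_d2 {ω θ : ℝ} (h : HasDerivAt (fun c => F (Real.cos ω) c)
    (F' (Real.cos ω) (Real.cos θ)) (Real.cos θ)) :
    HasDerivAt (fun θ => ang F ω θ) (-Real.sin θ * ang F' ω θ) θ :=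
  (h.comp θ (Real.hasDerivAt_cos θ)).ofReal_comp.congr_deriv (by simp only [ang]; push_cast; ring)

theorem E1_ang (h : ∀ x c, HasDerivAt (fun x => F x c) (F' x c) x) :
    E1 (ang F) = ang fun x c => (1 - x ^ 2) * F' x c := by
  funext ω θ
  rw [E1, (ang_d1 (h _ _)).deriv]
  simp only [ang, ← Real.sin_sq]
  push_cast
  ring

theorem E2_ang (h : ∀ x c, HasDerivAt (fun c => F x c) (F' x c) c) :
    E2 (ang F) = ang fun x c => (1 - c ^ 2) * F' x c := by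
  funext ω θ
  rw [E2, (ang_d2 (h _ _)).deriv]
  simp only [ang, ← Real.sin_sq]
  push_cast
  ring

theorem Sm.e1 (h : Sm n m η Φ) : Sm (n + 1) m (n * η) (E1 Φ) := by
  obtain ⟨Ψ, h1, h2⟩ := h.d1
  have := (h1.mul sm_sin).smul (1 / 2)
  refine (this.congr fun ω θ => ?_).le (le_of_eq (by norm_num; ring))
  rw [E1, (h2 ω θ).deriv]
  push_cast
  ring

theorem Sm.e2 (h : Sm n m η Φ) : Sm n (m + 1) (m * η) (E2 Φ) := h.swap.e1.swap

/-- The bound for the values. -/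
theorem Sm.val_le (h : Sm n m η (ang F)) {x c : ℝ} (hx : |x| ≤ 1) (hc : |c| ≤ 1) : |F x c| ≤ η := by
  have := h.norm_le (Real.arccos x) (Real.arccos c)
  rwa [ang, Real.cos_arccos (abs_le.1 hx).1 (abs_le.1 hx).2,
    Real.cos_arccos (abs_le.1 hc).1 (abs_le.1 hc).2, norm_real] at this

/-- The bound for the derivative in the first variable. -/
theorem Sm.d1_le (h : Sm n m η (ang F)) (hd : ∀ x c, HasDerivAt (fun x => F x c) (F' x c) x)
    {x c : ℝ} (hx : |x| ≤ 1) (hc : |c| ≤ 1) : √(1 - x ^ 2) * |F' x c| ≤ n * η := by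
  obtain ⟨Ψ, h1, h2⟩ := h.d1
  have h3 := h1.norm_le (Real.arccos x) (Real.arccos c)
  have h4 := congrArg norm ((h2 (Real.arccos x) (Real.arccos c)).unique (ang_d1 (hd _ _)))
  rw [norm_mul, norm_I, one_mul, norm_mul, norm_neg, ang,
    Real.cos_arccos (abs_le.1 hx).1 (abs_le.1 hx).2, Real.cos_arccos (abs_le.1 hc).1 (abs_le.1 hc).2,
    norm_real, norm_real, Real.sin_arccos, Real.norm_eq_abs, abs_of_nonneg (Real.sqrt_nonneg _)] at h4
  exact h4 ▸ h3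

/-- The bound for the derivative in the second variable. -/
theorem Sm.d2_le (h : Sm n m η (ang F)) (hd : ∀ x c, HasDerivAt (fun c => F x c) (F' x c) c)
    {x c : ℝ} (hx : |x| ≤ 1) (hc : |c| ≤ 1) : √(1 - c ^ 2) * |F' x c| ≤ m * η :=
  Sm.d1_le (F := fun c x => F x c) (F' := fun c x => F' x c) h.swap (fun c x => hd x c) hc hx

/-- The class of errors: for `b = true` as in `Sm`, for `b = false` only a bound for the values. -/
def Er (b : Bool) (n m : ℕ) (η : ℝ) (Φ : ℝ → ℝ → ℂ) : Prop :=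
  (b = true → Sm n m η Φ) ∧ ∀ ω θ, ‖Φ ω θ‖ ≤ η

variable {b : Bool}

theorem Sm.er (h : Sm n m η Φ) (b : Bool) : Er b n m η Φ := ⟨fun _ => h, h.norm_le⟩

theorem Er.sm (h : Er true n m η Φ) : Sm n m η Φ := h.1 rfl

theorem Er.weak (h : Er b n m η Φ) (n' m' : ℕ) : Er false n' m' η Φ := ⟨by simp, h.2⟩

theorem Er.congr (h : Er b n m η Φ) (e : ∀ ω θ, Ψ ω θ = Φ ω θ) : Er b n m η Ψ := by
  rwa [show Ψ = Φ from funext fun z => funext fun w => e z w]

theorem Er.nonneg (h : Er b n m η Φ) : 0 ≤ η := (norm_nonneg _).trans (h.2 0 0)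

theorem Er.le (h : Er b n m η Φ) (hη : η ≤ η') : Er b n m η' Φ :=
  ⟨fun i => (h.1 i).le hη, fun ω θ => (h.2 ω θ).trans hη⟩

theorem Er.box (h : Er b n m η Φ) (hn : n ≤ n') (hn' : (n + n') % 2 = 0) (hm : m ≤ m')
    (hm' : (m + m') % 2 = 0) : Er b n' m' η Φ := ⟨fun i => (h.1 i).box hn hn' hm hm', h.2⟩

theorem Er.add (h : Er b n m η Φ) (h' : Er b n m η' Ψ) :
    Er b n m (η + η') fun ω θ => Φ ω θ + Ψ ω θ :=
  ⟨fun i => (h.1 i).add (h'.1 i), fun ω θ => (norm_add_le _ _).trans (add_le_add (h.2 _ _) (h'.2 _ _))⟩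

theorem Er.mul (h : Er b n m η Φ) (h' : Er b n' m' η' Ψ) :
    Er b (n + n') (m + m') (η * η') fun ω θ => Φ ω θ * Ψ ω θ :=
  ⟨fun i => (h.1 i).mul (h'.1 i), fun ω θ => (norm_mul _ _).trans_le
    (mul_le_mul (h.2 _ _) (h'.2 _ _) (norm_nonneg _) h.nonneg)⟩

theorem Er.smul (h : Er b n m η Φ) (c : ℝ) : Er b n m (|c| * η) fun ω θ => c * Φ ω θ :=
  ⟨fun i => (h.1 i).smul c, fun ω θ => by
    rw [norm_mul, norm_real]
    exact mul_le_mul_of_nonneg_left (h.2 _ _) (abs_nonneg _)⟩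

theorem Er.neg (h : Er b n m η Φ) : Er b n m η fun ω θ => -Φ ω θ := by
  simpa using h.smul (-1)

theorem Er.eq_zero (h : Er b n m 0 Φ) (ω θ : ℝ) : Φ ω θ = 0 := norm_le_zero_iff.1 (h.2 ω θ)

theorem Er.sum {ι : Type} (s : Finset ι) {η : ι → ℝ} {Φ : ι → ℝ → ℝ → ℂ}
    (h : ∀ i ∈ s, Er b n m (η i) (Φ i)) :
    Er b n m (∑ i ∈ s, η i) fun ω θ => ∑ i ∈ s, Φ i ω θ :=
  ⟨fun i => Sm.sum s fun j hj => (h j hj).1 i,
    fun ω θ => (norm_sum_le _ _).trans (sum_le_sum fun j hj => (h j hj).2 ω θ)⟩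

/-- The bound for the values. -/
theorem Er.val_le (h : Er b n m η (ang F)) {x c : ℝ} (hx : |x| ≤ 1) (hc : |c| ≤ 1) : |F x c| ≤ η := by
  have := h.2 (Real.arccos x) (Real.arccos c)
  rwa [ang, Real.cos_arccos (abs_le.1 hx).1 (abs_le.1 hx).2,
    Real.cos_arccos (abs_le.1 hc).1 (abs_le.1 hc).2, norm_real] at this

end Pool.Agent.Lib.KTab
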