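import Pool.Agent.Lib.KTab.Flat
import Pool.Agent.Lib.KTab.Defs2

/-!
Meaning of the faster operations.
-/

namespace Pool.Agent.Lib.KTab

open Finset Complex Pool.Agent.Lib.KLA

theorem pk_two (E Q : ℕ) (B : ℕ → ℤ) :
    pk E (2 * Q) B = pk (E * 2) Q fun h => B (2 * h) + B (2 * h + 1) * 2 ^ E := by
  rw [← pk_block]
  exact pk_congr fun h _ => by simp [pk, sum_range_succ]

theorem pk_half (V K h : ℕ) (u : ℕ → ℤ) : pk V (2 ^ (K + 1)) (fun r => u (2 ^ (K + 1) * h + r)) =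
    pk V (2 ^ K) (fun r => u (2 ^ K * (2 * h) + r)) +
      pk V (2 ^ K) (fun r => u (2 ^ K * (2 * h + 1) + r)) * 2 ^ (V * 2 ^ K) := by
  rw [pow_succ, mul_two, pk_split]
  congr 1
  · exact pk_congr fun r _ => by congr 1; ring
  · congr 1
    exact pk_congr fun r _ => by congr 1; ring

theorem pk_bd {V p : ℕ} {u : ℕ → ℤ} (h : ∀ j, 0 ≤ u j ∧ u j < 2 ^ V) :
    0 ≤ pk V p u ∧ pk V p u < 2 ^ (V * p) := ⟨pk_nonneg fun j _ => (h j).1, pk_lt fun j _ => (h j).2⟩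

/-- The low and the high parts of blocks. -/
theorem lows_eq {D H b q y : ℕ} (hD : 0 < D) (hH : H ≤ D) {lo up : ℕ → ℤ}
    (hy : (y : ℤ) = pk (D * 2 ^ (b + 1)) (2 ^ q) fun h => lo h + up h * 2 ^ (H * 2 ^ b))
    (h1 : ∀ h, 0 ≤ lo h ∧ lo h < 2 ^ (H * 2 ^ b)) (h2 : ∀ h, 0 ≤ up h ∧ up h < 2 ^ (H * 2 ^ b)) :
    (lows D H b q y : ℤ) = pk (D * 2 ^ (b + 1)) (2 ^ q) lo ∧
      ∃ c : ℕ, (c : ℤ) = pk (D * 2 ^ (b + 1)) (2 ^ q) up ∧
        y - lows D H b q y = c * 2 ^ (H * 2 ^ b) := by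
  have ht : H * 2 ^ b + H * 2 ^ b ≤ D * 2 ^ (b + 1) := by
    rw [pow_succ, ← mul_assoc, mul_two]
    have := Nat.mul_le_mul_right (2 ^ b) hH
    omega
  have e : (lows D H b q y : ℤ) = pk (D * 2 ^ (b + 1)) (2 ^ q) lo := by
    simp only [lows, shl_eq, one_mul, Nat.add_eq]
    generalize H * 2 ^ b = t at *
    have hE : 0 < D * 2 ^ (b + 1) := by positivity
    generalize D * 2 ^ (b + 1) = E at *
    rw [land_msk hE (by omega)]
    refine pk_congr fun j hj => ?_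
    have p : (0 : ℤ) < 2 ^ t := by positivity
    have k := bits_pk le_rfl hy (fun j _ => ⟨add_nonneg (h1 j).1 (mul_nonneg (h2 j).1 p.le), by
      have a1 : (2 : ℤ) ^ (t + t) ≤ 2 ^ E := pow_le_pow_right₀ (by norm_num) ht
      rw [pow_add] at a1
      nlinarith [Int.add_one_le_iff.2 (h2 j).2, (h1 j).2]⟩) j hj
    rw [show bits y (E * j) t = bits y (E * j) E % 2 ^ t from
      (Nat.mod_mod_of_dvd _ (pow_dvd_pow 2 (by omega))).symm]
    push_cast
    rw [k, Int.add_mul_emod_self_right, Int.emod_eq_of_lt (h1 j).1 (h1 j).2]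
  obtain ⟨c, hc⟩ := Int.eq_ofNat_of_zero_le
    (pk_nonneg (W := D * 2 ^ (b + 1)) (p := 2 ^ q) fun j _ => (h2 j).1)
  refine ⟨e, c, hc.symm, Nat.sub_eq_of_eq_add ?_⟩
  zify
  rw [hy, e, ← hc, mul_comm (pk _ _ _), pk_mul, pk_add]
  exact pk_congr fun j _ => by ring

theorem cp_eq {W V L y : ℕ} (hV : 0 < V) (hW : V ≤ W) {u : ℕ → ℤ} (hu : ∀ j, 0 ≤ u j ∧ u j < 2 ^ V)
    (hy : (y : ℤ) = pk W (2 ^ L) u) : ∀ K, K ≤ L → (cp W V L y K : ℤ) =
      pk (W * 2 ^ K) (2 ^ (L - K)) fun h => pk V (2 ^ K) fun r => u (2 ^ K * h + r)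
  | 0, _ => by simpa [cp, pk] using hy
  | K + 1, h => by
    have ih := cp_eq hV hW hu hy K (by omega)
    rw [show L - K = L - (K + 1) + 1 by omega, pow_succ' 2 (L - _), pk_two, mul_assoc,
      ← pow_succ] at ih
    have b : ∀ h, 0 ≤ pk V (2 ^ K) (fun r => u (2 ^ K * h + r)) ∧
        pk V (2 ^ K) (fun r => u (2 ^ K * h + r)) < 2 ^ (W * 2 ^ K) := fun h =>
      ⟨(pk_bd fun _ => hu _).1, (pk_bd fun _ => hu _).2.trans_le
        (pow_le_pow_right₀ (by norm_num) (Nat.mul_le_mul_right _ hW))⟩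
    obtain ⟨e1, c, hc, e2⟩ := lows_eq (by omega) le_rfl ih (fun _ => b _) fun _ => b _
    change ((lows W W K (L - (K + 1)) (cp W V L y K) + Nat.shiftRight (cp W V L y K -
      lows W W K (L - (K + 1)) (cp W V L y K)) (Nat.shiftLeft (W - V) K) : ℕ) : ℤ) = _
    obtain ⟨d, rfl⟩ := Nat.exists_eq_add_of_le hW
    rw [e2, shr_eq, shl_eq, Nat.add_sub_cancel_left, add_mul V, pow_add 2 (V * _), ← mul_assoc,
      Nat.mul_div_cancel _ (by positivity), Nat.cast_add, e1, Nat.cast_mul, hc, mul_comm (pk _ _ _),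
      pk_mul, pk_add]
    exact pk_congr fun j _ => by rw [pk_half]; push_cast; ring

theorem xp_eq {W V L : ℕ} (hV : 0 < V) (hW : W ≤ V) {u : ℕ → ℤ} (hu : ∀ j, 0 ≤ u j ∧ u j < 2 ^ W) :
    ∀ K y : ℕ, K ≤ L → (y : ℤ) = pk (V * 2 ^ K) (2 ^ (L - K))
      (fun h => pk W (2 ^ K) fun r => u (2 ^ K * h + r)) → (xp W V L K y : ℤ) = pk V (2 ^ L) u
  | 0, y, _, hy => by simpa [xp, pk] using hy
  | K + 1, y, h, hy => by
    simp only [pk_half] at hy
    obtain ⟨e1, c, hc, e2⟩ := lows_eq hV hW hy (fun _ => pk_bd fun _ => hu _)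
      fun _ => pk_bd fun _ => hu _
    refine xp_eq hV hW hu K _ (by omega) ?_
    obtain ⟨d, rfl⟩ := Nat.exists_eq_add_of_le hW
    simp only [Nat.add_eq, Nat.sub_eq]
    rw [e2, shl_eq, shl_eq, Nat.add_sub_cancel_left, mul_assoc, ← pow_add, ← add_mul,
      show L - K = L - (K + 1) + 1 by omega, pow_succ' 2 (L - _), pk_two, mul_assoc, ← pow_succ,
      Nat.cast_add, e1, Nat.cast_mul, hc, mul_comm (pk _ _ _), pk_mul, pk_add]
    exact pk_congr fun j _ => by push_cast; ring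

theorem xp_eq' {W V L y : ℕ} (hV : 0 < V) (hW : W ≤ V) {u : ℕ → ℤ}
    (hu : ∀ j, 0 ≤ u j ∧ u j < 2 ^ W) (hy : (y : ℤ) = pk W (2 ^ L) u) :
    (xp W V L L y : ℤ) = pk V (2 ^ L) u :=
  xp_eq hV hW hu L y le_rfl (by simpa [pk] using hy)

theorem rw2_eq {W L y : ℕ} (hW : 0 < W) {u : ℕ → ℤ} (hu : ∀ j, 0 ≤ u j ∧ u j < 2 ^ W)
    (hy : (y : ℤ) = pk W (2 ^ L) u) : ∀ K, K ≤ L → (rw2 W L y K : ℤ) =
      pk (W * 2 ^ K) (2 ^ (L - K)) fun h => pk W (2 ^ K) fun r => u (2 ^ K * h + (2 ^ K - 1 - r))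
  | 0, _ => by simpa [rw2, pk] using hy
  | K + 1, h => by
    have ih := rw2_eq hW hu hy K (by omega)
    rw [show L - K = L - (K + 1) + 1 by omega, pow_succ' 2 (L - _), pk_two, mul_assoc,
      ← pow_succ] at ih
    obtain ⟨e1, c, hc, e2⟩ := lows_eq hW le_rfl ih (fun _ => pk_bd fun _ => hu _)
      fun _ => pk_bd fun _ => hu _
    change ((Nat.shiftRight (rw2 W L y K - lows W W K (L - (K + 1)) (rw2 W L y K))
      (Nat.shiftLeft W K) + Nat.shiftLeft (lows W W K (L - (K + 1)) (rw2 W L y K))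
        (Nat.shiftLeft W K) : ℕ) : ℤ) = _
    rw [e2, shr_eq, shl_eq, shl_eq, Nat.mul_div_cancel _ (by positivity), Nat.cast_add,
      Nat.cast_mul, e1, hc, mul_comm (pk _ _ _), pk_mul, pk_add]
    refine pk_congr fun j _ => ?_
    rw [pow_succ, mul_two, pk_split]
    push_cast
    rw [mul_comm (2 ^ _ : ℤ)]
    congr 1
    · exact pk_congr fun r hr => by
        rw [show 2 ^ K * (2 * j + 1) = (2 ^ K + 2 ^ K) * j + 2 ^ K by ring]
        congr 1
        omega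
    · congr 1
      exact pk_congr fun r hr => by
        rw [show 2 ^ K * (2 * j) = (2 ^ K + 2 ^ K) * j by ring]
        congr 1
        omega

variable {b : Bool} {W S : ℕ} {A : Tab} {Φ : ℝ → ℝ → ℂ}

theorem res2_ok (V L : ℕ) (hA : Rep b W S A Φ) :
    Ok (res2 W V S L A) fun T => Rep b V S T Φ := fun k h => by
  obtain ⟨g, a, n, m, x, s, M, e⟩ := A
  obtain ⟨G, h1, h2, h3⟩ := hA
  simp only [res2, use_mk, strict_eq, Nat.sub_eq] at h
  generalize hw0 : W - (W - V) - 2 = w at h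
  obtain ⟨y, v, hk, hS, hw, hM, hy, hv, v1, v2, v3⟩ := dig_ok h h1 h2
  clear h
  simp only [bnd_iff, Nat.ble_eq, Nat.beq_eq, shl_eq, one_mul, cnd_eq] at hk
  dsimp only at *
  obtain ⟨⟨rfl, hp, hV⟩, hk⟩ := hk
  generalize n + 1 + S * 0 = p at *
  have hu : ∀ t, w + 1 ≤ t → ∀ j, 0 ≤ (if j < p then v j + (2 ^ w : ℕ) else 0) ∧
      (if j < p then v j + (2 ^ w : ℕ) else 0) < 2 ^ t := fun t ht j => by
    have a1 : (2 : ℤ) ^ (w + 1) ≤ 2 ^ t := pow_le_pow_right₀ (by norm_num) ht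
    split_ifs with hj
    · have := abs_le.1 (hy.2 j hj)
      have := hv j hj
      rw [pow_succ] at a1
      push_cast at *
      constructor <;> linarith
    · exact ⟨le_rfl, by positivity⟩
  have y1 := hy.1.trans (pk_ext W hp _).symm
  have fin : ∀ z : ℕ, (z : ℤ) = pk V (2 ^ L) (fun j => if j < p then v j + (2 ^ w : ℕ) else 0) →
      ssub z (ofs V p w) (fun g a => k ⟨g, a, n, 0, x, s, M, e⟩) = true →
      ∃ T, Rep b V S T Φ ∧ k T = true := fun z hz hk => by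
    obtain ⟨g', c, hc, hk⟩ := ssub_ok hk
    rw [hz, pk_ext V hp, ofs_eq hV, pk_sub,
      pk_congr (w := v) fun j _ => by push_cast; ring] at hc
    refine ⟨_, ?_, hk⟩
    exact ⟨G, h1, by dsimp only; rw [hc, v3, dg_pk], h3⟩
  split_ifs at hk with hVW
  · exact fin _ (by simpa [pk] using cp_eq hV hVW (hu V (by omega)) y1 L le_rfl) hk
  · exact fin _ (xp_eq' hV (by omega) (hu W (by omega)) y1) hk

theorem cheb2_eq {b L c s z : ℕ} {k : Tab → Bool} (h : cheb2 W b L c s z k = true) :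
    cheb W b L c s z k = true := by
  simp only [cheb2, cheb, strict_eq, bnd_iff, Nat.ble_eq, Nat.add_eq, Nat.mul_eq, Nat.sub_eq,
    land_low] at h ⊢
  obtain ⟨⟨hc, hb⟩, h⟩ := h
  refine ⟨⟨hc, by omega⟩, ?_⟩
  rw [shl_eq, one_mul] at hc
  have hy : z % 2 ^ ((b + 1) * (c + 1)) < 2 ^ ((b + 1) * (c + 1)) := Nat.mod_lt _ (by positivity)
  generalize z % 2 ^ ((b + 1) * (c + 1)) = y at *
  have hy' := hy.trans_le (Nat.pow_le_pow_right (by norm_num) (Nat.mul_le_mul_left (b + 1) hc))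
  have hu : ∀ j, (0 : ℤ) ≤ bits y ((b + 1) * j) (b + 1) ∧
      (bits y ((b + 1) * j) (b + 1) : ℤ) < 2 ^ (b + 1) := fun j =>
    ⟨Int.natCast_nonneg _, by exact_mod_cast bits_lt _ _ _⟩
  have y1 : (y : ℤ) = pk (b + 1) (2 ^ L) fun j => bits y ((b + 1) * j) (b + 1) := by
    have := bits_split y 0 (b + 1) (2 ^ L)
    rw [bits, pow_zero, Nat.div_one, Nat.mod_eq_of_lt hy'] at this
    simpa only [zero_add] using this
  have e1 : xp (b + 1) W L L y = rs (b + 1) W L y := by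
    zify
    rw [xp_eq' (by omega) hb hu y1, rs_eq _ _ _ _ hy']
  have cut : ∀ V, pk V (2 ^ L) (fun j => bits y ((b + 1) * (2 ^ L - 1 - j)) (b + 1)) /
      2 ^ (V * (2 ^ L - (c + 1))) = pk V (2 ^ L)
        fun j => if j < c + 1 then bits y ((b + 1) * (c - j)) (b + 1) else 0 := fun V => by
    rw [pk_ext V hc]
    obtain ⟨r, hr⟩ := Nat.exists_eq_add_of_le' hc
    rw [hr, pk_split, pk_congr (p := r) (w := fun _ => 0) fun j hj => by
      rw [bits, Nat.div_eq_of_lt (hy.trans_le (Nat.pow_le_pow_right (by norm_num)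
        (Nat.mul_le_mul_left _ (by omega))))]; rfl,
      show pk V r (fun _ => 0) = 0 by simp [pk], zero_add, Nat.add_sub_cancel,
      Int.mul_ediv_cancel _ (by positivity)]
    exact pk_congr fun j hj => by rw [show r + (c + 1) - 1 - (r + j) = c - j by omega]
  have e2 : xp (b + 1) W L L (Nat.shiftRight (rw2 (b + 1) L y L)
      ((b + 1) * (Nat.shiftLeft 1 L - (c + 1)))) =
      Nat.shiftRight (rv (b + 1) W L y) (W * (Nat.shiftLeft 1 L - (c + 1))) := by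
    have r1 := rw2_eq (by omega) hu y1 L le_rfl
    rw [Nat.sub_self, pow_zero, pk, sum_range_one, mul_zero, mul_zero, pow_zero, mul_one] at r1
    simp only [zero_add] at r1
    zify
    rw [shr_eq, shr_eq, shl_eq, one_mul, Int.natCast_div, rv_eq _ _ _ _ hy', Nat.cast_pow,
      Nat.cast_ofNat, cut]
    refine xp_eq' (by omega) hb (fun j => ?_) ?_
    · split_ifs
      · exact hu _
      · exact ⟨le_rfl, by positivity⟩
    · rw [Int.natCast_div, r1, Nat.cast_pow, Nat.cast_ofNat, cut]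
  rwa [e1, e2] at h

/-- The function of a stored row. -/
noncomputable def rowF (b s c z : ℕ) (x : ℝ) : ℝ :=
  ∑ j ∈ range (c + 1), sdig b z j / 2 ^ s * (Polynomial.Chebyshev.T ℝ j).eval (2 * x ^ 2 - 1)

theorem cheb2_ok (bb : Bool) (W S b L c s z : ℕ) :
    Ok (cheb2 W b L c s z) fun T => Rep bb W S T (ang fun x _ => rowF b s c z x) ∧
      T.n = 2 * c ∧ T.m = 0 ∧ T.x = 0 ∧ T.s = s + 1 ∧ T.e = 0 := fun k h => by
  have h' : cheb2 W b L c s z (fun T => bnd (decide (T.n = 2 * c ∧ T.m = 0 ∧ T.x = 0 ∧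
      T.s = s + 1 ∧ T.e = 0)) (k T)) = true := by
    simp only [cheb2, mkT_eq] at h ⊢
    simpa [bnd] using h
  obtain ⟨T, h1, h2⟩ := cheb_ok bb W S b L c s z _ (cheb2_eq h')
  rw [bnd_iff, decide_eq_true_eq] at h2
  exact ⟨T, ⟨h1, h2.1⟩, h2.2⟩

/-- The stored row `p` is near `φ`. -/
def Near (s N e : ℕ) (p : ℕ × ℕ × ℕ) (φ : ℝ → ℂ) : Prop :=
  Sm (2 * p.2.1 + 2 * (N - p.2.1)) 0 (e / 2 ^ (s + 1))
    fun ω _ => φ ω - rowF p.1 s p.2.1 p.2.2 (Real.cos ω)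

theorem chkR_ok {L s N e : ℕ} {p : ℕ × ℕ × ℕ} {φ : ℝ → ℂ} (h : chkR W S L s N e p A = true)
    (hA : Rep true W S A fun ω _ => φ ω) : Near s N e p φ := by
  obtain ⟨b, c, z⟩ := p
  obtain ⟨D, ⟨hD, -⟩, h⟩ := cheb2_ok true W S b L c s z _ h
  obtain ⟨U, hU, h⟩ := sub_ok hA hD _ h
  obtain ⟨U, hU, h⟩ := meas_ok hU _ h
  have := (fin_ok h hU).sm
  rw [shl_eq, one_mul, Nat.cast_pow, Nat.cast_ofNat] at this
  exact this

theorem ldR_ok (W S L : ℕ) {s N e : ℕ} {p : ℕ × ℕ × ℕ} {φ : ℝ → ℂ} (hp : Near s N e p φ) :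
    Ok (ldR W L s N e p) fun T => Rep true W S T fun ω _ => φ ω := fun k h => by
  obtain ⟨b, c, z⟩ := p
  obtain ⟨⟨g, a, n, m, x, s', M, e'⟩, ⟨⟨G, h1, h2, h3⟩, h4⟩, h⟩ := cheb2_ok true W S b L c s z _ h
  dsimp only at *
  obtain ⟨rfl, rfl, rfl, rfl, rfl⟩ := h4
  refine ⟨_, ?_, h⟩
  refine ⟨G, h1, h2, (((hp.smul (2 ^ (s + 1))).er true).congr fun ω θ => ?_).le (le_of_eq ?_)⟩
  · have := (h3.le (by simp)).eq_zero ω θ
    simp only [ang] at this
    push_cast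
    linear_combination this
  · rw [abs_of_pos (by positivity)]
    field_simp

section lists

variable {α : Type} {P : ℕ → α → Prop}

theorem ltl_eq : ∀ l : List α, ltl l = l.tail
  | [] => rfl
  | _ :: _ => rfl

theorem ldrop_eq (l : List α) : ∀ j, ldrop l j = l.drop j
  | 0 => rfl
  | j + 1 => by
    change ltl (ldrop l j) = _
    rw [ldrop_eq l j, ltl_eq, List.tail_drop]

theorem ltake_eq : ∀ (j : ℕ) (l : List α), ltake j l = l.take j
  | 0, _ => rfl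
  | _ + 1, [] => rfl
  | j + 1, a :: l => congrArg (a :: ·) (ltake_eq j l)

theorem All.tail : ∀ {l : List α} {i : ℕ}, All P i l → All P (i + 1) l.tail
  | [], _, _ => trivial
  | _ :: _, _, h => h.2

theorem All.drop {l : List α} {i : ℕ} (h : All P i l) : ∀ j, All P (i + j) (l.drop j)
  | 0 => h
  | j + 1 => by
    rw [← List.tail_drop]
    exact (h.drop j).tail

/-- `P` holds for the first `n` elements. -/
def Upto (P : ℕ → α → Prop) (Z : List α) (n : ℕ) : Prop := All P 0 (Z.take n)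

theorem Upto.zero (P : ℕ → α → Prop) (Z : List α) : Upto P Z 0 := trivial

theorem Upto.step {Z : List α} {j q : ℕ} (h : Upto P Z j) (g : All P j (ltake q (ldrop Z j))) :
    Upto P Z (j + q) := by
  rw [Upto, List.take_add]
  refine h.append ?_
  rw [ltake_eq, ldrop_eq] at g
  by_cases hj : j ≤ Z.length
  · rwa [List.length_take, min_eq_left hj, zero_add]
  · rw [List.drop_eq_nil_of_le (by omega), List.take_nil]
    trivial

theorem Upto.all {Z : List α} {n : ℕ} (h : Upto P Z n) (hn : llen Z = n) : All P 0 Z := by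
  rwa [Upto, ← hn, llen_eq, List.take_length] at h

end lists

/-- The rows have a common shape, and the sums of their bounds are at most `M`, `e`. -/
def Bd (n s x M e : ℕ) (l : List Tab) : Prop :=
  (∀ T ∈ l, T.n = n ∧ T.m = 0 ∧ T.s = s ∧ T.x ≤ x) ∧ (l.map Tab.M).sum ≤ M ∧ (l.map Tab.e).sum ≤ e

theorem Bd.tail {n s x M e : ℕ} : ∀ {l : List Tab}, Bd n s x M e l → Bd n s x M e l.tail
  | [], h => h
  | _ :: _, h => ⟨fun T hT => h.1 T (List.mem_cons_of_mem _ hT),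
    (Nat.le_add_left _ _).trans h.2.1, (Nat.le_add_left _ _).trans h.2.2⟩

theorem sums_ok {n s : ℕ} {k : ℕ → ℕ → ℕ → Bool} : ∀ {l : List Tab} {x0 M0 e0 : ℕ},
    sums n s l x0 M0 e0 k = true → ∃ x, k x ((l.map Tab.M).sum + M0) ((l.map Tab.e).sum + e0) = true ∧
      x0 ≤ x ∧ ∀ T ∈ l, T.n = n ∧ T.m = 0 ∧ T.s = s ∧ T.x ≤ x
  | [], x0, M0, e0, h => ⟨x0, by simpa using show k x0 M0 e0 = true from h, le_rfl, by simp⟩
  | ⟨g, a, n', m, x', s', M, e⟩ :: l, x0, M0, e0, h => by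
    have h' : bnd (bnd (Nat.beq n' n) (bnd (Nat.beq m 0) (Nat.beq s' s)))
      (sums n s l (mx x' x0) (M + M0) (e + e0) k) = true := h
    simp only [bnd_iff, Nat.beq_eq, mx_eq] at h'
    obtain ⟨x, h1, h2, h3⟩ := sums_ok h'.2
    refine ⟨x, by simpa only [List.map_cons, List.sum_cons, add_assoc, add_left_comm] using h1,
      (le_max_right _ _).trans h2, ?_⟩
    rintro T (_ | ⟨_, hT⟩)
    · exact ⟨h'.1.1, h'.1.2.1, h'.1.2.2, (le_max_left _ _).trans h2⟩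
    · exact h3 T hT

variable {sg : Bool} {d : ℤ} {l : List Tab}

theorem tmL_ok (n s : ℕ) (h : RepL b sg W S d l Φ) :
    Ok (tmL W S n s l) fun r => RepL b sg W S d r Φ :=
  RepL.map_id (f := fun T k => trim W S n s T fun T => meas W S T k)
    (fun _ _ hT => (trim_ok n s hT).bind fun _ hT => meas_ok hT) h

theorem opL_ok (L : ℕ) {G0 G1 : Tab} {g0 g1 : ℝ → ℂ} (h0 : Rep true W S G0 fun ω _ => g0 ω)
    (h1 : Rep true W S G1 fun ω _ => g1 ω) (h : RepL true sg W S d l Φ) :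
    Ok (opL W S L G0 G1 l) fun r =>
      RepL true sg W S d r fun ω θ => g0 ω * Φ ω θ + g1 ω * E1 Φ ω θ :=
  (h.map_dx L).bind fun _ hu => (hu.map_mul h1).bind fun _ hu => (h.map_mul h0).bind fun _ hv =>
    addL_ok hv hu

end Pool.Agent.Lib.KTab
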