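import Pool.Agent.Lib.KTab.Lists

/-!
From a list of rows to one table, and from sums of products of functions of one angle to a list of
rows.
-/

namespace Pool.Agent.Lib.KTab

open Finset Complex Pool.Agent.Lib.KLA

/-- The value of a list of numbers with sign in base `2 ^ h`. -/
def hv (h : ℕ) : List (Bool × ℕ) → ℤ
  | [] => 0
  | p :: l => sv p.1 p.2 + 2 ^ h * hv h l

theorem pairs_ok (h : ℕ) : ∀ (l : List (Bool × ℕ)) (c g : Bool) (a : ℕ) (k : List (Bool × ℕ) → Bool),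
    pairs h l c g a k = true → ∃ r, k r = true ∧
      hv (2 * h) r = if c then sv g a + 2 ^ h * hv h l else hv h l
  | [], false, _, _, _, hk => ⟨_, hk, rfl⟩
  | [], true, g, a, _, hk => ⟨[(g, a)], hk, by simp [hv]⟩
  | (g', a') :: l, false, _, _, k, hk => by
    obtain ⟨r, h1, h2⟩ := pairs_ok h l true g' a' k hk
    exact ⟨r, h1, h2⟩
  | (g', a') :: l, true, g, a, k, hk => by
    obtain ⟨g'', c, hc, hk⟩ := sadd_ok hk
    obtain ⟨r, h1, h2⟩ := pairs_ok h l false false 0 _ hk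
    refine ⟨_, h1, ?_⟩
    rw [shl_eq, sv_mul] at hc
    simp only [hv, hc, h2, if_true, Bool.false_eq_true, if_false]
    push_cast
    ring

theorem join_ok : ∀ (L h : ℕ) (l : List (Bool × ℕ)) (k : Bool → ℕ → Bool),
    join L h l k = true → ∃ g a, k g a = true ∧ sv g a = hv h l
  | 0, _, [], _, hk => absurd hk Bool.false_ne_true
  | 0, h, (g, a) :: r, k, hk => by
    obtain ⟨h1, h2⟩ := (bnd_iff _ _).1 hk
    rw [llen_eq, Nat.beq_eq, List.length_eq_zero_iff] at h1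
    exact ⟨g, a, h2, by simp [hv, h1]⟩
  | L + 1, h, l, k, hk => by
    obtain ⟨r, h1, h2⟩ := pairs_ok h l false false 0 _ hk
    obtain ⟨g, a, h3, h4⟩ := join_ok L _ r k h1
    exact ⟨g, a, h3, h4.trans h2⟩

theorem hv_eq (h : ℕ) (p0 : Bool × ℕ) : ∀ l : List (Bool × ℕ),
    hv h l = ∑ j ∈ range l.length, sv (l.getD j p0).1 (l.getD j p0).2 * 2 ^ (h * j)
  | [] => rfl
  | p :: l => by
    rw [hv, hv_eq h p0 l, List.length_cons, sum_range_succ', mul_sum, add_comm]
    simp only [List.getD_cons_zero, List.getD_cons_succ, mul_zero, pow_zero, mul_one]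
    congr 1
    exact sum_congr rfl fun j _ => by ring

theorem hv_rev (h : ℕ) (p0 : Bool × ℕ) : ∀ l r : List (Bool × ℕ), hv h (lrev l r) =
    hv h r * 2 ^ (h * l.length) +
      ∑ j ∈ range l.length, sv (l.getD j p0).1 (l.getD j p0).2 * 2 ^ (h * (l.length - 1 - j))
  | [], r => by simp [lrev]
  | p :: l, r => by
    change hv h (lrev l (p :: r)) = _
    rw [hv_rev h p0 l, hv, List.length_cons, sum_range_succ']
    simp only [List.getD_cons_zero, List.getD_cons_succ, Nat.add_sub_cancel, Nat.sub_zero]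
    simp only [show ∀ j, l.length - 1 - j = l.length - (j + 1) from fun j => by omega]
    ring

variable {b sg : Bool} {W S : ℕ} {l : List Tab} {A : Tab} {Φ : ℝ → ℝ → ℂ}

theorem liftR_ok (n s : ℕ) (hA : Rep b W S A Φ) :
    Ok (liftR W S n s A) fun T => Rep b W S T Φ ∧ T.n = n ∧ T.m = 0 ∧ T.s = s := fun k h => by
  obtain ⟨g, a, n', m, x, s', M, e⟩ := A
  simp only [liftR, use_mk, cnd_eq, Nat.add_eq, Nat.beq_eq] at h
  split_ifs at h with h0
  · refine ⟨_, ⟨⟨_, by simpa using Fam.zero ⊥ n 0, by simp [sv], ?_⟩, rfl, rfl, rfl⟩, h⟩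
    refine (((Sm.zero _ _).er b).congr fun ω θ => ?_).le (by simp)
    simp [hA.eq_zero h0, tr]
  · exact lift_ok _ _ _ hA k h

theorem sv_bx' (g h : Bool) (a : ℕ) : sv (bx g h) a = (if g then -1 else 1) * sv h a := by
  cases g <;> cases h <;> simp [sv, bx, nt, cnd]

theorem flat_ok (S' L n s : ℕ) {d : ℕ} (h : RepL b sg W S d l Φ) :
    Ok (flat sg W S S' L n s d l) fun T => Rep b W S' T Φ := fun k hk => by
  obtain ⟨φ, h1, h2⟩ := h
  obtain ⟨u, ⟨hu, hlen⟩, hk⟩ := mapK_ok (fun j T hT => liftR_ok n s hT) l 0 h1 _ hk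
  simp only [strict_eq, llen_eq, bnd_iff, Nat.ble_eq, Nat.add_eq, Nat.mul_eq, Nat.sub_eq,
    lmap_eq] at hk
  obtain ⟨hd, hk⟩ := hk
  obtain ⟨g, a, hk, ha⟩ := join_ok _ _ _ _ hk
  obtain ⟨g', a', hk, ha'⟩ := join_ok _ _ _ _ hk
  rw [shl_eq'] at hk
  obtain ⟨g'', c, hc, hk⟩ := sadd_ok hk
  rw [← hlen] at h2
  obtain ⟨T, hT⟩ : ∃ T : ℕ → Tab, T = fun j => u.getD j (cst false 0 0) := ⟨_, rfl⟩
  obtain ⟨⟨x, M, e⟩, ⟨f1, f2, f3⟩, hk⟩ := foldK_ok (P := fun j a => a = T j)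
    (J := fun j (p : ℕ × ℕ × ℕ) => (∀ i < j, (T i).x ≤ p.1) ∧ p.2.1 = ∑ i ∈ range j, (T i).M ∧
      p.2.2 = ∑ i ∈ range j, (T i).e) (fun j A p hA hp k hk => by
        obtain ⟨g, a, n, m, x, s, M, e⟩ := A
        obtain ⟨x', M', e'⟩ := p
        dsimp only at hp
        refine ⟨(max x x', M + M', e + e'), ⟨fun i hi => ?_, ?_, ?_⟩, by rw [← mx_eq]; exact hk⟩
        · rcases Nat.lt_succ_iff_lt_or_eq.1 hi with hi | rfl
          · exact (hp.1 i hi).trans (le_max_right _ _)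
          · rw [← hA]
            exact le_max_left _ _
        · rw [sum_range_succ, ← hp.2.1, ← hA]
          exact add_comm _ _
        · rw [sum_range_succ, ← hp.2.2, ← hA]
          exact add_comm _ _)
    u 0 (0, 0, 0) (hT ▸ all_self u _) ⟨by simp, rfl, rfl⟩ _ hk
  simp only [usep_mk, mkT_eq, zero_add] at hk f1 f2 f3
  have t1 : ∀ j, j < u.length → ∃ G, Fam ⊥ n 0 (T j).M G ∧
      (sv (T j).neg (T j).mag : ℂ) = G (2 ^ W) (2 ^ (W * S')) ∧
      Er b (n + 2 * (T j).x) 0 (T j).e fun ω θ => 2 ^ s * φ j ω - tr n 0 G ω θ := fun j hj => by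
    obtain ⟨r1, r2, r3, r4⟩ := hu.get (cst false 0 0) hj
    have := r1.stride r3 S'
    rw [hT]
    rwa [Rep, r2, r3, r4] at this
  choose! G g1 g2 g3 using t1
  have e0 : ∀ j, (u.map fun A : Tab => A.use fun g a _ _ _ _ _ _ => (g, a)).getD j (false, 0) =
      ((T j).neg, (T j).mag) := fun j => by
    rw [hT]
    exact List.getD_map u (cst false 0 0) (fun A : Tab => A.use fun g a _ _ _ _ _ _ => (g, a))
  rw [hv_eq _ (false, 0)] at ha
  rw [hv_rev _ (false, 0), hv, zero_mul, zero_add] at ha'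
  simp only [e0, List.length_map] at ha ha'
  rw [sv_mul, sv_bx', ha, ha'] at hc
  generalize u.length = J at *
  obtain ⟨σ, hσ⟩ : ∃ σ : ℤ, σ = if sg then -1 else 1 := ⟨_, rfl⟩
  have hσ1 : |(σ : ℝ)| = 1 := by rw [hσ]; cases sg <;> simp
  have c1 : ∀ j ∈ range J, Fam ⊥ 0 (2 * (J - 1) - d) 2
      fun _ w => w ^ (J - (d + 1) + j) + σ * w ^ (J - 1 - j) := fun j hj => by
    have hj := mem_range.1 hj
    refine ((((Fam.mon (int_mem 1) 0 (J - (d + 1) + j)).mono le_rfl (by omega) le_rfl).add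
      ((Fam.mon (int_mem σ) 0 (J - 1 - j)).mono le_rfl (by omega) le_rfl)).congr
        fun z w => by simp).mono le_rfl le_rfl (by rw [hσ1]; norm_num)
  have c2 : ∀ j ∈ range J, ∀ ω θ, tr 0 (2 * (J - 1) - d)
      (fun _ w => w ^ (J - (d + 1) + j) + σ * w ^ (J - 1 - j)) ω θ =
        2 * bas sg (2 * j - (d : ℤ)) θ := fun j hj ω θ => by
    have hj := mem_range.1 hj
    obtain ⟨q, rfl⟩ : ∃ q, J = d + 1 + q := ⟨J - (d + 1), by omega⟩
    obtain ⟨p, hp⟩ : ∃ p, d + q = j + p := ⟨d + q - j, by omega⟩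
    have hp' : (p : ℝ) = d + q - j := by
      have : (d : ℝ) + q = j + p := by exact_mod_cast hp
      linarith
    rw [show d + 1 + q - (d + 1) + j = q + j by omega, show d + 1 + q - 1 - j = p by omega,
      show 2 * (d + 1 + q - 1) - d = d + 2 * q by omega, tr, bas, add_mul, mul_assoc, ex_pow, ex_pow,
      ← ex_add, ← ex_add, hσ]
    push_cast
    rw [hp', mul_div_cancel₀ _ two_ne_zero]
    congr 2
    · ring
    · congr 1
      ring
  refine ⟨_, ?_, hk⟩
  refine ⟨_, (Fam.sum (range J) fun j hj => by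
    simpa only [add_zero, zero_add] using (g1 j (mem_range.1 hj)).mul (c1 j hj)).mono le_rfl le_rfl
      ?_, ?_, ?_⟩ <;> dsimp only
  · rw [f2, ← sum_mul]
    push_cast
    rw [mul_comm]
  · rw [hc, ← hσ]
    push_cast
    rw [sum_mul, mul_sum, ← sum_add_distrib]
    refine sum_congr rfl fun j hj => ?_
    rw [← g2 j (mem_range.1 hj), ← pow_mul, ← pow_mul]
    ring
  · refine ((Er.sum (range J) fun j hj => ((g3 j (mem_range.1 hj)).mul ((c1 j hj).sm.er b)).box
      (n' := n + 2 * x) (by have := f1 j (mem_range.1 hj); omega) (by omega) (by omega)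
      (by omega)).congr fun ω θ => ?_).le (le_of_eq ?_)
    · rw [h2, tr, mul_sum, sum_mul, ← sum_sub_distrib]
      refine sum_congr rfl fun j hj => ?_
      have := tr_mul n 0 0 (2 * (J - 1) - d) (G j)
        (fun _ w => w ^ (J - (d + 1) + j) + σ * w ^ (J - 1 - j)) ω θ
      rw [add_zero, zero_add, tr] at this
      rw [this, c2 j hj]
      ring
    · rw [f3, ← sum_mul]
      push_cast
      rw [mul_comm]

/-- The coefficient of `cos (j θ)` in `∑ q i * cos ((2 i - n) θ)`. -/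
noncomputable def fold (n : ℕ) (q : ℕ → ℝ) (j : ℕ) : ℝ :=
  if j ≤ n then if j = 0 then q (n / 2) else q ((n + j) / 2) + q ((n - j) / 2) else 0

theorem fold_sum {n ε J : ℕ} (q : ℕ → ℝ) (hε : ε ≤ 1) (hn : (n + ε) % 2 = 0) (hJ : n < ε + 2 * J)
    (θ : ℝ) : ∑ i ∈ range (n + 1), q i * Real.cos ((2 * i - n) * θ) =
      ∑ j ∈ range J, fold n q (2 * j + ε) * Real.cos ((2 * j + ε) * θ) := by
  have hm : ∀ i ∈ range (n + 1), (max (2 * i - n) (n - 2 * i)) / 2 ∈ range J := fun i hi => by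
    rw [mem_range] at hi ⊢
    omega
  rw [← sum_fiberwise_of_maps_to hm]
  refine sum_congr rfl fun j _ => ?_
  rw [fold]
  split_ifs with h1 h2
  · rw [show (range (n + 1)).filter (fun i => max (2 * i - n) (n - 2 * i) / 2 = j) = {n / 2} by
      ext i
      simp only [mem_filter, mem_range, mem_singleton]
      omega, sum_singleton]
    obtain ⟨p, rfl⟩ : ∃ p, n = 2 * p := ⟨n / 2, by omega⟩
    obtain rfl : j = 0 := by omega
    obtain rfl : ε = 0 := by omega
    simp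
  · rw [show (range (n + 1)).filter (fun i => max (2 * i - n) (n - 2 * i) / 2 = j) =
        {(n + (2 * j + ε)) / 2, (n - (2 * j + ε)) / 2} by
      ext i
      simp only [mem_filter, mem_range, mem_insert, mem_singleton]
      omega, sum_pair (by omega), add_mul]
    obtain ⟨p, rfl⟩ : ∃ p, n = 2 * j + ε + 2 * p := ⟨(n - (2 * j + ε)) / 2, by omega⟩
    rw [show (2 * j + ε + 2 * p + (2 * j + ε)) / 2 = 2 * j + ε + p by omega,
      show (2 * j + ε + 2 * p - (2 * j + ε)) / 2 = p by omega, ← Real.cos_neg ((2 * p - _) * θ)]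
    push_cast
    ring_nf
  · rw [zero_mul]
    refine sum_eq_zero fun i hi => ?_
    simp only [mem_filter, mem_range] at hi
    omega

theorem cosc_ok {V : ℕ} {f : ℝ → ℝ} (N : ℕ) (hA : Rep true V S A (ang fun x _ => f x)) :
    ∃ a : ℕ → ℝ, ∀ j, Ok (cosc V S N A j) fun T => (∀ b W S', Rep b W S' T fun _ _ => a j) ∧
      ∀ ε J, ε ≤ 1 → (j + ε) % 2 = 0 → N < ε + 2 * J → ∀ θ, f (Real.cos θ) =
        ∑ i ∈ range J, a (2 * i + ε) * Real.cos ((2 * i + ε) * θ) := by
  obtain ⟨g, a, n, m, x, s, M, e⟩ := A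
  by_cases hc : m = 0 ∧ x = 0 ∧ n < S
  swap
  · refine ⟨0, fun j k h => absurd ?_ hc⟩
    simp only [cosc, use_mk, bnd_iff, Nat.beq_eq, Nat.ble_eq] at h
    exact ⟨h.1.1.1, h.1.1.2, h.1.2.2.2⟩
  obtain ⟨rfl, rfl, hS⟩ := hc
  obtain ⟨G, h1, h2, h3⟩ := hA
  obtain ⟨E, e1, e2⟩ := h3.sm
  dsimp only at *
  obtain ⟨v, v1, -, v3⟩ := h1.digits hS
  obtain ⟨r, -, r1, -, r3⟩ := e1.collect hS
  rw [v3, dg_pk] at h2
  obtain rfl : G = _ := funext fun z => funext fun w => v3 z w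
  obtain rfl : E = _ := funext fun z => funext fun w => r3 z w
  simp only [mul_zero, add_zero] at e2 r1
  have e3 : ∀ θ, f (Real.cos θ) =
      ∑ i ∈ range (n + 1), (v i + r i) / 2 ^ s * Real.cos ((2 * i - n) * θ) := fun θ => by
    have := congrArg re (e2 θ 0)
    rw [tr_row hS, tr_row hS, ang, show (2 : ℂ) ^ s = ((2 ^ s : ℝ) : ℂ) by simp, ← ofReal_mul] at this
    simp only [sub_re, ofReal_re, re_sum, re_ofReal_mul, ex_re, add_zero] at this
    simp only [div_mul_eq_mul_div, add_mul, ← sum_div, sum_add_distrib]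
    rw [eq_div_iff (by positivity)]
    linarith
  refine ⟨fold n fun i => (v i + r i) / 2 ^ s, fun j k h => ?_⟩
  simp only [cosc, use_mk, bnd_iff, Nat.beq_eq, Nat.ble_eq, cnd_eq, strict_eq, Nat.add_eq, mod_eq',
    Nat.sub_eq] at h
  obtain ⟨⟨-, hj, hN, -⟩, h⟩ := h
  have key : ∀ ε J, ε ≤ 1 → (j + ε) % 2 = 0 → N < ε + 2 * J → ∀ θ, f (Real.cos θ) =
      ∑ i ∈ range J, fold n (fun i => (v i + r i) / 2 ^ s) (2 * i + ε) *
        Real.cos ((2 * i + ε) * θ) := fun ε J h1 h2 h3 θ => by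
    rw [e3, fold_sum (J := J) _ h1 (by omega) (by omega)]
  have hp : (0 : ℝ) < 2 ^ s := by positivity
  have cs : ∀ (g : Bool) (a : ℕ) (c : ℝ), |2 ^ s * c - sv g a| ≤ e →
      ∀ b W S', Rep b W S' ⟨g, a, 0, 0, 0, s, a, e⟩ fun _ _ => c :=
    fun g a c h b W S' => rep_const b W S' g a s e h
  by_cases j1 : j ≤ n
  · rw [if_pos j1] at h
    obtain ⟨y, hk, hw, -, hy, -⟩ := dig_core h v1 (by exact_mod_cast h2)
    have dy : ∀ i ≤ n, (dgt V y i : ℤ) = v i + 2 ^ (V - 2) := fun i hi => by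
      rw [dgt, land_shr, Nat.mul_eq, hy.ent (two_mul_lt hw) (by omega)]
      push_cast
      rfl
    simp only [div_eq', shl_eq, one_mul] at hk
    split_ifs at hk with j2
    · obtain ⟨g', c, hc, hk⟩ := ssub_ok hk
      refine ⟨_, ⟨cs g' c _ ?_, key⟩, hk⟩
      rw [fold, if_pos j1, if_pos j2, mul_div_cancel₀ _ hp.ne', hc, dy _ (by omega)]
      push_cast
      rw [add_sub_cancel_right, add_sub_cancel_left]
      exact (single_le_sum (f := fun i => |r i|) (fun _ _ => abs_nonneg _)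
        (mem_range.2 (by omega))).trans r1
    · obtain ⟨g', c, hc, hk⟩ := ssub_ok hk
      refine ⟨_, ⟨cs g' c _ ?_, key⟩, hk⟩
      rw [fold, if_pos j1, if_neg j2, ← add_div, mul_div_cancel₀ _ hp.ne', hc, Nat.cast_add,
        dy _ (by omega), dy _ (by omega)]
      push_cast
      have t1 := sum_le_sum_of_subset_of_nonneg (s := {(n + j) / 2, (n - j) / 2}) (t := range (n + 1))
        (f := fun i => |r i|) (fun i hi => by
          simp only [mem_insert, mem_singleton] at hi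
          rw [mem_range]
          omega) fun _ _ _ => abs_nonneg _
      rw [sum_pair (by omega)] at t1
      refine le_trans (le_of_eq ?_) ((abs_add_le _ _).trans (t1.trans r1))
      congr 1
      ring
  · rw [if_neg j1] at h
    exact ⟨_, ⟨fun b W S' => (zero_rep b W S').congr fun _ _ => by rw [fold, if_neg j1]; rfl, key⟩, h⟩

/-- The rows of a sum of products. -/
theorem syn_ok {V : ℕ} {L : List (Tab × Tab)} {R : ℕ → ℝ → ℂ} {f : ℕ → ℝ → ℝ} (N : ℕ)
    (hL : All (fun i p => Rep b W S p.1 (fun ω _ => R i ω) ∧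
      Rep true V S p.2 (ang fun x _ => f i x)) 0 L) :
    ∃ φ : ℕ → ℝ → ℂ, ∀ j, Ok (syn W V S N L j) fun T => Rep b W S T (fun ω _ => φ j ω) ∧
      ∀ ε J, ε ≤ 1 → (j + ε) % 2 = 0 → N < ε + 2 * J → ∀ ω θ,
        ∑ i ∈ range L.length, R i ω * f i (Real.cos θ) =
          ∑ i ∈ range J, φ (2 * i + ε) ω * bas false (2 * i - (-ε : ℤ)) θ := by
  obtain ⟨p, hp⟩ : ∃ p : ℕ → Tab × Tab, p = fun i => L.getD i (cst false 0 0, cst false 0 0) := ⟨_, rfl⟩
  have t1 : ∀ i, i < L.length → _ := fun i hi => cosc_ok N (hL.get (cst false 0 0, cst false 0 0) hi).2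
  choose! a ha using t1
  refine ⟨fun j ω => ∑ i ∈ range L.length, a i j * R i ω, fun j => ?_⟩
  have := foldK_ok (P := fun i q => i < L.length ∧ Rep b W S q.1 (fun ω _ => R i ω) ∧ q = p i)
    (J := fun i T => Rep b W S T (fun ω _ => ∑ i ∈ range i, a i j * R i ω) ∧
      ∀ i' < i, ∀ ε J, ε ≤ 1 → (j + ε) % 2 = 0 → N < ε + 2 * J → ∀ θ, f i' (Real.cos θ) =
        ∑ i ∈ range J, a i' (2 * i + ε) * Real.cos ((2 * i + ε) * θ))
    (f := fun _ p T k => usep p fun R A => cosc V S N A j fun c => mul c R fun P => add W S T P k)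
    (fun i q T hq hT k hk => by
      obtain ⟨q1, q2⟩ := q
      have := ha i hq.1 j
      rw [show L.getD i (cst false 0 0, cst false 0 0) = (q1, q2) by rw [hq.2.2, hp]] at this
      beta_reduce at hk
      rw [usep_mk] at hk
      obtain ⟨c, hc, hk⟩ := this _ hk
      obtain ⟨P, hP, hk⟩ := mul_ok (hc.1 b W S) hq.2.1 _ hk
      obtain ⟨U, hU, hk⟩ := add_ok hT.1 hP _ hk
      refine ⟨U, ⟨hU.congr fun ω _ => sum_range_succ _ _, fun i' hi' => ?_⟩, hk⟩
      rcases Nat.lt_succ_iff_lt_or_eq.1 hi' with h | rfl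
      · exact hT.2 i' h
      · exact hc.2)
    L 0 (cst false 0 0) ((hL.and (all_self L (cst false 0 0, cst false 0 0))).mono'
      fun i q _ h2 h => ⟨by simpa using h2, h.1.1, by rw [hp]; exact h.2⟩)
    ⟨(zero_rep b W S).congr fun _ _ => sum_range_zero _, fun _ h => absurd h (Nat.not_lt_zero _)⟩
  rw [zero_add] at this
  refine this.mono fun T hT => ⟨hT.1, fun ε J h1 h2 h3 ω θ => ?_⟩
  simp only [sum_mul]
  rw [sum_comm]
  refine sum_congr rfl fun i hi => ?_
  rw [hT.2 i (mem_range.1 hi) ε J h1 h2 h3, ofReal_sum, mul_sum]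
  refine sum_congr rfl fun i' _ => ?_
  rw [bas_false, ofReal_mul]
  push_cast
  ring_nf

/-- Stored rows are checked against the rows of a sum of products of parity `ε`. -/
theorem syn_check {α : Type} {V : ℕ} {L : List (Tab × Tab)} {R : ℕ → ℝ → ℂ} {f : ℕ → ℝ → ℝ}
    {N ε : ℕ} (hL : All (fun i p => Rep b W S p.1 (fun ω _ => R i ω) ∧
      Rep true V S p.2 (ang fun x _ => f i x)) 0 L) {Z : List α} {t : α → Tab → Bool} {D : α → Tab}
    {W' S' : ℕ} (ht : ∀ z T Φ, t z T = true → Rep b W S T Φ → Rep b W' S' (D z) Φ)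
    (h : allL (fun j z => syn W V S N L (Nat.add (Nat.mul 2 j) ε) (t z)) Z 0 = true) (hε : ε ≤ 1)
    (hN : N < ε + 2 * Z.length) (hZ : 0 < Z.length) :
    RepL b false W' S' (-ε) (lmap D Z)
      fun ω θ => ∑ i ∈ range L.length, R i ω * f i (Real.cos θ) := by
  obtain ⟨φ, hφ⟩ := syn_ok N hL
  have h1 := allL_ok h
  refine ⟨fun j => φ (2 * j + ε), All.lmap (h1.mono fun j z hz => ?_), fun ω θ => ?_⟩
  · obtain ⟨T, hT, hz⟩ := hφ _ _ hz
    exact ht z T _ hz hT.1
  · obtain ⟨z, Z, rfl⟩ := List.exists_cons_of_length_pos hZ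
    obtain ⟨T, hT, -⟩ := hφ _ _ h1.1
    rw [lmap_eq, List.length_map]
    exact hT.2 ε _ hε (by simp only [Nat.add_eq, Nat.mul_eq]; omega) hN ω θ

/-- The list of the rows of a sum of products of parity `ε`, one for each element of `Z`. -/
theorem syn_map {α : Type} {V : ℕ} {L : List (Tab × Tab)} {R : ℕ → ℝ → ℂ} {f : ℕ → ℝ → ℝ}
    {N ε : ℕ} (hL : All (fun i p => Rep b W S p.1 (fun ω _ => R i ω) ∧
      Rep true V S p.2 (ang fun x _ => f i x)) 0 L) (Z : List α) (hε : ε ≤ 1)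
    (hN : N < ε + 2 * Z.length) (hZ : 0 < Z.length) :
    Ok (mapK (fun j _ => syn W V S N L (Nat.add (Nat.mul 2 j) ε)) Z 0) fun r =>
      RepL b false W S (-ε) r fun ω θ => ∑ i ∈ range L.length, R i ω * f i (Real.cos θ) := by
  obtain ⟨φ, hφ⟩ := syn_ok N hL
  have h1 := mapK_ok (P := fun _ _ => True)
    (f := fun j _ => syn W V S N L (Nat.add (Nat.mul 2 j) ε)) (fun j _ _ => hφ _) Z 0
    ((all_self Z Z[0]).mono fun _ _ _ => trivial)
  refine h1.mono fun r hr => ⟨fun j => φ (2 * j + ε), hr.1.mono fun j T hT => hT.1, fun ω θ => ?_⟩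
  have h2 := (hr.1.get (cst false 0 0) (j := 0) (by rw [hr.2]; exact hZ)).2
  rw [hr.2]
  exact h2 ε _ hε (by simp only [Nat.add_eq, Nat.mul_eq]; omega) hN ω θ

end Pool.Agent.Lib.KTab
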