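import Pool.Agent.Lib.KTab.Row

/-!
Loops, and lists of rows: a function of two angles as a sum of rows times cosines or sines.
-/

namespace Pool.Agent.Lib.KTab

open Finset Complex Pool.Agent.Lib.KLA

/-- `P (i + j)` holds for element `j`. -/
def All {α : Type} (P : ℕ → α → Prop) : ℕ → List α → Prop
  | _, [] => True
  | i, a :: l => P i a ∧ All P (i + 1) l

section loops

variable {α β σ : Type} {P Q : ℕ → α → Prop}

theorem All.mono' : ∀ {l : List α} {i : ℕ}, All P i l →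
    (∀ j a, i ≤ j → j < i + l.length → P j a → Q j a) → All Q i l
  | [], _, _, _ => trivial
  | _ :: l, i, h, f => ⟨f _ _ le_rfl (by simp) h.1, h.2.mono' fun j a h1 h2 =>
      f j a (by omega) (by rw [List.length_cons]; omega)⟩

theorem All.mono {l : List α} {i : ℕ} (h : All P i l) (f : ∀ j a, P j a → Q j a) : All Q i l :=
  h.mono' fun j a _ _ => f j a

theorem All.and : ∀ {l : List α} {i : ℕ}, All P i l → All Q i l → All (fun j a => P j a ∧ Q j a) i l
  | [], _, _, _ => trivial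
  | _ :: _, _, h, g => ⟨⟨h.1, g.1⟩, h.2.and g.2⟩

theorem all_shift (c : ℕ) : ∀ {l : List α} {i : ℕ}, All (fun j => P (j + c)) i l ↔ All P (i + c) l
  | [], _ => Iff.rfl
  | _ :: _, i => and_congr Iff.rfl (by rw [all_shift c, Nat.add_right_comm])

theorem All.append : ∀ {l r : List α} {i : ℕ}, All P i l → All P (i + l.length) r → All P i (l ++ r)
  | [], _, _, _, h => h
  | _ :: l, _, i, h, g => ⟨h.1, h.2.append (by
      rwa [List.length_cons, add_comm l.length, ← add_assoc] at g)⟩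

theorem all_iff (d : α) : ∀ {l : List α} {i : ℕ},
    All P i l ↔ ∀ j < l.length, P (i + j) (l.getD j d)
  | [], _ => by simp [All]
  | a :: l, i => by
    rw [All, all_iff d, List.length_cons, Nat.forall_lt_succ_left]
    simp only [List.getD_cons_zero, List.getD_cons_succ, add_zero, add_assoc, add_comm 1]

theorem All.get {l : List α} (h : All P 0 l) (d : α) {j : ℕ} (hj : j < l.length) :
    P j (l.getD j d) := by
  simpa using (all_iff d).1 h j hj

theorem all_self (l : List α) (d : α) : All (fun j a => a = l.getD j d) 0 l :=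
  (all_iff d).2 fun j _ => by rw [zero_add]

theorem mapK_ok {Q : ℕ → β → Prop} {f : ℕ → α → (β → Bool) → Bool}
    (hf : ∀ j a, P j a → Ok (f j a) (Q j)) : ∀ (l : List α) (i : ℕ), All P i l →
      Ok (mapK f l i) fun r => All Q i r ∧ r.length = l.length
  | [], _, _ => fun _ h => ⟨[], ⟨trivial, rfl⟩, h⟩
  | a :: l, i, hl => fun _ h => by
    obtain ⟨b, hb, h⟩ := hf i a hl.1 _ h
    obtain ⟨r, hr, h⟩ := mapK_ok hf l (i + 1) hl.2 _ h
    exact ⟨b :: r, ⟨⟨hb, hr.1⟩, congrArg Nat.succ hr.2⟩, h⟩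

theorem iterK_ok {f : ℕ → α → (α → Bool) → Bool} (hf : ∀ j a, P j a → Ok (f j a) (P (j + 1))) :
    ∀ (n i : ℕ) (a : α), P i a → Ok (iterK f n i a) fun r => All P i r ∧ r.length = n
  | 0, _, _, _ => fun _ h => ⟨[], ⟨trivial, rfl⟩, h⟩
  | n + 1, i, a, ha => fun _ h => by
    obtain ⟨b, hb, h⟩ := hf i a ha _ h
    obtain ⟨r, hr, h⟩ := iterK_ok hf n (i + 1) b hb _ h
    exact ⟨a :: r, ⟨⟨ha, hr.1⟩, congrArg Nat.succ hr.2⟩, h⟩

theorem foldK_ok {J : ℕ → σ → Prop} {f : ℕ → α → σ → (σ → Bool) → Bool}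
    (hf : ∀ j a s, P j a → J j s → Ok (f j a s) (J (j + 1))) : ∀ (l : List α) (i : ℕ) (s : σ),
      All P i l → J i s → Ok (foldK f l i s) (J (i + l.length))
  | [], _, s, _, hs => fun _ h => ⟨s, hs, h⟩
  | a :: l, i, s, hl, hs => fun k h => by
    obtain ⟨t, ht, h⟩ := hf i a s hl.1 hs _ h
    rw [List.length_cons, add_comm l.length, ← add_assoc]
    exact foldK_ok hf l (i + 1) t hl.2 ht k h

theorem allL_ok {f : ℕ → α → Bool} : ∀ {l : List α} {i : ℕ}, allL f l i = true →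
    All (fun j a => f j a = true) i l
  | [], _, _ => trivial
  | _ :: _, _, h => ⟨((bnd_iff _ _).1 h).1, allL_ok ((bnd_iff _ _).1 h).2⟩

theorem lmap_eq (f : α → β) : ∀ l : List α, lmap f l = l.map f
  | [] => rfl
  | a :: l => congrArg (f a :: ·) (lmap_eq f l)

theorem llen_eq : ∀ l : List α, llen l = l.length
  | [] => rfl
  | _ :: l => congrArg Nat.succ (llen_eq l)

theorem All.lmap {Q : ℕ → β → Prop} {f : α → β} : ∀ {l : List α} {i : ℕ},
    All (fun j a => Q j (f a)) i l → All Q i (lmap f l)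
  | [], _, _ => trivial
  | _ :: _, _, h => ⟨h.1, All.lmap h.2⟩

theorem All.lzip {Q : ℕ → β → Prop} : ∀ {l : List α} {r : List β} {i : ℕ}, All P i l → All Q i r →
    All (fun j p => P j p.1 ∧ Q j p.2) i (lzip l r)
  | [], _, _, _, _ => trivial
  | _ :: _, [], _, _, _ => trivial
  | _ :: _, _ :: _, _, h, g => ⟨⟨h.1, g.1⟩, h.2.lzip g.2⟩

theorem lzip_len : ∀ (l : List α) (r : List β), (lzip l r).length = min l.length r.length
  | [], _ => by simp [lzip]
  | _ :: _, [] => by simp [lzip]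
  | a :: l, b :: r => by
    change ((a, b) :: lzip l r).length = _
    simp [lzip_len l r]

end loops

/-- `cos (k θ)`, or `i sin (k θ)`. -/
noncomputable def bas (sg : Bool) (k θ : ℝ) : ℂ :=
  (ex (k * θ) + (if sg then -1 else 1) * ex (-(k * θ))) / 2

theorem bas_false (k θ : ℝ) : bas false k θ = Real.cos (k * θ) := by
  rw [bas]
  simp only [Bool.false_eq_true, if_false]
  linear_combination (-1 / 2) * two_cos_ex (k * θ)

theorem bas_true (k θ : ℝ) : bas true k θ = I * Real.sin (k * θ) := by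
  rw [bas]
  simp only [if_true]
  linear_combination (-1 / 2) * two_sin_ex (k * θ)

theorem bas_cos (sg : Bool) (k θ : ℝ) :
    Real.cos θ * bas sg k θ = (bas sg (k - 1) θ + bas sg (k + 1) θ) / 2 := by
  simp only [bas, sub_eq_add_neg, add_mul, neg_add, ex_add, neg_mul, one_mul, neg_neg]
  linear_combination (ex (k * θ) + (if sg then -1 else 1) * ex (-(k * θ))) / 4 * two_cos_ex θ

theorem bas_sin (sg : Bool) (k θ : ℝ) :
    -(I * Real.sin θ) * bas sg k θ = (bas (!sg) (k - 1) θ - bas (!sg) (k + 1) θ) / 2 := by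
  simp only [bas, sub_eq_add_neg, add_mul, neg_add, ex_add, neg_mul, one_mul, neg_neg]
  cases sg
  · simp only [Bool.not_false, if_true, Bool.false_eq_true, if_false]
    linear_combination -(ex (k * θ) + ex (-(k * θ))) / 4 * two_sin_ex θ
  · simp only [Bool.not_true, if_true, Bool.false_eq_true, if_false]
    linear_combination -(ex (k * θ) - ex (-(k * θ))) / 4 * two_sin_ex θ

theorem bas_deriv (sg : Bool) (k θ : ℝ) :
    HasDerivAt (fun θ => bas sg k θ) (I * (k * bas (!sg) k θ)) θ := by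
  have h1 := hasDerivAt_ex k 0 θ
  have h2 := hasDerivAt_ex (-k) 0 θ
  simp only [add_zero, neg_mul] at h1 h2
  refine ((h1.fun_add (h2.const_mul (if sg then -1 else 1 : ℂ))).div_const 2).congr_deriv ?_
  cases sg <;> simp [bas] <;> ring

/-- The rows `l` describe `Φ`; row `j` goes with the frequency `2 j - d` in the second angle. -/
def RepL (b sg : Bool) (W S : ℕ) (d : ℤ) (l : List Tab) (Φ : ℝ → ℝ → ℂ) : Prop :=
  ∃ φ : ℕ → ℝ → ℂ, All (fun j T => Rep b W S T fun ω _ => φ j ω) 0 l ∧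
    ∀ ω θ, Φ ω θ = ∑ j ∈ range l.length, φ j ω * bas sg (2 * j - d) θ

variable {b sg : Bool} {W S : ℕ} {d : ℤ} {l r : List Tab} {Φ Ψ : ℝ → ℝ → ℂ}

theorem RepL.congr (h : RepL b sg W S d l Φ) (e : ∀ ω θ, Ψ ω θ = Φ ω θ) : RepL b sg W S d l Ψ := by
  rwa [show Ψ = Φ from funext fun z => funext fun w => e z w]

theorem RepL.weak (h : RepL b sg W S d l Φ) : RepL false sg W S d l Φ := by
  obtain ⟨φ, h1, h2⟩ := h
  exact ⟨φ, h1.mono fun _ _ => Rep.weak, h2⟩

theorem RepL.cons (h : RepL b sg W S d l Φ) : RepL b sg W S (d + 2) (cst false 0 0 :: l) Φ := by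
  obtain ⟨φ, h1, h2⟩ := h
  refine ⟨fun j => Nat.rec (fun _ => 0) (fun j _ => φ j) j, ⟨zero_rep b W S, (all_shift 1).1 h1⟩,
    fun ω θ => ?_⟩
  rw [List.length_cons, sum_range_succ', h2]
  simp only [Nat.rec_zero, zero_mul, add_zero]
  refine sum_congr rfl fun j _ => ?_
  congr 2
  push_cast
  ring

/-- An operation that keeps the function, on all rows. -/
theorem RepL.map_id {b' : Bool} {W' S' : ℕ} {f : Tab → (Tab → Bool) → Bool}
    (hf : ∀ T Φ, Rep b W S T Φ → Ok (f T) fun T => Rep b' W' S' T Φ) (h : RepL b sg W S d l Φ) :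
    Ok (mapK (fun _ => f) l 0) fun r => RepL b' sg W' S' d r Φ := by
  obtain ⟨φ, h1, h2⟩ := h
  exact (mapK_ok (fun j T hT => hf T _ hT) l 0 h1).mono fun r hr => ⟨φ, hr.1, hr.2 ▸ h2⟩

/-- The product with a row. -/
theorem RepL.map_mul {G : Tab} {g : ℝ → ℂ} (hG : Rep b W S G fun ω _ => g ω)
    (h : RepL b sg W S d l Φ) :
    Ok (mapK (fun _ => mul G) l 0) fun r => RepL b sg W S d r fun ω θ => g ω * Φ ω θ := by
  obtain ⟨φ, h1, h2⟩ := h
  refine (mapK_ok (fun j T hT => mul_ok hG hT) l 0 h1).mono fun r hr =>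
    ⟨fun j ω => g ω * φ j ω, hr.1, fun ω θ => ?_⟩
  simp only [h2, hr.2, mul_sum, mul_assoc]

theorem RepL.map_neg (h : RepL b sg W S d l Φ) :
    Ok (mapK (fun _ => neg) l 0) fun r => RepL b sg W S d r fun ω θ => -Φ ω θ := by
  obtain ⟨φ, h1, h2⟩ := h
  refine (mapK_ok (fun j T hT => neg_ok hT) l 0 h1).mono fun r hr =>
    ⟨fun j ω => -φ j ω, hr.1, fun ω θ => ?_⟩
  simp only [h2, hr.2, neg_mul, sum_neg_distrib]

theorem RepL.map_half (t : ℕ) (h : RepL b sg W S d l Φ) :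
    Ok (mapK (fun _ => half t) l 0) fun r => RepL b sg W S d r fun ω θ => Φ ω θ / 2 ^ t := by
  obtain ⟨φ, h1, h2⟩ := h
  refine (mapK_ok (fun j T hT => half_ok t hT) l 0 h1).mono fun r hr =>
    ⟨fun j ω => φ j ω / 2 ^ t, hr.1, fun ω θ => ?_⟩
  simp only [h2, hr.2, sum_div]
  exact sum_congr rfl fun j _ => by ring

theorem RepL.deriv1 {φ : ℕ → ℝ → ℂ} (h1 : All (fun j T => Rep true W S T fun ω _ => φ j ω) 0 l)
    (h2 : ∀ ω θ, Φ ω θ = ∑ j ∈ range l.length, φ j ω * bas sg (2 * j - d) θ) (ω θ : ℝ) :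
    deriv (fun ω => Φ ω θ) ω = ∑ j ∈ range l.length, deriv (φ j) ω * bas sg (2 * j - d) θ := by
  simp only [h2]
  exact (HasDerivAt.fun_sum fun j hj =>
    ((h1.get (cst false 0 0) (mem_range.1 hj)).d1 ω θ).hasDerivAt.mul_const _).deriv

theorem RepL.map_th (L : ℕ) (h : RepL true sg W S d l Φ) : Ok (mapK (fun _ => th W S L) l 0)
    fun r => RepL true sg W S d r fun ω θ => -I * deriv (fun ω => Φ ω θ) ω := by
  obtain ⟨φ, h1, h2⟩ := h
  refine (mapK_ok (fun j T hT => th_ok L hT) l 0 h1).mono fun r hr =>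
    ⟨fun j ω => -I * deriv (φ j) ω, hr.1, fun ω θ => ?_⟩
  simp only [RepL.deriv1 h1 h2, hr.2, mul_sum, mul_assoc]

theorem RepL.map_dx (L : ℕ) (h : RepL true sg W S d l Φ) :
    Ok (mapK (fun _ => dx W S L) l 0) fun r => RepL true sg W S d r (E1 Φ) := by
  obtain ⟨φ, h1, h2⟩ := h
  refine (mapK_ok (fun j T hT => dx_ok L hT) l 0 h1).mono fun r hr =>
    ⟨fun j ω => -Real.sin ω * deriv (φ j) ω, hr.1, fun ω θ => ?_⟩
  simp only [E1, RepL.deriv1 h1 h2, hr.2, mul_sum, mul_assoc]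

theorem addL_core {φ ψ : ℕ → ℝ → ℂ} : ∀ (l r : List Tab) (i : ℕ),
    All (fun j T => Rep b W S T fun ω _ => φ j ω) i l →
    All (fun j T => Rep b W S T fun ω _ => ψ j ω) i r →
    Ok (addL W S l r) fun u => All (fun j T => Rep b W S T fun ω _ =>
      (if j < i + l.length then φ j ω else 0) + if j < i + r.length then ψ j ω else 0) i u ∧
        u.length = max l.length r.length
  | [], r, i, _, hr => fun _ h => ⟨r, ⟨hr.mono' fun j T h1 h2 hT => hT.congr fun _ _ => by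
      rw [if_neg (by simpa using h1), if_pos h2, zero_add], by simp⟩, h⟩
  | A :: l, [], i, hl, _ => fun _ h => ⟨A :: l, ⟨hl.mono' fun j T h1 h2 hT => hT.congr fun _ _ => by
      rw [if_pos h2, if_neg (by simpa using h1), add_zero], by simp⟩, h⟩
  | A :: l, B :: r, i, hl, hr => fun _ h => by
    obtain ⟨T, hT, h⟩ := add_ok hl.1 hr.1 _ h
    obtain ⟨u, hu, h⟩ := addL_core l r (i + 1) hl.2 hr.2 _ h
    refine ⟨T :: u, ⟨⟨hT.congr fun _ _ => by simp, ?_⟩, by simp [hu.2]⟩, h⟩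
    simpa only [List.length_cons, add_assoc, add_comm 1] using hu.1

theorem sum_trunc {n N : ℕ} (h : n ≤ N) (f g : ℕ → ℂ) :
    ∑ j ∈ range N, (if j < n then f j else 0) * g j = ∑ j ∈ range n, f j * g j := by
  rw [← sum_subset (range_subset_range.2 h) fun j _ hj => by
    rw [if_neg (by simpa using hj), zero_mul]]
  exact sum_congr rfl fun j hj => by rw [if_pos (mem_range.1 hj)]

theorem addL_ok (hl : RepL b sg W S d l Φ) (hr : RepL b sg W S d r Ψ) :
    Ok (addL W S l r) fun u => RepL b sg W S d u fun ω θ => Φ ω θ + Ψ ω θ := by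
  obtain ⟨φ, h1, h2⟩ := hl
  obtain ⟨ψ, g1, g2⟩ := hr
  refine (addL_core l r 0 h1 g1).mono fun u hu => ⟨_, hu.1, fun ω θ => ?_⟩
  simp only [hu.2, zero_add, add_mul, sum_add_distrib]
  rw [sum_trunc (le_max_left _ _) (fun j => φ j ω), sum_trunc (le_max_right _ _) (fun j => ψ j ω),
    h2, g2]

theorem idx_ok (b : Bool) (W S d j : ℕ) :
    Ok (idx d j) fun T => Rep b W S T fun _ _ => ((2 * j - (d : ℤ) : ℝ) : ℂ) := fun k h => by
  obtain ⟨g, a, ha, h⟩ := ssub_ok h
  exact ⟨_, (cst_rep b W S g a 0).congr fun _ _ => by rw [ha]; simp, h⟩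

theorem thL_ok {d : ℕ} (h : RepL b sg W S d l Φ) :
    Ok (thL d l) fun r => RepL b (!sg) W S d r fun ω θ => -I * deriv (fun θ => Φ ω θ) θ := by
  obtain ⟨φ, h1, h2⟩ := h
  refine (mapK_ok (P := fun j T => Rep b W S T fun ω _ => φ j ω)
    (fun j T hT => (idx_ok b W S d j).bind fun c hc => mul_ok hc hT) l 0 h1).mono fun r hr =>
    ⟨fun j ω => _ * φ j ω, hr.1, fun ω θ => ?_⟩
  simp only [h2]
  rw [(HasDerivAt.fun_sum fun j _ => (bas_deriv sg _ θ).const_mul (φ j ω)).deriv, mul_sum, hr.2]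
  refine sum_congr rfl fun j _ => ?_
  linear_combination -(φ j ω * (2 * j - (d : ℤ) : ℝ) * bas (!sg) (2 * j - (d : ℤ)) θ) * I_mul_I

theorem syL_ok (h : RepL b sg W S d l Φ) :
    Ok (syL W S l) fun r => RepL b (!sg) W S (d + 1) r fun ω θ => -(I * Real.sin θ) * Φ ω θ :=
    fun k hk => by
  obtain ⟨u, ⟨φ, h1, h2⟩, hk⟩ := h.map_half 1 _ hk
  have u1 : RepL b (!sg) W S (d + 1) u _ := ⟨φ, h1, fun _ _ => rfl⟩
  have u2 : RepL b (!sg) W S (d - 1) u _ := ⟨φ, h1, fun _ _ => rfl⟩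
  obtain ⟨v, hv, hk⟩ := u2.map_neg _ hk
  have := hv.cons
  rw [show d - 1 + 2 = d + 1 by ring] at this
  refine (addL_ok u1 this).mono (fun r hr => hr.congr fun ω θ => ?_) k hk
  have e : Φ ω θ = 2 * ∑ j ∈ range u.length, φ j ω * bas sg (2 * j - d) θ := by
    rw [← h2]
    ring
  rw [e, ← sub_eq_add_neg, ← sum_sub_distrib, mul_sum, mul_sum]
  refine sum_congr rfl fun j _ => ?_
  have := bas_sin sg (2 * j - d) θ
  rw [show (2 * j - ((d + 1 : ℤ) : ℝ)) = 2 * j - d - 1 by push_cast; ring,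
    show (2 * j - ((d - 1 : ℤ) : ℝ)) = 2 * j - d + 1 by push_cast; ring]
  linear_combination 2 * φ j ω * this

theorem cyL_ok (h : RepL b sg W S d l Φ) :
    Ok (cyL W S l) fun r => RepL b sg W S (d + 1) r fun ω θ => Real.cos θ * Φ ω θ := fun k hk => by
  obtain ⟨u, ⟨φ, h1, h2⟩, hk⟩ := h.map_half 1 _ hk
  have u1 : RepL b sg W S (d + 1) u _ := ⟨φ, h1, fun _ _ => rfl⟩
  have u2 : RepL b sg W S (d - 1) u _ := ⟨φ, h1, fun _ _ => rfl⟩
  have := u2.cons
  rw [show d - 1 + 2 = d + 1 by ring] at this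
  refine (addL_ok u1 this).mono (fun r hr => hr.congr fun ω θ => ?_) k hk
  have e : Φ ω θ = 2 * ∑ j ∈ range u.length, φ j ω * bas sg (2 * j - d) θ := by
    rw [← h2]
    ring
  rw [e, ← sum_add_distrib, mul_sum, mul_sum]
  refine sum_congr rfl fun j _ => ?_
  have := bas_cos sg (2 * j - d) θ
  rw [show (2 * j - ((d + 1 : ℤ) : ℝ)) = 2 * j - d - 1 by push_cast; ring,
    show (2 * j - ((d - 1 : ℤ) : ℝ)) = 2 * j - d + 1 by push_cast; ring]
  linear_combination 2 * φ j ω * this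

theorem dyL_ok {d : ℕ} (h : RepL b sg W S d l Φ) :
    Ok (dyL W S d l) fun r => RepL b sg W S (d + 1 : ℕ) r (E2 Φ) := fun k hk => by
  obtain ⟨u, hu, hk⟩ := thL_ok h _ hk
  refine (syL_ok hu).mono (fun r hr => ?_) k hk
  rw [Bool.not_not] at hr
  refine hr.congr fun ω θ => ?_
  rw [E2]
  linear_combination -(Real.sin θ * deriv (fun θ => Φ ω θ) θ) * I_mul_I

end Pool.Agent.Lib.KTab
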