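import Pool.Agent.Lib.KLA.Vec
import Pool.Agent.Lib.KTab.Defs
import Pool.Agent.Lib.KTab.Fam

/-!
The meaning of a packed table, and the ring operations.
-/

namespace Pool.Agent.Lib.KTab

open Finset Complex Pool.Agent.Lib.KLA

/-- A number with sign. -/
def sv (g : Bool) (a : ℕ) : ℤ := if g then -a else a

/-- The table `T` describes `Φ`; for `b = true` the error is small in the sum of the absolute values
of its coefficients, for `b = false` in its values. -/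
def Rep (b : Bool) (W S : ℕ) (T : Tab) (Φ : ℝ → ℝ → ℂ) : Prop :=
  ∃ G, Fam ⊥ T.n T.m T.M G ∧ (sv T.neg T.mag : ℂ) = G (2 ^ W) (2 ^ (W * S)) ∧
    Er b (T.n + 2 * T.x) T.m T.e fun ω θ => 2 ^ T.s * Φ ω θ - tr T.n T.m G ω θ

/-- What a computation passes on has the property `P`. -/
def Ok {α : Type} (c : (α → Bool) → Bool) (P : α → Prop) : Prop :=
  ∀ k, c k = true → ∃ a, P a ∧ k a = true

theorem Ok.mono {α : Type} {c : (α → Bool) → Bool} {P Q : α → Prop} (h : Ok c P)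
    (i : ∀ a, P a → Q a) : Ok c Q := fun k hk =>
  (h k hk).imp fun a ha => ⟨i a ha.1, ha.2⟩

theorem Ok.bind {α β : Type} {c : (α → Bool) → Bool} {f : α → (β → Bool) → Bool} {P : α → Prop}
    {Q : β → Prop} (h : Ok c P) (i : ∀ a, P a → Ok (f a) Q) :
    Ok (fun k => c fun a => f a k) Q := fun k hk => by
  obtain ⟨a, ha, h1⟩ := h _ hk
  exact i a ha k h1

theorem Ok.pure {α : Type} {P : α → Prop} {a : α} (h : P a) : Ok (fun k => k a) P :=
  fun _ hk => ⟨a, h, hk⟩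

theorem use_mk {α : Type} (g : Bool) (a n m x s M e : ℕ)
    (f : Bool → ℕ → ℕ → ℕ → ℕ → ℕ → ℕ → ℕ → α) :
    Tab.use ⟨g, a, n, m, x, s, M, e⟩ f = f g a n m x s M e := rfl

theorem mkT_eq (g : Bool) (a n m x s M e : ℕ) (k : Tab → Bool) :
    mkT g a n m x s M e k = k ⟨g, a, n, m, x, s, M, e⟩ := by
  cases g <;> rfl

theorem usep_mk {α β γ : Type} (a : α) (b : β) (f : α → β → γ) : usep (a, b) f = f a b := rfl

theorem div_eq' (a b : ℕ) : Nat.div a b = a / b := rfl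

theorem mod_eq' (a b : ℕ) : Nat.mod a b = a % b := rfl

theorem mx_eq (a b : ℕ) : mx a b = max a b := by
  simp only [mx, Nat.add_eq, Nat.sub_eq]
  omega

theorem sv_bx (g h : Bool) (a b : ℕ) : sv (bx g h) (a * b) = sv g a * sv h b := by
  cases g <;> cases h <;> simp [sv, bx, nt, cnd]

theorem abs_sv (g : Bool) (a : ℕ) : |sv g a| = a := by
  cases g <;> simp [sv]

theorem sv_mul (g : Bool) (a c : ℕ) : sv g (a * c) = sv g a * c := by
  cases g <;> simp [sv]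

theorem ssub_ok {a b : ℕ} {k : Bool → ℕ → Bool} (h : ssub a b k = true) :
    ∃ g c, sv g c = (a : ℤ) - b ∧ k g c = true := by
  rw [ssub, cnd_eq] at h
  split_ifs at h with h1
  · exact ⟨_, _, by simpa [sv] using Nat.cast_sub (Nat.le_of_ble_eq_true h1), h⟩
  · refine ⟨_, _, ?_, h⟩
    have : a ≤ b := by
      rw [Nat.ble_eq] at h1
      omega
    simp [sv, Nat.cast_sub this]

theorem sadd_ok {g g' : Bool} {a b : ℕ} {k : Bool → ℕ → Bool} (h : sadd g a g' b k = true) :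
    ∃ g'' c, sv g'' c = sv g a + sv g' b ∧ k g'' c = true := by
  cases g <;> cases g'
  · exact ⟨false, _, by simp [sv], h⟩
  · obtain ⟨g, c, h1, h2⟩ := ssub_ok (a := a) (b := b) h
    exact ⟨g, c, by rw [h1]; simp [sv, sub_eq_add_neg], h2⟩
  · obtain ⟨g, c, h1, h2⟩ := ssub_ok (a := b) (b := a) h
    exact ⟨g, c, by rw [h1]; simp [sv]; ring, h2⟩
  · exact ⟨true, _, by simp [sv]; ring, h⟩

theorem shl_eq' (a t : ℕ) (k : ℕ → Bool) : shl a t k = k (a * 2 ^ t) := by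
  rw [shl, strict_eq, cnd_eq, shl_eq]
  split_ifs with h
  · rw [Nat.eq_of_beq_eq_true h, pow_zero, mul_one]
  · rfl

theorem int_mem (z : ℤ) : (z : ℝ) ∈ (⊥ : Subring ℝ) := intCast_mem _ z

variable {b : Bool} {W S : ℕ} {A B : Tab} {Φ Ψ : ℝ → ℝ → ℂ}

theorem Rep.congr (h : Rep b W S A Φ) (e : ∀ ω θ, Ψ ω θ = Φ ω θ) : Rep b W S A Ψ := by
  rwa [show Ψ = Φ from funext fun z => funext fun w => e z w]

theorem Rep.weak (h : Rep b W S A Φ) : Rep false W S A Φ := by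
  obtain ⟨G, h1, h2, h3⟩ := h
  exact ⟨G, h1, h2, h3.weak _ _⟩

theorem Rep.sm (h : Rep b W S A Φ) :
    Er b (A.n + 2 * A.x) A.m (A.M + A.e) fun ω θ => 2 ^ A.s * Φ ω θ := by
  obtain ⟨G, h1, -, h3⟩ := h
  exact (((h1.sm.er b).box (by omega) (by omega) le_rfl (by omega)).add h3).congr fun ω θ => by ring

theorem Rep.sm' (h : Rep b W S A Φ) :
    Er b (A.n + 2 * A.x) A.m ((A.M + A.e) / 2 ^ A.s) Φ := by
  refine ((h.sm.smul (1 / 2 ^ A.s)).congr fun ω θ => ?_).le (le_of_eq ?_)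
  · push_cast
    field_simp
  · rw [abs_of_pos (by positivity)]
    ring

theorem Rep.eq_zero (h : Rep b W S A Φ) (h0 : A.M + A.e = 0) (ω θ : ℝ) : Φ ω θ = 0 := by
  have := h.sm'
  rw [← Nat.cast_add, h0, Nat.cast_zero, zero_div] at this
  exact this.eq_zero ω θ

theorem Rep.d1 (h : Rep true W S A Φ) (ω θ : ℝ) : DifferentiableAt ℝ (fun ω => Φ ω θ) ω := by
  obtain ⟨Ψ, -, h2⟩ := h.sm'.sm.d1
  exact (h2 ω θ).differentiableAt

theorem rep_const (b : Bool) (W S : ℕ) (g : Bool) (a s e : ℕ) {c : ℝ} (h : |2 ^ s * c - sv g a| ≤ e) :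
    Rep b W S ⟨g, a, 0, 0, 0, s, a, e⟩ fun _ _ => c := by
  refine ⟨_, (Fam.mon (int_mem (sv g a)) 0 0).mono le_rfl le_rfl (le_of_eq ?_), by simp, ?_⟩
  · rw [← Int.cast_abs, abs_sv, Int.cast_natCast]
  · refine (((Fam.mon (R := ⊤) (c := 2 ^ s * c - sv g a) trivial 0 0).sm.er b).congr fun ω θ => ?_).le h
    simp [tr, ex_zero]

theorem cst_rep (b : Bool) (W S : ℕ) (g : Bool) (a s : ℕ) :
    Rep b W S (cst g a s) fun _ _ => ((sv g a / 2 ^ s : ℝ) : ℂ) :=
  rep_const b W S g a s 0 (by rw [mul_div_cancel₀ _ (by positivity)]; simp)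

theorem zero_rep (b : Bool) (W S : ℕ) : Rep b W S (cst false 0 0) fun _ _ => 0 :=
  (cst_rep b W S false 0 0).congr fun _ _ => by simp [sv]

theorem rat_ok (b : Bool) (W S : ℕ) (g : Bool) (p q s : ℕ) :
    Ok (rat g p q s) fun T => Rep b W S T fun _ _ => ((sv g p / q : ℝ) : ℂ) := fun k h => by
  simp only [rat, strict_eq, bnd_iff, Nat.ble_eq, shl_eq, div_eq'] at h
  refine ⟨_, rep_const b W S g _ s 1 ?_, h.2⟩
  have hq : (0 : ℝ) < q := by exact_mod_cast h.1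
  have h1 : ((p * 2 ^ s / q : ℕ) : ℝ) ≤ 2 ^ s * (p / q) := by
    refine Nat.cast_div_le.trans (le_of_eq ?_)
    push_cast
    ring
  have h2 : (2 : ℝ) ^ s * (p / q) ≤ (p * 2 ^ s / q : ℕ) + 1 := by
    have : ((p * 2 ^ s : ℕ) : ℝ) ≤ (((p * 2 ^ s / q + 1) * q : ℕ) : ℝ) := by
      exact_mod_cast (Nat.lt_mul_div_succ _ h.1).le.trans_eq (mul_comm _ _)
    rw [← mul_div_assoc, div_le_iff₀ hq]
    push_cast at this ⊢
    linarith
  rw [abs_le]
  cases g <;> simp only [sv, if_true, Bool.false_eq_true, if_false, Int.cast_neg, Int.cast_natCast,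
    neg_div, Nat.cast_one] <;> constructor <;> linarith

theorem fam_one_add : Fam ⊥ 1 0 2 fun z _ => z + 1 := by
  have := (Fam.mon (int_mem 1) 1 0).add ((Fam.mon (int_mem 1) 0 0).mono zero_le_one le_rfl le_rfl)
  exact (this.congr fun z w => by simp).mono le_rfl le_rfl (by norm_num)

theorem fam_one_add' : Fam ⊥ 0 1 2 fun _ w => w + 1 := by
  have := (Fam.mon (int_mem 1) 0 1).add ((Fam.mon (int_mem 1) 0 0).mono le_rfl zero_le_one le_rfl)
  exact (this.congr fun z w => by simp).mono le_rfl le_rfl (by norm_num)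

theorem ex_cos (t : ℝ) : (ex (2 * t) + 1) * ex (-t) = 2 * (Real.cos t : ℂ) := by
  rw [two_cos_ex, add_mul, ← ex_add, one_mul, show 2 * t + -t = t by ring]

theorem cx_rep (b : Bool) (W S : ℕ) : Rep b W S (cx W) (ang fun x _ => x) := by
  refine ⟨_, by simpa [cx] using fam_one_add, by simp [cx, sv, Nat.shiftLeft_eq], ?_⟩
  refine (((Sm.zero _ _).er b).congr fun ω θ => ?_).le (by simp [cx])
  simp only [cx, tr, ang, Nat.cast_one, one_mul, Nat.cast_zero, zero_mul, add_zero, ex_cos]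
  ring

theorem cy_rep (b : Bool) (W S : ℕ) : Rep b W S (cy W S) (ang fun _ c => c) := by
  refine ⟨_, by simpa [cy] using fam_one_add', by simp [cy, sv, Nat.shiftLeft_eq], ?_⟩
  refine (((Sm.zero _ _).er b).congr fun ω θ => ?_).le (by simp [cy])
  simp only [cy, tr, ang, Nat.cast_one, one_mul, Nat.cast_zero, zero_mul, zero_add, ex_cos]
  ring

theorem fam_sub_one : Fam ⊥ 1 0 2 fun z _ => z - 1 := by
  have := (Fam.mon (int_mem 1) 1 0).add ((Fam.mon (int_mem (-1)) 0 0).mono zero_le_one le_rfl le_rfl)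
  exact (this.congr fun z w => by simp [sub_eq_add_neg]).mono le_rfl le_rfl (by norm_num)

theorem fam_sub_one' : Fam ⊥ 0 1 2 fun _ w => w - 1 := by
  have := (Fam.mon (int_mem 1) 0 1).add ((Fam.mon (int_mem (-1)) 0 0).mono le_rfl zero_le_one le_rfl)
  exact (this.congr fun z w => by simp [sub_eq_add_neg]).mono le_rfl le_rfl (by norm_num)

theorem ex_sin (t : ℝ) : (ex (2 * t) - 1) * ex (-t) = 2 * (Real.sin t : ℂ) * I := by
  rw [two_sin_ex, sub_mul, ← ex_add, one_mul, show 2 * t + -t = t by ring]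

theorem low_cast (W : ℕ) : ((low W : ℕ) : ℤ) = 2 ^ W - 1 := by
  rw [low_eq, Nat.cast_sub Nat.one_le_two_pow]
  simp

theorem sx_rep (b : Bool) (W S : ℕ) : Rep b W S (sx W) fun ω _ => I * Real.sin ω := by
  refine ⟨_, by simpa [sx] using fam_sub_one, by simp [sx, sv, low_cast], ?_⟩
  refine (((Sm.zero _ _).er b).congr fun ω θ => ?_).le (by simp [sx])
  simp only [sx, tr, Nat.cast_one, one_mul, Nat.cast_zero, zero_mul, add_zero, ex_sin]
  ring

theorem sy_rep (b : Bool) (W S : ℕ) : Rep b W S (sy W S) fun _ θ => I * Real.sin θ := by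
  refine ⟨_, by simpa [sy] using fam_sub_one', by simp [sy, sv, low_cast], ?_⟩
  refine (((Sm.zero _ _).er b).congr fun ω θ => ?_).le (by simp [sy])
  simp only [sy, tr, Nat.cast_one, one_mul, Nat.cast_zero, zero_mul, zero_add, ex_sin]
  ring

/-- A function that is near in its values. -/
theorem wide_ok (p q : ℕ) (hA : Rep b W S A Φ) (hd : ∀ ω θ, ‖Ψ ω θ - Φ ω θ‖ ≤ p / q) :
    Ok (wide p q A) fun T => Rep false W S T Ψ := fun k h => by
  obtain ⟨g, a, n, m, x, s, M, e⟩ := A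
  obtain ⟨G, h1, h2, h3⟩ := hA
  simp only [wide, use_mk, strict_eq, bnd_iff, Nat.ble_eq, shl_eq, div_eq', Nat.add_eq] at h
  refine ⟨⟨g, a, n, m, x, s, M, e + (p * 2 ^ s / q + 1)⟩, ⟨G, h1, h2, by simp, fun ω θ => ?_⟩, h.2⟩
  have hq : (0 : ℝ) < q := by exact_mod_cast h.1
  have t1 := h3.2 ω θ
  have t2 : ((p * 2 ^ s : ℕ) : ℝ) ≤ (((p * 2 ^ s / q + 1) * q : ℕ) : ℝ) := by
    exact_mod_cast (Nat.lt_mul_div_succ _ h.1).le.trans_eq (mul_comm _ _)
  have t3 : (2 : ℝ) ^ s * (p / q) ≤ (p * 2 ^ s / q : ℕ) + 1 := by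
    rw [← mul_div_assoc, div_le_iff₀ hq]
    push_cast at t2 ⊢
    linarith
  dsimp only at *
  rw [show 2 ^ s * Ψ ω θ - tr n m G ω θ = 2 ^ s * Φ ω θ - tr n m G ω θ + 2 ^ s * (Ψ ω θ - Φ ω θ)
    by ring]
  refine (norm_add_le _ _).trans ?_
  rw [norm_mul, norm_pow, Complex.norm_ofNat]
  have t4 := mul_le_mul_of_nonneg_left (hd ω θ) (show (0 : ℝ) ≤ 2 ^ s by positivity)
  rw [Nat.cast_add, Nat.cast_add, Nat.cast_one]
  linarith

theorem neg_ok (hA : Rep b W S A Φ) : Ok (neg A) fun T => Rep b W S T fun ω θ => -Φ ω θ := fun k h => by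
  obtain ⟨g, a, n, m, x, s, M, e⟩ := A
  obtain ⟨G, h1, h2, h3⟩ := hA
  have key : ∀ g', sv g' a = -sv g a → Rep b W S ⟨g', a, n, m, x, s, M, e⟩ fun ω θ => -Φ ω θ :=
    fun g' hg => ⟨_, h1.neg, by simp only [hg, Int.cast_neg]; exact congrArg _ h2,
      h3.neg.congr fun ω θ => by simp only [tr]; ring⟩
  cases g
  · exact ⟨_, key true (by simp [sv]), h⟩
  · exact ⟨_, key false (by simp [sv]), h⟩

theorem half_ok (t : ℕ) (hA : Rep b W S A Φ) :
    Ok (half t A) fun T => Rep b W S T fun ω θ => Φ ω θ / 2 ^ t := fun k h => by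
  obtain ⟨g, a, n, m, x, s, M, e⟩ := A
  obtain ⟨G, h1, h2, h3⟩ := hA
  refine ⟨⟨g, a, n, m, x, s + t, M, e⟩, ⟨G, h1, h2, h3.congr fun ω θ => ?_⟩, h⟩
  simp only [pow_add]
  field_simp

theorem mul_ok (hA : Rep b W S A Φ) (hB : Rep b W S B Ψ) :
    Ok (mul A B) fun T => Rep b W S T fun ω θ => Φ ω θ * Ψ ω θ := fun k h => by
  obtain ⟨g, a, n, m, x, s, M, e⟩ := A
  obtain ⟨g', a', n', m', x', s', M', e'⟩ := B
  have hs := hB.sm
  obtain ⟨G, h1, h2, h3⟩ := hA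
  obtain ⟨G', g1, g2, g3⟩ := hB
  simp only [mul, use_mk, mkT_eq, Nat.add_eq, Nat.mul_eq] at h
  dsimp only at *
  refine ⟨_, ⟨_, by simpa using h1.mul g1, by simp only [sv_bx, Int.cast_mul, h2, g2], ?_⟩, h⟩
  have t1 := ((h1.sm.er b).mul g3).box (n' := n + n' + 2 * (x + x')) (by omega) (by omega) le_rfl (by omega)
  have t2 := (h3.mul hs).box (n' := n + n' + 2 * (x + x')) (by omega) (by omega) le_rfl (by omega)
  refine ((t1.add t2).congr fun ω θ => ?_).le (le_of_eq (by push_cast; ring))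
  simp only [tr_mul, pow_add]
  ring

theorem lift_ok (n' m' s' : ℕ) (hA : Rep b W S A Φ) :
    Ok (lift W S n' m' s' A) fun T => Rep b W S T Φ ∧ T.n = n' ∧ T.m = m' ∧ T.s = s' := fun k h => by
  obtain ⟨g, a, n, m, x, s, M, e⟩ := A
  obtain ⟨G, h1, h2, h3⟩ := hA
  simp only [lift, use_mk, strict_eq, mkT_eq, shl_eq', bnd_iff, Nat.add_eq, Nat.mul_eq, Nat.sub_eq,
    Nat.beq_eq, Nat.ble_eq, shl_eq] at h
  dsimp only at *
  obtain ⟨⟨hn, hm, hs⟩, h⟩ := h
  generalize Nat.div (n' - n) 2 = dn at *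
  generalize Nat.div (m' - m) 2 = dm at *
  obtain ⟨ds, rfl⟩ := Nat.exists_eq_add_of_le hs
  rw [Nat.add_sub_cancel_left] at h
  subst hn hm
  have hc : ((2 : ℝ) ^ ds) ∈ (⊥ : Subring ℝ) := by simpa using int_mem (2 ^ ds)
  refine ⟨_, ⟨⟨_, ((h1.shift dn dm).smul hc).mono le_rfl le_rfl (le_of_eq ?_), ?_, ?_⟩,
    rfl, rfl, rfl⟩, h⟩
  · rw [abs_of_pos (by positivity)]
    push_cast
    ring
  · simp only [sv_mul, Int.cast_mul, h2]
    push_cast
    ring
  · dsimp only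
    refine (((h3.smul (2 ^ ds)).box (by omega) (by omega) (by omega) (by omega)).congr
      fun ω θ => ?_).le (le_of_eq ?_)
    · rw [← tr_shift n m dn dm G]
      simp only [tr, pow_add]
      push_cast
      ring
    · rw [abs_of_pos (by positivity)]
      push_cast
      ring

theorem add0_ok (hA : Rep b W S A Φ) (hB : Rep b W S B Ψ) :
    Ok (add0 A B) fun T => Rep b W S T fun ω θ => Φ ω θ + Ψ ω θ := fun k h => by
  obtain ⟨g, a, n, m, x, s, M, e⟩ := A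
  obtain ⟨g', a', n', m', x', s', M', e'⟩ := B
  obtain ⟨G, h1, h2, h3⟩ := hA
  obtain ⟨G', g1, g2, g3⟩ := hB
  simp only [add0, use_mk, mkT_eq, Nat.add_eq, bnd_iff, Nat.beq_eq, mx_eq] at h
  dsimp only at *
  obtain ⟨⟨rfl, rfl, rfl⟩, h⟩ := h
  obtain ⟨g'', c, hc, h⟩ := sadd_ok h
  refine ⟨_, ⟨_, by simpa using h1.add g1, by simp only [hc, Int.cast_add, h2, g2], ?_⟩, h⟩
  have t1 := h3.box (n' := n + 2 * max x x') (by omega) (by omega) le_rfl (by omega)
  have t2 := g3.box (n' := n + 2 * max x x') (by omega) (by omega) le_rfl (by omega)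
  refine ((t1.add t2).congr fun ω θ => ?_).le (le_of_eq (by push_cast; ring))
  simp only [tr]
  ring

theorem add_ok (hA : Rep b W S A Φ) (hB : Rep b W S B Ψ) :
    Ok (add W S A B) fun T => Rep b W S T fun ω θ => Φ ω θ + Ψ ω θ := fun k h => by
  obtain ⟨g, a, n, m, x, s, M, e⟩ := A
  obtain ⟨g', a', n', m', x', s', M', e'⟩ := B
  simp only [add, use_mk, cnd_eq, strict_eq, Nat.add_eq, Nat.beq_eq] at h
  split_ifs at h with h1 h2 h3
  · exact ⟨_, hB.congr fun ω θ => by rw [hA.eq_zero h1, zero_add], h⟩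
  · exact ⟨_, hA.congr fun ω θ => by rw [hB.eq_zero h2, add_zero], h⟩
  · exact add0_ok hA hB k h
  · obtain ⟨A', hA', h⟩ := lift_ok _ _ _ hA _ h
    obtain ⟨B', hB', h⟩ := lift_ok _ _ _ hB _ h
    exact add0_ok hA'.1 hB'.1 k h

theorem sub_ok (hA : Rep b W S A Φ) (hB : Rep b W S B Ψ) :
    Ok (sub W S A B) fun T => Rep b W S T fun ω θ => Φ ω θ - Ψ ω θ := fun k h => by
  obtain ⟨B', hB', h⟩ := neg_ok hB _ h
  simpa only [sub_eq_add_neg] using add_ok hA hB' k h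

theorem fin_ok {n' m' p q : ℕ} (h : fin n' m' p q A = true) (hA : Rep b W S A Φ) :
    Er b n' m' (p / q) Φ := by
  have hs := hA.sm'
  obtain ⟨g, a, n, m, x, s, M, e⟩ := A
  simp only [fin, use_mk, bnd_iff, Nat.add_eq, Nat.mul_eq, mod_eq', Nat.beq_eq, Nat.ble_eq,
    shl_eq] at h
  dsimp only at hs
  obtain ⟨⟨h1, h2⟩, ⟨h3, h4⟩, h5, h6⟩ := h
  refine (hs.box h1 (by omega) h2 h4).le ?_
  rw [div_le_div_iff₀ (by positivity) (by exact_mod_cast h5)]
  exact_mod_cast h6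

/-- A table with one row does not depend on the distance of the rows. -/
theorem Rep.stride (h : Rep b W S A Φ) (hm : A.m = 0) (S' : ℕ) : Rep b W S' A Φ := by
  obtain ⟨G, h1, h2, h3⟩ := h
  refine ⟨G, h1, h2.trans ?_, h3⟩
  obtain ⟨ι, s, c, a, b, t1, -, t3⟩ := h1
  rw [t3, t3]
  refine sum_congr rfl fun k hk => ?_
  have : b k = 0 := by have := (t1 k hk).2.2; omega
  rw [this, pow_zero, pow_zero]

end Pool.Agent.Lib.KTab
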