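import Pool.Agent.Lib.KTab.Dig

/-!
Operations on tables with one row: derivative, change of width, loading of data, reading of
coefficients.
-/

namespace Pool.Agent.Lib.KTab

open Finset Complex Pool.Agent.Lib.KLA

theorem pk_lt {W : ℕ} : ∀ {p : ℕ} {u : ℕ → ℤ}, (∀ j < p, u j < 2 ^ W) → pk W p u < 2 ^ (W * p)
  | 0, _, _ => by simp [pk]
  | p + 1, u, h => by
    have h1 := pk_lt (p := p) (u := fun j => u (j + 1)) fun j hj => h _ (by omega)
    have h2 := h 0 (by omega)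
    have h3 : (0 : ℤ) < 2 ^ W := by positivity
    rw [pk_succ, mul_add, pow_add, mul_one]
    nlinarith [Int.add_one_le_iff.2 h1]

theorem pk_ext (W : ℕ) {p P : ℕ} (h : p ≤ P) (u : ℕ → ℤ) :
    pk W P (fun j => if j < p then u j else 0) = pk W p u := by
  obtain ⟨q, rfl⟩ := Nat.exists_eq_add_of_le h
  rw [pk_split, pk_congr (w := u) fun j hj => if_pos hj,
    pk_congr (p := q) (w := fun _ => 0) fun j _ => if_neg (by omega)]
  simp [pk]

theorem Vec.bits_ext {W p K y P : ℕ} {v : ℕ → ℤ} (h : Vec W p K y v) (hK : 2 * K < 2 ^ W)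
    (hp : p ≤ P) : y < 2 ^ (W * P) ∧
      ∀ j < P, (bits y (W * j) W : ℤ) = if j < p then v j + K else 0 := by
  have h1 : (y : ℤ) = pk W P fun j => if j < p then v j + K else 0 := by rw [pk_ext W hp, h.1]
  have h2 : ∀ j < P, 0 ≤ (if j < p then v j + K else 0) ∧ (if j < p then v j + K else 0) < 2 ^ W :=
    fun j _ => by
      split_ifs with hj
      · exact h.dig hK hj
      · exact ⟨le_rfl, by positivity⟩
  refine ⟨?_, bits_pk le_rfl h1 h2⟩
  have := pk_lt fun j hj => (h2 j hj).2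
  rw [← h1] at this
  exact_mod_cast this

theorem bits_split (y s W : ℕ) : ∀ g, (bits y s (W * g) : ℤ) = pk W g fun r => bits y (s + W * r) W
  | 0 => by simp [bits, pk, Nat.mod_one]
  | g + 1 => by
    rw [pk, sum_range_succ, ← pk, ← bits_split y s W g, mul_add, mul_one, bits, pow_add, Nat.mod_mul,
      Nat.div_div_eq_div_mul, ← pow_add]
    simp only [bits]
    push_cast
    ring

theorem pk_block (W g : ℕ) (u : ℕ → ℤ) : ∀ Q,
    pk (W * g) Q (fun h => pk W g fun r => u (g * h + r)) = pk W (g * Q) u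
  | 0 => by simp [pk]
  | Q + 1 => by
    rw [pk, sum_range_succ, ← pk, pk_block W g u Q, mul_add, mul_one, pk_split, mul_assoc]

theorem tsum_eq {W L : ℕ} (hW : 0 < W) (y : ℕ) : ∀ K, K ≤ L → (tsum W L y K : ℤ) =
    pk W (2 ^ L) fun i => (2 ^ K - 1 - (i % 2 ^ K : ℕ)) * bits y (W * i) W
  | 0, _ => by simp [tsum, pk, Nat.mod_one]
  | K + 1, h => by
    change ((tsum W L y K + Nat.shiftLeft (Nat.land y (msk (Nat.shiftLeft W (K + 1))
      (Nat.shiftLeft W K) (Nat.shiftLeft 1 (L - (K + 1))))) K : ℕ) : ℤ) = _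
    simp only [shl_eq, one_mul]
    rw [Nat.cast_add, tsum_eq hW y K (by omega), Nat.cast_mul,
      land_msk (by positivity) (Nat.mul_le_mul_left _ (Nat.pow_le_pow_right (by norm_num) (by omega))),
      pk_congr (W := W * 2 ^ (K + 1)) (w := fun h => pk W (2 ^ (K + 1)) fun r =>
        (fun i => if i % 2 ^ (K + 1) < 2 ^ K then (bits y (W * i) W : ℤ) else 0) (2 ^ (K + 1) * h + r))
        fun h _ => ?_,
      pk_block W _ fun i => if i % 2 ^ (K + 1) < 2 ^ K then (bits y (W * i) W : ℤ) else 0, ← pow_add, Nat.add_sub_cancel' h, mul_comm, pk_mul, pk_add]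
    · refine pk_congr fun i _ => ?_
      have h1 : i % 2 ^ K < 2 ^ K := Nat.mod_lt _ (by positivity)
      rw [Nat.mod_pow_succ]
      rcases Nat.mod_two_eq_zero_or_one (i / 2 ^ K) with e | e <;> rw [e]
      · rw [if_pos (by omega)]
        push_cast
        ring
      · rw [if_neg (by omega)]
        push_cast
        ring
    · rw [bits_split, ← pk_ext W (Nat.pow_le_pow_right (by norm_num) (Nat.le_succ K))]
      refine pk_congr fun r hr => ?_
      beta_reduce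
      rw [Nat.mul_add_mod, Nat.mod_eq_of_lt hr, mul_add, mul_assoc]

theorem two_mul_lt {w W : ℕ} (h : w + 2 ≤ W) : 2 * 2 ^ w < 2 ^ W := by
  rw [← pow_succ']
  exact Nat.pow_lt_pow_right (by norm_num) (by omega)

theorem vec_ofs {W : ℕ} (hW : 0 < W) (p w : ℕ) : Vec W p (2 ^ w) (ofs W p w) fun _ => 0 :=
  ⟨by rw [ofs_eq hW]; simp, fun _ _ => by simp⟩

theorem tsum_vec {W L n K y : ℕ} {v : ℕ → ℤ} (hW : 0 < W) (h : Vec W (n + 1) K y v)
    (hK : 2 * K < 2 ^ W) (hp : n + 1 ≤ 2 ^ L) :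
    ((2 * 2 ^ L - (n + 2) : ℕ) : ℤ) * y - tsum W L y L * 2 =
      pk W (n + 1) fun i => (2 * i - n) * (v i + K) := by
  rw [tsum_eq hW y L le_rfl, pk_congr (w := fun i => if i < n + 1 then
    (2 ^ L - 1 - i) * (v i + K) else 0) fun i hi => ?_, pk_ext W hp, h.1, mul_comm _ 2, pk_mul,
    pk_mul, pk_sub, Nat.cast_sub (by omega)]
  · exact pk_congr fun i _ => by push_cast; ring
  · rw [(Vec.bits_ext h hK hp).2 i hi, Nat.mod_eq_of_lt hi]
    split_ifs <;> simp

theorem dg_row {S n : ℕ} (hS : n < S) (c : ℕ → ℝ) (z w : ℂ) :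
    dg S (n + 1) c z w = ∑ k ∈ range (n + 1), c k * z ^ k :=
  sum_congr rfl fun k hk => by
    have := mem_range.1 hk
    rw [Nat.mod_eq_of_lt (by omega), Nat.div_eq_of_lt (by omega), pow_zero, mul_one]

theorem tr_row {S n : ℕ} (hS : n < S) (c : ℕ → ℝ) (ω θ : ℝ) :
    tr n 0 (dg S (n + 1) c) ω θ = ∑ k ∈ range (n + 1), c k * ex ((2 * k - n) * ω + 0) := by
  rw [tr, dg_row hS, sum_mul]
  refine sum_congr rfl fun k _ => ?_
  have := tr_mon n 0 (c k) k 0 ω θ
  simpa using this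

theorem fam_row {R : Subring ℝ} {S n : ℕ} {M : ℝ} {c : ℕ → ℝ} (hS : n < S) (h1 : ∀ k, c k ∈ R)
    (h2 : ∑ k ∈ range (n + 1), |c k| ≤ M) : Fam R n 0 M (dg S (n + 1) c) :=
  Fam.of_digits (m := 0) hS h1 h2 fun k hk hk' => by
    rw [Nat.mod_eq_of_lt (by omega)] at hk'
    omega

variable {b : Bool} {W S : ℕ} {A : Tab} {Φ Ψ : ℝ → ℝ → ℂ}

theorem th_ok (L : ℕ) (hA : Rep true W S A Φ) :
    Ok (th W S L A) fun T => Rep true W S T fun ω θ => -I * deriv (fun ω => Φ ω θ) ω := fun k h => by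
  obtain ⟨g, a, n, m, x, s, M, e⟩ := A
  obtain ⟨G, h1, h2, h3⟩ := hA
  simp only [th, use_mk, strict_eq, Nat.sub_eq] at h
  obtain ⟨y, v, hk, hS, hw, hM, hy, hv, v1, v2, v3⟩ := dig_ok h h1 h2
  clear h
  simp only [bnd_iff, Nat.ble_eq, Nat.beq_eq, Nat.mul_eq, Nat.add_eq, mkT_eq, shl_eq, one_mul] at hk
  dsimp only at *
  obtain ⟨⟨rfl, hp⟩, hk⟩ := hk
  obtain rfl : G = _ := funext fun z => funext fun w => v3 z w
  simp only [mul_zero, add_zero] at hp hk hy v1 h3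
  obtain ⟨g', c, hc, hk⟩ := ssub_ok hk
  have hW : 0 < W := by omega
  have e1 := tsum_vec hW hy (two_mul_lt hw) hp
  have e2 := tsum_vec hW (vec_ofs hW (n + 1) (W - 2)) (two_mul_lt hw) hp
  have e3 : sv g' c = pk W (n + 1) fun i => (2 * i - n) * v i := by
    rw [hc, Nat.cast_add, Nat.cast_add, Nat.cast_mul, Nat.cast_mul, Nat.cast_mul, Nat.cast_mul]
    refine Eq.trans ?_ ((congrArg₂ (· - ·) e1 e2).trans ?_)
    · push_cast
      ring
    · beta_reduce
      rw [pk_sub]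
      exact pk_congr fun i _ => by ring
  obtain ⟨Θ, t1, t2⟩ := h3.sm.d1
  refine ⟨_, ?_, hk⟩
  refine ⟨dg S (n + 1) fun i => ((2 * i - n) * v i : ℤ), ?_, ?_, ?_⟩ <;> dsimp only
  · refine fam_row hS (fun _ => int_mem _) ?_
    have v1' : ∑ j ∈ range (n + 1), |(v j : ℝ)| ≤ M := by exact_mod_cast v1
    push_cast
    refine le_trans (sum_le_sum fun i hi => ?_)
      ((mul_sum _ _ _).symm.trans_le (mul_le_mul_of_nonneg_left v1' (Nat.cast_nonneg n)))
    rw [abs_mul]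
    exact mul_le_mul_of_nonneg_right (abs_freq (Nat.lt_succ_iff.1 (mem_range.1 hi))) (abs_nonneg _)
  · rw [e3, dg_pk]
  · refine ((t1.er true).congr fun ω θ => ?_).le (by rw [Nat.cast_mul])
    have d1 : HasDerivAt (fun ω => tr n 0 (dg S (n + 1) fun j => v j) ω θ)
        (I * tr n 0 (dg S (n + 1) fun i => ((2 * i - n) * v i : ℤ)) ω θ) ω := by
      simp only [tr_row hS]
      refine (HasDerivAt.fun_sum fun (i : ℕ) _ =>
        (hasDerivAt_ex (2 * i - n) 0 ω).const_mul (((v i : ℤ) : ℝ) : ℂ)).congr_deriv ?_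
      rw [mul_sum]
      exact sum_congr rfl fun k _ => by push_cast; ring
    have d2 := ((t2 ω θ).fun_add d1).div_const (2 ^ s)
    simp only [sub_add_cancel] at d2
    simp only [mul_div_cancel_left₀ _ (show (2 : ℂ) ^ s ≠ 0 from pow_ne_zero _ two_ne_zero)] at d2
    rw [d2.deriv]
    field_simp
    rw [I_sq]
    ring

theorem dx_ok (L : ℕ) (hA : Rep true W S A Φ) :
    Ok (dx W S L A) fun T => Rep true W S T (E1 Φ) := fun k h => by
  obtain ⟨T, hT, h⟩ := th_ok L hA _ h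
  obtain ⟨T, hT, h⟩ := mul_ok (sx_rep true W S) hT _ h
  obtain ⟨T, hT, h⟩ := neg_ok hT _ h
  refine ⟨T, hT.congr fun ω θ => ?_, h⟩
  rw [E1]
  linear_combination -(Real.sin ω * deriv (fun ω => Φ ω θ) ω) * I_mul_I

theorem rs_eq (W V : ℕ) : ∀ L y, y < 2 ^ (W * 2 ^ L) →
    (rs W V L y : ℤ) = pk V (2 ^ L) fun j => bits y (W * j) W
  | 0, y, h => by
    rw [pow_zero, mul_one] at h
    simp [rs, pk, bits, Nat.mod_eq_of_lt h, -Int.natCast_emod, -Int.natCast_mod]
  | L + 1, y, h => by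
    change ((cnd (Nat.beq y 0) 0 (rs W V L (Nat.land y (low (Nat.shiftLeft W L))) +
      Nat.shiftLeft (rs W V L (Nat.shiftRight y (Nat.shiftLeft W L))) (Nat.shiftLeft V L)) : ℕ) : ℤ) = _
    rw [cnd_eq]
    split_ifs with h0
    · simp [Nat.eq_of_beq_eq_true h0, pk]
    rw [pow_succ, mul_two, mul_add, pow_add] at h
    simp only [land_low, shl_eq, shr_eq]
    rw [Nat.cast_add, Nat.cast_mul, rs_eq W V L _ (Nat.mod_lt _ (by positivity)),
      rs_eq W V L _ (Nat.div_lt_of_lt_mul h), pow_succ, mul_two, pk_split]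
    push_cast
    congr 1
    · exact pk_congr fun j hj => by rw [bits_mod (by nlinarith)]
    · congr 1
      exact pk_congr fun j _ => by rw [bits_div, mul_add]

theorem rv_eq (W V : ℕ) : ∀ L y, y < 2 ^ (W * 2 ^ L) →
    (rv W V L y : ℤ) = pk V (2 ^ L) fun j => bits y (W * (2 ^ L - 1 - j)) W
  | 0, y, h => by
    rw [pow_zero, mul_one] at h
    simp [rv, pk, bits, Nat.mod_eq_of_lt h, -Int.natCast_emod, -Int.natCast_mod]
  | L + 1, y, h => by
    change ((cnd (Nat.beq y 0) 0 (rv W V L (Nat.shiftRight y (Nat.shiftLeft W L)) +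
      Nat.shiftLeft (rv W V L (Nat.land y (low (Nat.shiftLeft W L)))) (Nat.shiftLeft V L)) : ℕ) : ℤ) = _
    rw [cnd_eq]
    split_ifs with h0
    · simp [Nat.eq_of_beq_eq_true h0, pk]
    rw [pow_succ, mul_two, mul_add, pow_add] at h
    simp only [land_low, shl_eq, shr_eq]
    rw [Nat.cast_add, Nat.cast_mul, rv_eq W V L _ (Nat.mod_lt _ (by positivity)),
      rv_eq W V L _ (Nat.div_lt_of_lt_mul h), pow_succ, mul_two, pk_split]
    push_cast
    congr 1
    · exact pk_congr fun j hj => by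
        rw [bits_div, ← mul_add, show 2 ^ L + (2 ^ L - 1 - j) = 2 ^ L + 2 ^ L - 1 - j by omega]
    · congr 1
      exact pk_congr fun j hj => by
        rw [bits_mod (by rw [← Nat.mul_succ]; exact Nat.mul_le_mul_left _ (by omega)),
          show 2 ^ L + 2 ^ L - 1 - (2 ^ L + j) = 2 ^ L - 1 - j by omega]

theorem res_ok (V L : ℕ) (hV : 0 < V) (hA : Rep b W S A Φ) :
    Ok (res W V S L A) fun T => Rep b V S T Φ := fun k h => by
  obtain ⟨g, a, n, m, x, s, M, e⟩ := A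
  obtain ⟨G, h1, h2, h3⟩ := hA
  simp only [res, use_mk, strict_eq, Nat.sub_eq] at h
  obtain ⟨y, v, hk, hS, hw, hM, hy, hv, v1, v2, v3⟩ := dig_ok h h1 h2
  clear h
  simp only [bnd_iff, Nat.ble_eq, Nat.beq_eq, shl_eq, one_mul] at hk
  dsimp only at *
  obtain ⟨⟨rfl, hp⟩, hk⟩ := hk
  obtain ⟨g', c, hc, hk⟩ := ssub_ok hk
  obtain ⟨y1, y2⟩ := Vec.bits_ext hy (two_mul_lt hw) hp
  rw [rs_eq W V L y y1, pk_congr y2, pk_ext V hp, ofs_eq hV, pk_sub,
    pk_congr (w := v) fun j _ => by push_cast; ring] at hc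
  refine ⟨_, ?_, hk⟩
  exact ⟨G, h1, by dsimp only; rw [hc, v3, dg_pk], h3⟩

theorem abs_bits_sub (z s b : ℕ) : |(bits z s (b + 1) : ℤ) - 2 ^ b| ≤ 2 ^ b := by
  have t1 : ((bits z s (b + 1) : ℕ) : ℤ) < 2 ^ (b + 1) := by exact_mod_cast bits_lt _ _ _
  have t2 := Int.natCast_nonneg (bits z s (b + 1))
  rw [pow_succ] at t1
  rw [abs_le]
  constructor <;> linarith

theorem sv_bx_mul (g h : Bool) (a d : ℕ) : sv (bx g h) a * sv h d = sv g (a * d) := by
  cases g <;> cases h <;> simp [sv, bx, nt, cnd]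

theorem dv_ok {D : Tab} (hA : Rep b W S A Φ) (hD : Rep b W S D Ψ) (b' : Bool) :
    Ok (dv W S A D) fun T => ∃ Θ, Rep b' W S T Θ ∧ (∀ θ, Continuous fun ω => Θ ω θ) ∧
      ∀ ω θ, Φ ω θ = Θ ω θ * Ψ ω θ := fun k h => by
  obtain ⟨g, a, n, m, x, s, M, e⟩ := A
  obtain ⟨g', d, n', m', x', s', M', e'⟩ := D
  obtain ⟨G, h1, h2, h3⟩ := hA
  obtain ⟨G', g1, g2, g3⟩ := hD
  rw [dv, use_mk, use_mk] at h
  simp only [strict_eq, bnd_iff, Nat.ble_eq, Nat.beq_eq, Nat.mul_eq, Nat.add_eq, Nat.sub_eq, shl_eq,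
    one_mul, div_eq', mkT_eq] at h
  dsimp only at *
  obtain ⟨⟨⟨h0, hn, hs⟩, ⟨hS, hu⟩, hp, hd⟩, h⟩ := h
  obtain ⟨rfl, rfl, rfl, rfl⟩ : m = 0 ∧ m' = 0 ∧ e = 0 ∧ e' = 0 := by omega
  obtain ⟨q, rfl⟩ := Nat.exists_eq_add_of_le' hn
  obtain ⟨t, rfl⟩ := Nat.exists_eq_add_of_le' hs
  rw [Nat.add_sub_cancel] at h hp hu
  rw [Nat.add_sub_cancel] at h
  generalize W - 3 - (q + 1).log2 = u at *
  generalize a / d = c at *
  subst hd
  have hW : 0 < W := by omega
  obtain ⟨y, hy, ⟨-, hm⟩, hM, hk⟩ : ∃ y : ℕ, (y : ℤ) = sv (bx g g') c + ofs W (q + 1) u ∧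
      (c ≤ ofs W (q + 1) u ∧ Nat.land y (msk W (u + 1) (q + 1)) = y) ∧
      M + l1 W u (q + 1) y * M' + 1 ≤ 2 ^ W ∧
      k ⟨bx g g', c, q, 0, 0, t, l1 W u (q + 1) y, 0⟩ = true := by
    generalize bx g g' = g'' at *
    cases g'' <;> simp only [off, cnd, bnd_iff, Nat.ble_eq, Nat.beq_eq] at h
    · exact ⟨_, by simp [sv], h⟩
    · exact ⟨_, by simp [sv, Nat.cast_sub h.1.1, add_comm, sub_eq_add_neg], h⟩
  have hv := vec_store (W := W) (b := u + 1) (by omega) (by omega) (q + 1) y 0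
  rw [Nat.add_sub_cancel, show Nat.shiftRight y 0 = y from rfl, hm] at hv
  obtain ⟨v, hv'⟩ : ∃ v : ℕ → ℤ, v = fun j => (bits y (0 + W * j) (u + 1) : ℤ) - 2 ^ u := ⟨_, rfl⟩
  rw [← hv'] at hv
  have v0 : ∀ j < q + 1, v j < 2 ^ u := fun j _ => by
    have t1 : ((bits y (0 + W * j) (u + 1) : ℕ) : ℤ) < 2 ^ (u + 1) := by exact_mod_cast bits_lt _ _ _
    rw [hv', pow_succ] at *
    linarith
  have v1 := l1_ok hv v0 hu ((sum_le_card_nsmul _ _ ((2 : ℤ) ^ u) fun j hj => by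
    exact_mod_cast hv.2 j (mem_range.1 hj)).trans (by
      rw [card_range, nsmul_eq_mul]
      exact_mod_cast hp))
  generalize l1 W u (q + 1) y = M1 at *
  have f1 : Fam ⊥ q 0 M1 (dg S (q + 1) fun j => v j) :=
    fam_row (by omega) (fun _ => int_mem _) (by exact_mod_cast v1)
  have f2 : (sv (bx g g') c : ℂ) = dg S (q + 1) (fun j => v j) (2 ^ W) (2 ^ (W * S)) := by
    rw [dg_pk, unoff hW hv (by rw [hy]; ring)]
  have f3 := f1.mul g1
  rw [← Nat.cast_mul] at f3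
  obtain ⟨w, w1, -, w3⟩ := f3.digits hS
  obtain ⟨w', w1', -, w3'⟩ := h1.digits hS
  have e1 : pk W (q + n' + 1 + S * 0) w' = pk W (q + n' + 1 + S * 0) w := by
    have := w3 (2 ^ W) (2 ^ (W * S))
    rw [← f2, ← g2, dg_pk, ← Int.cast_mul, sv_bx_mul, h2, w3', dg_pk] at this
    exact_mod_cast this
  have e2 := pk_inj e1 fun j hj => by
    have t1 := single_le_sum (f := fun j => |w j|) (fun _ _ => abs_nonneg _) (mem_range.2 hj)
    have t2 := single_le_sum (f := fun j => |w' j|) (fun _ _ => abs_nonneg _) (mem_range.2 hj)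
    have t3 : (M : ℤ) + (M1 * M' : ℕ) + 1 ≤ 2 ^ W := by exact_mod_cast hM
    have t4 := abs_sub (w' j) (w j)
    simp only [add_zero] at w1 t1
    linarith
  have e3 : G = fun z w => dg S (q + 1) (fun j => v j) z w * G' z w := by
    funext z z'
    rw [w3', w3]
    exact sum_congr rfl fun j hj => by simp only [e2 j (mem_range.1 hj)]
  refine ⟨_, ⟨fun ω θ => tr q 0 (dg S (q + 1) fun j => v j) ω θ / 2 ^ t, ⟨_, f1, f2,
    (((Sm.zero _ _).er b').congr fun ω θ => ?_).le (by simp)⟩, fun θ => ?_, fun ω θ => ?_⟩, hk⟩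
  · dsimp only
    field_simp
    ring
  · obtain ⟨Θ, -, t2⟩ := f1.sm.d1
    exact (continuous_iff_continuousAt.2 fun ω => (t2 ω θ).continuousAt).div_const _
  · have t1 := Er.eq_zero (by simpa using h3) ω θ
    have t2 := Er.eq_zero (by simpa using g3) ω θ
    have t3 := tr_mul q 0 n' 0 (dg S (q + 1) fun j => v j) G' ω θ
    rw [← e3] at t3
    rw [sub_eq_zero] at t1 t2
    rw [add_zero, ← t1, ← t2, pow_add] at t3
    field_simp
    have : (2 : ℂ) ^ s' ≠ 0 := pow_ne_zero _ two_ne_zero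
    exact mul_left_cancel₀ this (by linear_combination t3)

/-- Exact division by a natural number. -/
theorem dv_cst {d : ℕ} (hd : d ≠ 0) (hA : Rep b W S A Φ) :
    Ok (dv W S A (cst false d 0)) fun T => Rep b W S T fun ω θ => Φ ω θ / d :=
  (dv_ok hA (cst_rep b W S false d 0) b).mono fun T ⟨Θ, h1, _, h3⟩ => h1.congr fun ω θ => by
    have : (d : ℂ) ≠ 0 := by exact_mod_cast hd
    rw [h3]
    simp [sv, this]

theorem eq_of_sin {f g : ℝ → ℂ} (hf : Continuous f) (hg : Continuous g)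
    (h : ∀ ω, Real.sin ω ≠ 0 → f ω = g ω) : f = g := by
  refine Continuous.ext_on (s := {ω | Real.sin ω ≠ 0}) ?_ hf hg h
  have : {ω | Real.sin ω ≠ 0} = (Set.range fun n : ℤ => n * Real.pi)ᶜ := by
    ext ω
    simp [Real.sin_eq_zero_iff]
  rw [this]
  exact (Set.countable_range _).dense_compl ℝ

theorem dX_ok {F F' : ℝ → ℝ → ℝ} (L : ℕ) (hA : Rep true W S A (ang F))
    (hd : ∀ x c, HasDerivAt (fun x => F x c) (F' x c) x) (hc : ∀ c, Continuous fun x => F' x c) :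
    Ok (dX W S L A) fun T => Rep true W S T (ang F') := fun k h => by
  obtain ⟨T, hT, h⟩ := th_ok L hA _ h
  obtain ⟨U, ⟨Θ, h1, h2, h3⟩, h⟩ := dv_ok hT (sx_rep true W S) true _ h
  refine ⟨U, h1.congr fun ω θ => ?_, h⟩
  refine congrFun (eq_of_sin (f := fun ω => ang F' ω θ)
    (continuous_ofReal.comp ((hc _).comp Real.continuous_cos)) (h2 θ) fun ω hω => ?_) ω
  have t1 := h3 ω θ
  rw [(ang_d1 (hd _ _)).deriv] at t1
  have t2 : I * (Real.sin ω : ℂ) ≠ 0 := mul_ne_zero I_ne_zero (by exact_mod_cast hω)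
  exact mul_left_cancel₀ t2 (by linear_combination t1)

/-- Stored digit `j`, with `b + 1` bits and offset `2 ^ b`. -/
def sdig (b z j : ℕ) : ℤ := (bits z ((b + 1) * j) (b + 1) : ℤ) - 2 ^ b

theorem abs_sdig (b z j : ℕ) : |sdig b z j| ≤ 2 ^ b := abs_bits_sub z _ b

theorem cheb_ok (bb : Bool) (W S b L c s z : ℕ) :
    Ok (cheb W b L c s z) fun T => Rep bb W S T (ang fun x _ => ∑ j ∈ range (c + 1),
      sdig b z j / 2 ^ s * (Polynomial.Chebyshev.T ℝ j).eval (2 * x ^ 2 - 1)) := fun k h => by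
  simp only [cheb, strict_eq, bnd_iff, Nat.ble_eq, Nat.mul_eq, Nat.add_eq, Nat.sub_eq, mkT_eq, shl_eq,
    one_mul, land_low, shr_eq] at h
  obtain ⟨⟨hc, hW⟩, h⟩ := h
  obtain ⟨g, a, ha, hk⟩ := ssub_ok h
  clear h
  have hy : z % 2 ^ ((b + 1) * (c + 1)) < 2 ^ ((b + 1) * (c + 1)) := Nat.mod_lt _ (by positivity)
  have hy' := hy.trans_le (Nat.pow_le_pow_right (by norm_num) (Nat.mul_le_mul_left (b + 1) hc))
  have b1 : ∀ j < c + 1, bits (z % 2 ^ ((b + 1) * (c + 1))) ((b + 1) * j) (b + 1) =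
      bits z ((b + 1) * j) (b + 1) := fun j hj =>
    bits_mod (by rw [← Nat.mul_succ]; exact Nat.mul_le_mul_left _ hj)
  have b2 : ∀ j, c + 1 ≤ j → bits (z % 2 ^ ((b + 1) * (c + 1))) ((b + 1) * j) (b + 1) = 0 :=
    fun j hj => by
      rw [bits, Nat.div_eq_of_lt (hy.trans_le
        (Nat.pow_le_pow_right (by norm_num) (Nat.mul_le_mul_left _ hj))), Nat.zero_mod]
  have e1 := rs_eq (b + 1) W L _ hy'
  have e2 := rv_eq (b + 1) W L _ hy'
  generalize z % 2 ^ ((b + 1) * (c + 1)) = y at *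
  obtain ⟨r, hr⟩ := Nat.exists_eq_add_of_le hc
  rw [hr, pk_split, pk_congr (w := fun j => bits z ((b + 1) * j) (b + 1)) fun j hj => by rw [b1 j hj],
    pk_congr (p := r) (w := fun _ => 0) fun j _ => by rw [b2 _ (by omega)]; rfl] at e1
  rw [hr, add_comm (c + 1) r, pk_split,
    pk_congr (p := r) (w := fun _ => 0) fun j hj => by rw [b2 _ (by omega)]; rfl,
    pk_congr (p := c + 1) (w := fun j => bits z ((b + 1) * (c - j)) (b + 1)) fun j hj => by
      rw [show r + (c + 1) - 1 - (r + j) = c - j by omega, b1 _ (by omega)]] at e2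
  have z0 : ∀ p, pk W p (fun _ => 0) = 0 := fun p => by simp [pk]
  rw [z0, zero_mul, add_zero] at e1
  rw [z0, zero_add] at e2
  rw [hr, Nat.add_sub_cancel_left] at ha
  have e3 : sv g a = ∑ j ∈ range (c + 1),
      (sdig b z j * 2 ^ (W * (c - j)) + sdig b z j * 2 ^ (W * (c + j))) := by
    rw [ha, Nat.cast_add, Nat.cast_add, Nat.cast_mul, Nat.cast_mul, Int.natCast_div, e1, e2,
      ofs_eq hW, sum_add_distrib, ← sum_range_reflect (fun j => sdig b z j * 2 ^ (W * (c - j)))]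
    push_cast
    rw [Int.mul_ediv_cancel _ (by positivity), add_sub_add_comm, ← sub_mul, pk_sub, pk_sub, pk, pk,
      sum_mul]
    congr 1 <;> refine sum_congr rfl fun j hj => ?_
    · have := mem_range.1 hj
      rw [show c - (c - j) = j by omega]
      rfl
    · rw [mul_add W, pow_add, sdig]
      ring
  refine ⟨_, ?_, hk⟩
  have f := Fam.sum (R := ⊥) (n := 2 * c) (m := 0) (range (c + 1)) fun j hj =>
    ((Fam.mon (int_mem (sdig b z j)) (c - j) 0).mono (by omega) le_rfl le_rfl).add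
      ((Fam.mon (int_mem (sdig b z j)) (c + j) 0).mono (by have := mem_range.1 hj; omega) le_rfl le_rfl)
  refine ⟨_, f.mono le_rfl le_rfl ?_, ?_, ?_⟩ <;> dsimp only
  · refine (sum_le_card_nsmul _ _ ((2 : ℝ) ^ (b + 1)) fun j _ => ?_).trans (by simp)
    have : |(sdig b z j : ℝ)| ≤ 2 ^ b := by exact_mod_cast abs_sdig b z j
    rw [pow_succ]
    linarith
  · rw [e3]
    push_cast
    exact sum_congr rfl fun j _ => by simp only [pow_mul, pow_zero, mul_one]
  · refine (((Sm.zero _ _).er bb).congr fun ω θ => ?_).le (by simp)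
    rw [sub_eq_zero, tr, ang, ← Real.cos_two_mul]
    simp only [Polynomial.Chebyshev.T_real_cos, sum_mul, add_mul, tr_mon]
    rw [ofReal_sum, mul_sum]
    refine sum_congr rfl fun j hj => ?_
    have hj : j ≤ c := Nat.lt_succ_iff.1 (mem_range.1 hj)
    have := two_cos_ex ((j : ℤ) * (2 * ω))
    rw [show ((2 : ℝ) * (c - j : ℕ) - (2 * c : ℕ)) * ω + (2 * (0 : ℕ) - (0 : ℕ)) * θ =
      -((j : ℤ) * (2 * ω)) by rw [Nat.cast_sub hj]; push_cast; ring,
      show ((2 : ℝ) * (c + j : ℕ) - (2 * c : ℕ)) * ω + (2 * (0 : ℕ) - (0 : ℕ)) * θ =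
      (j : ℤ) * (2 * ω) by push_cast; ring, ← mul_add, add_comm (ex _), ← this, ofReal_mul, ofReal_div]
    push_cast
    field_simp
    ring

theorem vtab_rep (bb : Bool) {b n : ℕ} (hb : b + 1 ≤ W) (hS : n < S) (x s e t z : ℕ) :
    Rep bb W S (vtab W b n x s e t z) fun ω θ =>
      tr n 0 (dg S (n + 1) fun j => ((bits z (t + W * j) (b + 1) : ℤ) - 2 ^ b : ℤ)) ω θ / 2 ^ s := by
  have hv := vec_store (W := W) (b := b + 1) (by omega) hb (n + 1) z t
  rw [Nat.add_sub_cancel] at hv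
  refine ⟨dg S (n + 1) fun j => ((bits z (t + W * j) (b + 1) : ℤ) - 2 ^ b : ℤ), ?_, ?_, ?_⟩
  · refine fam_row hS (fun _ => int_mem _) ((sum_le_card_nsmul _ _ ((2 : ℝ) ^ b) fun j _ => ?_).trans
      (by simp [vtab, Nat.shiftLeft_eq]))
    exact_mod_cast abs_bits_sub z _ b
  · rw [dg_pk]
    refine congrArg _ (unoff (by omega) hv ?_)
    simp only [vtab, Nat.add_eq, nt, cnd_eq, Nat.ble_eq, Nat.sub_eq]
    generalize Nat.land _ _ = y
    split_ifs with h
    · simp [sv, Nat.cast_sub h]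
    · simp [sv, Nat.cast_sub (not_le.1 h).le]
  · refine (((Sm.zero _ _).er bb).congr fun ω θ => ?_).le (Nat.cast_nonneg _)
    change 2 ^ s * _ - tr n 0 _ ω θ = 0
    field_simp
    ring

/-- A stored row that is near a computed one describes the same function. -/
theorem near_vtab {b' n x s e t z : ℕ} (h : near W S A (vtab W b' n 0 s 0 t z) x e = true)
    (hb : b' + 1 ≤ W) (hS : n < S) (hA : Rep b W S A Φ) : Rep b W S (vtab W b' n x s e t z) Φ :=
  near_ok h hA (vtab_rep b hb hS 0 s 0 t z)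

end Pool.Agent.Lib.KTab
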